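import Mathlib

/-!
# Basic notions: relatively algebraically closed homs, the sets `VV`, good fields
-/

namespace Pool.Agent.Helper51.ET

open Polynomial

/-- `j : A → B` is relatively algebraically closed. -/
def Rac {A B : Type*} [Field A] [Field B] (j : A →+* B) : Prop :=
  ∀ x : B, (∃ p : A[X], p ≠ 0 ∧ p.eval₂ j x = 0) → ∃ a, j a = x

section rac
variable {A B C : Type*} [Field A] [Field B] [Field C]

lemma Rac.comp {j : A →+* B} {k : B →+* C} (hj : Rac j) (hk : Rac k) : Rac (k.comp j) := by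
  rintro x ⟨p, hp, hx⟩
  obtain ⟨y, rfl⟩ := hk x ⟨p.map j, (Polynomial.map_ne_zero hp), by rwa [eval₂_map]⟩
  have h2 : k (p.eval₂ j y) = 0 := by rw [← hx, hom_eval₂]
  obtain ⟨a, rfl⟩ := hj y ⟨p, hp, by simpa using h2⟩
  exact ⟨a, rfl⟩

lemma Rac.of_comp {j : A →+* B} {k : B →+* C} (h : Rac (k.comp j)) : Rac j := by
  rintro x ⟨p, hp, hx⟩
  obtain ⟨a, ha⟩ := h (k x) ⟨p, hp, by rw [← hom_eval₂, hx, map_zero]⟩
  exact ⟨a, k.injective ha⟩

lemma Rac.of_surjective {j : A →+* B} (h : Function.Surjective j) : Rac j := fun x _ => h x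

lemma Rac.sq {j : A →+* B} (hj : Rac j) {a : A} {s : B} (h : s ^ 2 = j a) :
    ∃ t : A, t ^ 2 = a := by
  obtain ⟨t, rfl⟩ := hj s ⟨X ^ 2 - C a, X_pow_sub_C_ne_zero (by norm_num) a, by simp [h]⟩
  exact ⟨t, j.injective (by simpa using h)⟩

/-- an element which is algebraic over an element-wise algebraic base: polynomial with `map` -/
lemma Rac.root {j : A →+* B} (hj : Rac j) {p : A[X]} (hp : p ≠ 0) {x : B}
    (hx : (p.map j).eval x = 0) : ∃ a, j a = x :=
  hj x ⟨p, hp, by rwa [eval_map] at hx⟩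

end rac

/-- The sextic whose negative defines the genus two curves. -/
def fz {F : Type*} [Field F] (c z : F) : F :=
  (z ^ 2 + 1) * (z ^ 2 + 4) * (z ^ 2 + (c ^ 2 + 3) ^ 2)

lemma map_fz {A B : Type*} [Field A] [Field B] (j : A →+* B) (c z : A) :
    j (fz c z) = fz (j c) (j z) := by
  simp [fz, map_ofNat]

/-- No points on the curves `w² = - fz c z` with rational parameter. -/
def NoPt (F : Type*) [Field F] : Prop :=
  ∀ c : ℚ, ∀ z w : F, w ^ 2 ≠ - fz (c : F) z

lemma NoPt.of_hom {A B : Type*} [Field A] [Field B] [CharZero A] [CharZero B] (j : A →+* B)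
    (h : NoPt B) : NoPt A := by
  intro c z w hw
  refine h c (j z) (j w) ?_
  have := congrArg j hw
  simpa [map_fz] using this

/-- The set of `x` such that `1 + c x` is a square for all rational `c`. -/
def VV (F : Type*) [Field F] : Set F := {x | ∀ c : ℚ, ∃ s : F, s ^ 2 = 1 + (c : F) * x}

lemma VV.map {A B : Type*} [Field A] [Field B] [CharZero A] [CharZero B] (j : A →+* B) {x : A}
    (h : x ∈ VV A) : j x ∈ VV B := by
  intro c
  obtain ⟨s, hs⟩ := h c
  refine ⟨j s, ?_⟩
  have := congrArg j hs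
  simpa using this

lemma Rac.mem_VV {A B : Type*} [Field A] [Field B] [CharZero A] [CharZero B] {j : A →+* B}
    (hj : Rac j) {x : A} : j x ∈ VV B ↔ x ∈ VV A := by
  refine ⟨fun h c => ?_, fun h => VV.map j h⟩
  obtain ⟨s, hs⟩ := h c
  have : s ^ 2 = j (1 + (c : A) * x) := by simpa using hs
  exact hj.sq this

lemma NoPt.neg_one {F : Type*} [Field F] (h : NoPt F) (s : F) : s ^ 2 ≠ -1 := by
  intro hs
  refine h 0 s 0 ?_
  simp [fz, hs]

lemma VV.zero_mem (F : Type*) [Field F] : (0 : F) ∈ VV F := fun c => ⟨1, by simp⟩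

lemma VV.smul_mem {F : Type*} [Field F] [CharZero F] {x : F} (h : x ∈ VV F) (q : ℚ) :
    (q : F) * x ∈ VV F := by
  intro c
  obtain ⟨s, hs⟩ := h (c * q)
  exact ⟨s, by rw [hs]; push_cast; ring⟩

lemma VV.neg_mem {F : Type*} [Field F] [CharZero F] {x : F} (h : x ∈ VV F) : -x ∈ VV F := by
  have := VV.smul_mem h (-1)
  simpa using this

/-- The special polynomials of the definition of gt-henselian topologies. -/
noncomputable def sp {F : Type*} [CommRing F] {d : ℕ} (a : Fin (d + 1) → F) : F[X] :=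
  X ^ (d + 2) + X ^ (d + 1) + ∑ i : Fin (d + 1), C (a i) * X ^ (i : ℕ)

lemma sp_map {A B : Type*} [CommRing A] [CommRing B] (j : A →+* B) {d : ℕ} (a : Fin (d + 1) → A) :
    (sp a).map j = sp (fun i => j (a i)) := by
  simp [sp, Polynomial.map_sum]

lemma degree_sum_lt {F : Type*} [Semiring F] {d : ℕ} (a : Fin (d + 1) → F) :
    (X ^ (d + 1) + ∑ i : Fin (d + 1), C (a i) * X ^ (i : ℕ) : F[X]).degree < ((d + 2 : ℕ) : WithBot ℕ) := by
  refine lt_of_le_of_lt (degree_add_le _ _) (max_lt ?_ ?_)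
  · exact lt_of_le_of_lt (degree_X_pow_le _) (by exact_mod_cast Nat.lt_succ_self _)
  · refine lt_of_le_of_lt (degree_sum_le _ _) ?_
    rw [Finset.sup_lt_iff (WithBot.bot_lt_coe _)]
    intro i _
    refine lt_of_le_of_lt (degree_C_mul_X_pow_le _ _) ?_
    exact_mod_cast (by omega : (i : ℕ) < d + 2)

lemma sp_monic {F : Type*} [CommRing F] {d : ℕ} (a : Fin (d + 1) → F) : (sp a).Monic := by
  rw [sp, add_assoc]
  exact monic_X_pow_add (degree_sum_lt a)

/-- Good fields. -/
structure Good (F : Type*) [Field F] [CharZero F] : Prop where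
  rat : Rac (Rat.castHom F)
  nopt : NoPt F
  add : ∀ x ∈ VV F, ∀ y ∈ VV F, x + y ∈ VV F
  mul : ∀ x ∈ VV F, ∀ y ∈ VV F, x * y ∈ VV F
  inv : ∀ x ∈ VV F, ∃ y ∈ VV F, (1 + x) * (1 + y) = 1
  hens : ∀ (d : ℕ) (a : Fin (d + 1) → F), (∀ i, a i ∈ VV F) →
    ∃ r : F, r + 1 ∈ VV F ∧ eval r (sp a) = 0 ∧ eval r (derivative (sp a)) ≠ 0

lemma Good.of_rac {A B : Type*} [Field A] [Field B] [CharZero A] [CharZero B] {j : A →+* B}
    (hj : Rac j) (h : Good B) : Good A where
  rat := by
    refine Rac.of_comp (k := j) ?_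
    have : j.comp (Rat.castHom A) = Rat.castHom B := by ext; simp
    rw [this]
    exact h.rat
  nopt := h.nopt.of_hom j
  add x hx y hy := by
    rw [← hj.mem_VV, map_add]
    exact h.add _ (VV.map j hx) _ (VV.map j hy)
  mul x hx y hy := by
    rw [← hj.mem_VV, map_mul]
    exact h.mul _ (VV.map j hx) _ (VV.map j hy)
  inv x hx := by
    obtain ⟨y, hy, hxy⟩ := h.inv _ (VV.map j hx)
    have h0 : 1 + x ≠ 0 := by
      intro h0
      have : j (1 + x) = 0 := by rw [h0, map_zero]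
      rw [map_add, map_one] at this
      rw [this, zero_mul] at hxy
      exact zero_ne_one hxy
    have hy' : y = j ((1 + x)⁻¹ - 1) := by
      have h1 : (1 + j x) ≠ 0 := by
        have := (map_ne_zero j).2 h0
        simpa using this
      rw [map_sub, map_inv₀, map_add, map_one]
      field_simp
      linear_combination hxy
    refine ⟨(1 + x)⁻¹ - 1, ?_, ?_⟩
    · rw [← hj.mem_VV, ← hy']; exact hy
    · field_simp
      ring
  hens d a ha := by
    obtain ⟨r, hr, h0, h1⟩ := h.hens d (fun i => j (a i)) (fun i => VV.map j (ha i))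
    rw [← sp_map] at h0 h1
    obtain ⟨s, rfl⟩ := hj.root (sp_monic a).ne_zero h0
    refine ⟨s, ?_, ?_, ?_⟩
    · rw [← hj.mem_VV]; simpa using hr
    · rw [eval_map, eval₂_hom] at h0
      exact (map_eq_zero j).1 h0
    · rw [derivative_map, eval_map, eval₂_hom] at h1
      exact (map_ne_zero j).1 h1

end Pool.Agent.Helper51.ET
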