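import Pool.Agent.Helper51.ET.Chain

/-!
# The field
-/

namespace Pool.Agent.Helper51.ET

open Polynomial

/-- all tasks can be solved at once -/
theorem CG.solveAll (A : CG) : ∃ B : CG, ∃ h : A.K ≤ B.K,
    Rac (Subfield.inclusion h) ∧ ∀ τ : Task A.K, Solved (Subfield.inclusion h) τ := by
  have hc : Countable (Task A.K) := countable_task A.K
  obtain ⟨e, he⟩ := exists_surjective_nat (Task A.K)
  have hstep : ∀ (k : ℕ) (B : {B : CG // A.le B}), ∃ C : {B : CG // A.le B},
      B.1.le C.1 ∧ Solved (Subfield.inclusion C.2.fst) (e k) := by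
    rintro k ⟨B, hB⟩
    obtain ⟨C, h1, h2, h3⟩ := CG.step B (Task.map (Subfield.inclusion hB.fst) (e k))
    exact ⟨⟨C, CG.le_trans hB ⟨h1, h2⟩⟩, ⟨h1, h2⟩, h3.of_map⟩
  choose next hnext using hstep
  let S : ℕ → {B : CG // A.le B} := fun n => Nat.rec ⟨A, CG.le_refl A⟩ (fun k B => next k B) n
  have hS : ∀ n, S (n + 1) = next n (S n) := fun n => rfl
  let T : ℕ → CG := fun n => (S n).1
  have hT : ∀ n, (T n).le (T (n + 1)) := by
    intro n
    change (S n).1.le (S (n + 1)).1
    rw [hS]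
    exact (hnext n (S n)).1
  let U : CG := ⟨chainU T, chain_countable T hT, chain_good T hT⟩
  refine ⟨U, le_chainU T 0, chain_rac T hT 0, fun τ => ?_⟩
  obtain ⟨k, rfl⟩ := he τ
  have h1 : Solved (Subfield.inclusion (S (k + 1)).2.fst) (e k) := by
    have h2 := (hnext k (S k)).2
    rw [← hS] at h2
    exact h2
  exact h1.comp (chain_rac T hT (k + 1))

lemma vv_rat {x : ℚ} (hx : x ∈ VV ℚ) : x = 0 := by
  by_contra h
  obtain ⟨s, hs⟩ := hx (-2 / x)
  rw [Rat.cast_id, div_mul_cancel₀ _ h] at hs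
  nlinarith [sq_nonneg s]

lemma good_rat : Good ℚ where
  rat := fun x _ => ⟨x, by simp⟩
  nopt := by
    intro c z w hw
    have h1 : ∀ c' : ℚ, 0 < fz c' z := by
      intro c'
      rw [fz]
      have h3 : (0 : ℚ) < z ^ 2 + (c' ^ 2 + 3) ^ 2 := by positivity
      positivity
    have h2 := h1 (Rat.cast c)
    have h3 : 0 ≤ w ^ 2 := sq_nonneg w
    rw [hw] at h3
    linarith
  add := by
    intro x hx y hy
    rw [vv_rat hx, vv_rat hy, add_zero]
    exact VV.zero_mem ℚ
  mul := by
    intro x hx y hy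
    rw [vv_rat hx, zero_mul]
    exact VV.zero_mem ℚ
  inv := by
    intro x hx
    refine ⟨0, VV.zero_mem ℚ, ?_⟩
    rw [vv_rat hx]
    norm_num
  hens := by
    intro d a ha
    have ha0 : a = fun _ => 0 := funext fun i => vv_rat (ha i)
    have hsp : sp a = X ^ (d + 2) + X ^ (d + 1) := by
      rw [ha0, sp]
      simp
    refine ⟨-1, ?_, ?_, ?_⟩
    · rw [neg_add_cancel]
      exact VV.zero_mem ℚ
    · rw [hsp]
      simp only [eval_add, eval_pow, eval_X]
      ring
    · rw [hsp]
      simp only [derivative_add, derivative_X_pow, eval_add, eval_mul, eval_pow, eval_X,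
        eval_natCast, map_natCast]
      have : (((d + 2 : ℕ) : ℚ) * (-1) ^ (d + 2 - 1) + ((d + 1 : ℕ) : ℚ) * (-1) ^ (d + 1 - 1)) =
          -(-1) ^ d := by
        rw [show d + 2 - 1 = d + 1 from rfl, show d + 1 - 1 = d from rfl, pow_succ]
        push_cast
        ring
      rw [this]
      exact neg_ne_zero.2 (pow_ne_zero _ (by norm_num))

/-- the base of the tower -/
theorem exists_base : ∃ _ : CG, True := by
  let φ : ℚ →+* ℂ := Rat.castHom ℂ
  let e : ℚ ≃+* φ.fieldRange := RingEquiv.ofBijective φ.rangeRestrictField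
    ⟨φ.rangeRestrictField.injective, φ.rangeRestrict_surjective⟩
  have hcnt : Countable φ.fieldRange := e.symm.injective.countable
  have hgood : Good φ.fieldRange :=
    Good.of_rac (j := (e.symm : φ.fieldRange →+* ℚ)) (Rac.of_surjective e.symm.surjective) good_rat
  exact ⟨⟨φ.fieldRange, hcnt, hgood⟩, trivial⟩

end Pool.Agent.Helper51.ET
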