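import Pool.Agent.Helper51.ET.Embed

/-!
# Chains of good subfields of the complex numbers
-/

namespace Pool.Agent.Helper51.ET

open Polynomial

theorem Good.of_cover {U : Type} [Field U] [CharZero U] (A : ℕ → Type) [∀ n, Field (A n)]
    [∀ n, CharZero (A n)] (k : ∀ n, A n →+* U) (hk : ∀ n, Rac (k n)) (hA : ∀ n, Good (A n))
    (cover : ∀ (m : ℕ) (f : Fin m → U), ∃ n, ∀ i, ∃ y, k n y = f i) : Good U where
  rat := by
    rintro x ⟨p, hp, hx⟩
    obtain ⟨n, hn⟩ := cover 1 (fun _ => x)
    obtain ⟨y, rfl⟩ := hn 0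
    have hcomp : (k n).comp (Rat.castHom (A n)) = Rat.castHom U := by ext; simp
    have h1 : p.eval₂ (Rat.castHom (A n)) y = 0 := by
      apply (k n).injective
      rw [hom_eval₂, hcomp, hx, map_zero]
    obtain ⟨q, hq⟩ := (hA n).rat y ⟨p, hp, h1⟩
    refine ⟨q, ?_⟩
    rw [← hq, ← hcomp]
    rfl
  nopt := by
    intro c z w hw
    obtain ⟨n, hn⟩ := cover 2 ![z, w]
    obtain ⟨z', hz'⟩ := hn 0
    obtain ⟨w', hw'⟩ := hn 1
    have hz'' : k n z' = z := by simpa using hz'
    have hw'' : k n w' = w := by simpa using hw'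
    refine (hA n).nopt c z' w' ?_
    apply (k n).injective
    rw [map_pow, map_neg, map_fz, map_ratCast, hz'', hw'', hw]
  add x hx y hy := by
    obtain ⟨n, hn⟩ := cover 2 ![x, y]
    obtain ⟨x', hx'⟩ := hn 0
    obtain ⟨y', hy'⟩ := hn 1
    have hx'' : k n x' = x := by simpa using hx'
    have hy'' : k n y' = y := by simpa using hy'
    rw [← hx'', ← hy'', ← map_add, (hk n).mem_VV]
    rw [← hx'', (hk n).mem_VV] at hx
    rw [← hy'', (hk n).mem_VV] at hy
    exact (hA n).add _ hx _ hy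
  mul x hx y hy := by
    obtain ⟨n, hn⟩ := cover 2 ![x, y]
    obtain ⟨x', hx'⟩ := hn 0
    obtain ⟨y', hy'⟩ := hn 1
    have hx'' : k n x' = x := by simpa using hx'
    have hy'' : k n y' = y := by simpa using hy'
    rw [← hx'', ← hy'', ← map_mul, (hk n).mem_VV]
    rw [← hx'', (hk n).mem_VV] at hx
    rw [← hy'', (hk n).mem_VV] at hy
    exact (hA n).mul _ hx _ hy
  inv x hx := by
    obtain ⟨n, hn⟩ := cover 1 (fun _ => x)
    obtain ⟨x', hx''⟩ := hn 0
    rw [← hx'', (hk n).mem_VV] at hx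
    obtain ⟨y, hy, hxy⟩ := (hA n).inv _ hx
    refine ⟨k n y, VV.map _ hy, ?_⟩
    rw [← hx'', ← map_one (k n), ← map_add, ← map_add, ← map_mul, hxy]
  hens d a ha := by
    obtain ⟨n, hn⟩ := cover (d + 1) a
    choose a' ha' using hn
    have ha'' : ∀ i, a' i ∈ VV (A n) := fun i => by
      rw [← (hk n).mem_VV, ha']
      exact ha i
    obtain ⟨r, hr, h0, h1⟩ := (hA n).hens d a' ha''
    have hmap : (sp a').map (k n) = sp a := by
      rw [sp_map]
      congr 1
      funext i
      exact ha' i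
    refine ⟨k n r, ?_, ?_, ?_⟩
    · have := VV.map (k n) hr
      rwa [map_add, map_one] at this
    · rw [← hmap, eval_map, eval₂_hom, h0, map_zero]
    · rw [← hmap, derivative_map, eval_map, eval₂_hom]
      exact (_root_.map_ne_zero (k n)).2 h1

/-- countable good subfields of the complex numbers -/
structure CG where
  K : Subfield ℂ
  cnt : Countable K
  good : Good K

attribute [instance] CG.cnt

/-- relatively algebraically closed inclusion -/
def CG.le (A B : CG) : Prop := ∃ h : A.K ≤ B.K, Rac (Subfield.inclusion h)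

lemma CG.le_refl (A : CG) : A.le A := ⟨le_rfl, fun x _ => ⟨x, rfl⟩⟩

lemma CG.le_trans {A B C : CG} (h1 : A.le B) (h2 : B.le C) : A.le C := by
  obtain ⟨h1, h1'⟩ := h1
  obtain ⟨h2, h2'⟩ := h2
  exact ⟨h1.trans h2, h1'.comp h2'⟩

theorem CG.step (A : CG) (τ : Task A.K) : ∃ B : CG, ∃ h : A.K ≤ B.K,
    Rac (Subfield.inclusion h) ∧ Solved (Subfield.inclusion h) τ := by
  obtain ⟨K, _, _, _, i, hK, hi, hs⟩ := ET.step A.good τ
  obtain ⟨φ, hφ⟩ := embed A.K.subtype i
  let e : K ≃+* φ.fieldRange := RingEquiv.ofBijective φ.rangeRestrictField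
    ⟨φ.rangeRestrictField.injective, φ.rangeRestrict_surjective⟩
  have hle : A.K ≤ φ.fieldRange := by
    intro x hx
    refine ⟨i ⟨x, hx⟩, ?_⟩
    rw [← RingHom.comp_apply, hφ]
    rfl
  have hcnt : Countable φ.fieldRange := e.symm.injective.countable
  have hgood : Good φ.fieldRange :=
    Good.of_rac (j := (e.symm : φ.fieldRange →+* K)) (Rac.of_surjective e.symm.surjective) hK
  have hinc : Subfield.inclusion hle = (e : K →+* φ.fieldRange).comp i := by
    ext x
    change (x : ℂ) = φ (i x)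
    rw [← RingHom.comp_apply, hφ]
    rfl
  refine ⟨⟨φ.fieldRange, hcnt, hgood⟩, hle, ?_, ?_⟩
  · rw [hinc]
    exact hi.comp (Rac.of_surjective e.surjective)
  · rw [hinc]
    exact hs.comp (Rac.of_surjective e.surjective)

section union

variable (A : ℕ → CG) (hA : ∀ n, (A n).le (A (n + 1)))

include hA in
lemma chain_le {n m : ℕ} (h : n ≤ m) : (A n).le (A m) := by
  induction m, h using Nat.le_induction with
  | base => exact CG.le_refl _
  | succ m _ ih => exact CG.le_trans ih (hA m)

/-- union of the chain -/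
noncomputable def chainU : Subfield ℂ := ⨆ n, (A n).K

include hA in
lemma mem_chainU {x : ℂ} : x ∈ chainU A ↔ ∃ n, x ∈ (A n).K := by
  refine Subfield.mem_iSup_of_directed ?_
  exact Monotone.directed_le (fun n m h => (chain_le A hA h).1)

lemma le_chainU (n : ℕ) : (A n).K ≤ chainU A := le_iSup (fun n => (A n).K) n

include hA in
lemma chain_cover (m : ℕ) (f : Fin m → chainU A) :
    ∃ n, ∀ i, ∃ y, Subfield.inclusion (le_chainU A n) y = f i := by
  have h : ∀ i, ∃ n, ((f i : chainU A) : ℂ) ∈ (A n).K := fun i =>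
    (mem_chainU A hA).1 (f i).2
  choose g hg using h
  refine ⟨Finset.univ.sup g, fun i => ?_⟩
  have : g i ≤ Finset.univ.sup g := Finset.le_sup (Finset.mem_univ i)
  exact ⟨⟨_, (chain_le A hA this).1 (hg i)⟩, rfl⟩

include hA in
lemma chain_rac (n : ℕ) : Rac (Subfield.inclusion (le_chainU A n)) := by
  rintro ⟨x, hx⟩ ⟨p, hp, hpx⟩
  obtain ⟨m, hm⟩ := (mem_chainU A hA).1 hx
  obtain ⟨h1, h1'⟩ := chain_le A hA (le_max_left n m)
  obtain ⟨h2, h2'⟩ := chain_le A hA (le_max_right n m)
  obtain ⟨y, hy⟩ := h1' ⟨x, h2 hm⟩ ⟨p, hp, by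
    apply (Subfield.inclusion (le_chainU A (max n m))).injective
    rw [hom_eval₂, map_zero]
    exact hpx⟩
  refine ⟨y, ?_⟩
  apply Subtype.ext
  have := congrArg (fun z : (A (max n m)).K => (z : ℂ)) hy
  exact this

include hA in
lemma chain_good : Good (chainU A) :=
  Good.of_cover (fun n => (A n).K) (fun n => Subfield.inclusion (le_chainU A n))
    (chain_rac A hA) (fun n => (A n).good) (chain_cover A hA)

include hA in
lemma chain_countable : Countable (chainU A) := by
  have h : ((chainU A : Subfield ℂ) : Set ℂ) = ⋃ n, ((A n).K : Set ℂ) := by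
    ext x
    rw [Set.mem_iUnion]
    exact mem_chainU A hA
  have h2 : ((chainU A : Subfield ℂ) : Set ℂ).Countable := by
    rw [h]
    exact Set.countable_iUnion fun n => (Set.countable_coe_iff.1 (A n).cnt)
  exact Set.countable_coe_iff.2 h2

end union

end Pool.Agent.Helper51.ET
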