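import Pool.Agent.Helper51.ET.Topo

/-!
# Definability of the basis
-/

namespace Pool.Agent.Helper51.ET

open FirstOrder

lemma def_poly {ι K : Type} [Field K] [FirstOrder.Ring.CompatibleRing K] (p : MvPolynomial ι K) :
    Set.Definable (Set.univ : Set K) FirstOrder.Language.ring {w : ι → K | MvPolynomial.eval w p = 0} := by
  have h := FirstOrder.Ring.mvPolynomial_zeroLocus_definable (K := K) ({p} : Finset (MvPolynomial ι K))
  have h2 := h.mono (Set.subset_univ _)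
  convert h2 using 1
  ext w
  simp [MvPolynomial.zeroLocus_span, MvPolynomial.aeval_eq_eval]

theorem basis_definable {K : Type} [Field K] [CharZero K] (hno : NoPt K)
    (hpt : ∀ x : K, (∀ r : ℚ, x ≠ r) → ∃ z w : K, w ^ 2 = -fz x z) (S : Set K)
    (hS : S ∈ basisK K) : IsDefinable K S := by
  obtain ⟨t, x, ht, rfl⟩ := hS
  let _ := FirstOrder.Ring.compatibleRingOfRing K
  change Set.Definable₁ (Set.univ : Set K) FirstOrder.Language.ring _
  let Z1 : Set (((Fin 1 ⊕ Fin 1) ⊕ Fin 2) → K) :=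
    {w | w (Sum.inr 1) ^ 2 + fz (w (Sum.inl (Sum.inr 0))) (w (Sum.inr 0)) = 0}
  let Z2 : Set (((Fin 1 ⊕ Fin 1) ⊕ Fin 1) → K) :=
    {w | w (Sum.inr 0) ^ 2 - (1 + w (Sum.inl (Sum.inr 0)) *
      (t⁻¹ * (w (Sum.inl (Sum.inl 0)) - x))) = 0}
  have hZ1 : Set.Definable (Set.univ : Set K) FirstOrder.Language.ring Z1 := by
    have := def_poly (K := K) (ι := ((Fin 1 ⊕ Fin 1) ⊕ Fin 2))
      (MvPolynomial.X (Sum.inr 1) ^ 2 + (MvPolynomial.X (Sum.inr 0) ^ 2 + 1) *
        (MvPolynomial.X (Sum.inr 0) ^ 2 + 4) *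
        (MvPolynomial.X (Sum.inr 0) ^ 2 + (MvPolynomial.X (Sum.inl (Sum.inr 0)) ^ 2 + 3) ^ 2))
    simpa [Z1, fz] using this
  have hZ2 : Set.Definable (Set.univ : Set K) FirstOrder.Language.ring Z2 := by
    have := def_poly (K := K) (ι := ((Fin 1 ⊕ Fin 1) ⊕ Fin 1))
      (MvPolynomial.X (Sum.inr 0) ^ 2 - (1 + MvPolynomial.X (Sum.inl (Sum.inr 0)) *
        (MvPolynomial.C t⁻¹ * (MvPolynomial.X (Sum.inl (Sum.inl 0)) - MvPolynomial.C x))))
    simpa [Z2] using this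
  have h1 := (hZ1.exists_of_finite.union hZ2.exists_of_finite).forall_of_finite
  rw [Set.Definable₁]
  convert h1 using 1
  ext v
  simp only [Set.mem_ofPred_eq, Set.mem_union, Z1, Z2, Sum.elim_inr, Sum.elim_inl]
  constructor
  · intro hv u
    by_cases hu : ∀ r : ℚ, u 0 ≠ r
    · left
      obtain ⟨z, w, hzw⟩ := hpt (u 0) hu
      exact ⟨![z, w], by simp [hzw]⟩
    · right
      push Not at hu
      obtain ⟨r, hr⟩ := hu
      obtain ⟨s, hs⟩ := hv r
      refine ⟨fun _ => s, ?_⟩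
      rw [hs, hr]
      ring
  · intro hv r
    rcases hv (fun _ => (r : K)) with ⟨u, hu⟩ | ⟨u, hu⟩
    · exact absurd (by linear_combination hu) (hno r (u 0) (u 1))
    · exact ⟨u 0, by linear_combination hu⟩

end Pool.Agent.Helper51.ET
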