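import Mathlib

/-!
# The étale-open topology and gt-henselian topologies: definitions used in the statement
-/

namespace Pool.Agent.Helper51.ET

open Polynomial

/-- `U ⊆ K^n` is an E-subset of affine `n`-space: it is the set of `K`-rational points of
affine `n`-space that lift to a `K`-rational point of an affine étale scheme over it. -/
def IsESubset (K : Type) [Field K] (n : ℕ) (U : Set (Fin n → K)) : Prop :=
  ∃ (B : Type) (_ : CommRing B) (_ : Algebra (MvPolynomial (Fin n) K) B),
    Algebra.Etale (MvPolynomial (Fin n) K) B ∧
      U = {a | ∃ ψ : B →+* K,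
        ψ.comp (algebraMap (MvPolynomial (Fin n) K) B) = MvPolynomial.eval a}

/-- The étale-open topology on `K^n`: the topology generated by the E-subsets. -/
abbrev etaleOpen (K : Type) [Field K] (n : ℕ) : TopologicalSpace (Fin n → K) :=
  TopologicalSpace.generateFrom {U | IsESubset K n U}

/-- A field topology: Hausdorff, with continuous addition, multiplication and inversion
(on nonzero elements). -/
structure IsFieldTopology (K : Type) [Field K] (τ : TopologicalSpace K) : Prop where
  t2 : @T2Space K τ
  add : @ContinuousAdd K τ _
  mul : @ContinuousMul K τ _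
  inv : @ContinuousInv₀ K _ _ τ

/-- `τ` is a gt-henselian topology on the field `K`. -/
structure IsGtHenselian (K : Type) [Field K] (τ : TopologicalSpace K) : Prop where
  field : IsFieldTopology K τ
  nondiscrete : ¬ @DiscreteTopology K τ
  root : ∀ U ∈ @nhds K τ (-1), ∀ d : ℕ, ∃ V ∈ @nhds K τ 0, ∀ a : Fin (d + 1) → K,
    (∀ i, a i ∈ V) → ∃ r ∈ U,
      eval r (X ^ (d + 2) + X ^ (d + 1) + ∑ i : Fin (d + 1), C (a i) * X ^ (i : ℕ)) = 0 ∧
      eval r (derivative
        (X ^ (d + 2) + X ^ (d + 1) + ∑ i : Fin (d + 1), C (a i) * X ^ (i : ℕ))) ≠ 0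

/-- `S ⊆ K` is first-order definable in the field `K` (language of rings) with parameters
from `K`. -/
def IsDefinable (K : Type) [Field K] (S : Set K) : Prop :=
  letI := FirstOrder.Ring.compatibleRingOfRing K
  Set.Definable₁ (Set.univ : Set K) FirstOrder.Language.ring S

/-- The étale-open topology is a field topology: some field topology on `K` induces the
étale-open topology on `K^n` for every `n`. -/
def EtaleOpenIsFieldTopology (K : Type) [Field K] : Prop :=
  ∃ τ : TopologicalSpace K, IsFieldTopology K τ ∧
    ∀ n : ℕ, etaleOpen K n = @Pi.topologicalSpace (Fin n) (fun _ => K) (fun _ => τ)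

end Pool.Agent.Helper51.ET
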