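import Pool.Agent.Helper51.ET.Flip

/-!
# Constants and derivations of hyperelliptic function fields
-/

namespace Pool.Agent.Helper51.ET

open Polynomial IntermediateField
open scoped TensorProduct

section der

variable {L F : Type*} [Field L] [CharZero L] [Field F] [Algebra L F]
  [Algebra (RatFunc L) F] [IsScalarTower L (RatFunc L) F] [FiniteDimensional (RatFunc L) F]

/-- existence of derivations with prescribed value at the variable. -/
theorem exists_der (c : F) : ∃ D : Derivation L F F, D (algebraMap (RatFunc L) F RatFunc.X) = c := by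
  let _ : Algebra L[X] F := ((algebraMap (RatFunc L) F).comp (algebraMap L[X] (RatFunc L))).toAlgebra
  have h1 : IsScalarTower L[X] (RatFunc L) F := IsScalarTower.of_algebraMap_eq (fun x => rfl)
  have h2 : IsScalarTower L L[X] F := by
    refine IsScalarTower.of_algebraMap_eq (fun x => ?_)
    rw [IsScalarTower.algebraMap_apply L (RatFunc L) F,
      IsScalarTower.algebraMap_apply L L[X] (RatFunc L)]
    rfl
  have hcz : CharZero (RatFunc L) :=
    charZero_of_injective_algebraMap (algebraMap L (RatFunc L)).injective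
  have h3 : Algebra.FormallyEtale L[X] (RatFunc L) :=
    Algebra.FormallyEtale.of_isLocalization (nonZeroDivisors L[X])
  have h4 : Algebra.FormallyEtale (RatFunc L) F := Algebra.FormallyEtale.of_isSeparable _ _
  have h5 : Algebra.FormallyEtale L[X] F := Algebra.FormallyEtale.comp L[X] (RatFunc L) F
  let d₀ : Derivation L L[X] F := Polynomial.mkDerivation L c
  let l₀ : Ω[L[X]⁄L] →ₗ[L[X]] F := d₀.liftKaehlerDifferential
  let l₁ : F ⊗[L[X]] Ω[L[X]⁄L] →ₗ[F] F := l₀.liftBaseChange F
  let l₂ : Ω[F⁄L] →ₗ[F] F :=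
    l₁.comp (KaehlerDifferential.tensorKaehlerEquivOfFormallyEtale L L[X] F).symm.toLinearMap
  refine ⟨l₂.compDer (KaehlerDifferential.D L F), ?_⟩
  have h6 : algebraMap (RatFunc L) F RatFunc.X = algebraMap L[X] F X := by
    rw [← RatFunc.algebraMap_X]
    rfl
  change l₂ (KaehlerDifferential.D L F (algebraMap (RatFunc L) F RatFunc.X)) = c
  rw [h6]
  change l₁ ((KaehlerDifferential.tensorKaehlerEquivOfFormallyEtale L L[X] F).symm
    (KaehlerDifferential.D L F (algebraMap L[X] F X))) = c
  rw [KaehlerDifferential.tensorKaehlerEquivOfFormallyEtale_symm_D_algebraMap]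
  change l₀.liftBaseChange F _ = c
  rw [LinearMap.liftBaseChange_tmul, one_smul]
  change d₀.liftKaehlerDifferential _ = c
  rw [Derivation.liftKaehlerDifferential_comp_D]
  change Polynomial.mkDerivation L c X = c
  rw [mkDerivation_X]

/-- the kernel of a derivation consists of constants -/
theorem der_ker (hrac : Rac (algebraMap L F)) (D : Derivation L F F)
    (hD : D (algebraMap (RatFunc L) F RatFunc.X) ≠ 0) (u : F) (hu : D u = 0) :
    ∃ a, algebraMap L F a = u := by
  by_contra hne
  have htr : Transcendental L u := by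
    intro h
    obtain ⟨p, hp, hpx⟩ := h
    exact hne (hrac u ⟨p, hp, by rwa [aeval_def] at hpx⟩)
  have : FunctionField L F := ‹FiniteDimensional (RatFunc L) F›
  have hX : IsAlgebraic L⟮u⟯ (algebraMap (RatFunc L) F RatFunc.X) :=
    FunctionField.isAlgebraic_X_over_adjoin_transcendental htr
  have hker : ∀ t ∈ L⟮u⟯, D t = 0 := by
    intro t ht
    induction ht using IntermediateField.adjoin_induction with
    | mem x hx => rw [Set.mem_singleton_iff] at hx; rw [hx, hu]
    | algebraMap x => exact D.map_algebraMap x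
    | add x y _ _ hx hy => rw [map_add, hx, hy, add_zero]
    | inv x _ hx => rw [Derivation.leibniz_inv, hx, smul_zero]
    | mul x y _ _ hx hy => rw [Derivation.leibniz, hx, hy, smul_zero, smul_zero, add_zero]
  let D' : Derivation L⟮u⟯ F F := Derivation.mk'
    { toFun := D
      map_add' := D.map_add
      map_smul' := by
        intro m x
        rw [Algebra.smul_def, Derivation.leibniz, hker (algebraMap L⟮u⟯ F m) m.2, smul_zero,
          add_zero, RingHom.id_apply, Algebra.smul_def]
        rfl }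
    (fun a b => D.leibniz a b)
  set z := algebraMap (RatFunc L) F RatFunc.X
  have hcz : CharZero L⟮u⟯ := charZero_of_injective_algebraMap (algebraMap L L⟮u⟯).injective
  have hint : IsIntegral L⟮u⟯ z := hX.isIntegral
  have h1 : D' (aeval z (minpoly L⟮u⟯ z)) = 0 := by rw [minpoly.aeval, map_zero]
  rw [Derivation.map_aeval, smul_eq_mul, mul_eq_zero] at h1
  rcases h1 with h1 | h1
  · have hsep : (minpoly L⟮u⟯ z).Separable := (minpoly.irreducible hint).separable
    exact hsep.aeval_derivative_ne_zero (minpoly.aeval _ _) h1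
  · exact hD h1

end der

section rac

variable {L F : Type*} [Field L] [CharZero L] [Field F] [CharZero F] [Algebra L F]

omit [CharZero L] in
lemma pr_const {p : L[X]} (h : IsAlgebraic L (pr p)) : ∃ c, p = C c := by
  by_contra hne
  refine RatFunc.transcendental_of_ne_C (pr p) ?_ h
  rintro ⟨c, hc⟩
  refine hne ⟨c, RatFunc.algebraMap_injective (K := L) ?_⟩
  rw [RatFunc.algebraMap_C]
  exact hc

namespace HE

theorem rac (H : HE L F) (hdeg : 0 < H.g.natDegree) : Rac (algebraMap L F) := by
  intro x hx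
  have hx' : IsAlgebraic L x := by
    obtain ⟨p, hp, hpx⟩ := hx
    exact ⟨p, hp, by rwa [aeval_def]⟩
  have hψC : H.ψ.comp C = algebraMap L F := by
    ext a
    rw [RingHom.comp_apply, H.ψ_eq, aeval_C]
  obtain ⟨a, b, hab⟩ : ∃ a b : L[X], x = H.φ (pr a) + H.φ (pr b) * H.y := by
    apply H.int_iff
    obtain ⟨p, hp, hpx⟩ := hx'.isIntegral
    refine ⟨p.map C, hp.map C, ?_⟩
    rw [eval₂_map, hψC]
    exact hpx
  have hσ : H.σ.comp (algebraMap L F) = algebraMap L F := by
    ext a
    rw [RingHom.comp_apply, ← H.φ.commutes, H.σφ]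
  have hσx : IsAlgebraic L (H.σ x) := by
    obtain ⟨p, hp, hpx⟩ := hx'
    refine ⟨p, hp, ?_⟩
    rw [aeval_def] at hpx ⊢
    have := congrArg H.σ hpx
    rwa [hom_eval₂, hσ, map_zero] at this
  have hσx' : H.σ x = H.φ (pr a) - H.φ (pr b) * H.y := by
    rw [hab, map_add, map_mul, H.σφ, H.σφ, H.σy]
    ring
  have h1 : IsAlgebraic L ((x - H.σ x) * (x - H.σ x)) := (hx'.sub hσx).mul (hx'.sub hσx)
  have h2 : (x - H.σ x) * (x - H.σ x) = H.φ (pr (4 * b ^ 2 * H.g)) := by
    have e : H.φ (pr (4 * b ^ 2 * H.g)) = 4 * (H.φ (pr b)) ^ 2 * H.φ (pr H.g) := by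
      have h : H.ψ (4 * b ^ 2 * H.g) = 4 * (H.ψ b) ^ 2 * H.ψ H.g := by
        rw [map_mul, map_mul, map_pow, map_ofNat]
      exact h
    rw [hσx', hab, e, ← H.hy]
    ring
  rw [h2, isAlgebraic_algHom_iff H.φ H.φ.injective] at h1
  obtain ⟨c, hc⟩ := pr_const h1
  have hb : b = 0 := by
    by_contra hb
    have h4 : (4 : L[X]) ≠ 0 := by
      have : (4 : L[X]) = C 4 := (C_ofNat 4).symm
      rw [this]
      exact C_ne_zero.2 (by norm_num)
    have := congrArg natDegree hc
    rw [natDegree_C, natDegree_mul (mul_ne_zero h4 (pow_ne_zero _ hb)) H.sf.ne_zero] at this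
    omega
  rw [hb, pr, pr, map_zero, map_zero, zero_mul, add_zero] at hab
  rw [hab, isAlgebraic_algHom_iff H.φ H.φ.injective] at hx'
  obtain ⟨c', hc'⟩ := pr_const hx'
  refine ⟨c', ?_⟩
  rw [hab, hc', ← hψC]
  rfl

end HE

end rac

end Pool.Agent.Helper51.ET
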