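import Pool.Agent.Helper51.ET.Step

/-!
# Embedding countable extensions into the complex numbers
-/

namespace Pool.Agent.Helper51.ET

open Polynomial Cardinal

theorem embed {L : Type} [Field L] [Countable L] (ι₀ : L →+* ℂ) {K : Type} [Field K] [Countable K]
    (i : L →+* K) : ∃ φ : K →+* ℂ, φ.comp i = ι₀ := by
  let _ : Algebra L K := i.toAlgebra
  let _ : Algebra L ℂ := ι₀.toAlgebra
  have : FaithfulSMul L K := (faithfulSMul_iff_algebraMap_injective L K).2 i.injective
  have : FaithfulSMul L ℂ := (faithfulSMul_iff_algebraMap_injective L ℂ).2 ι₀.injective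
  obtain ⟨s, hs⟩ := exists_isTranscendenceBasis L K
  obtain ⟨s', hs'⟩ := exists_isTranscendenceBasis L ℂ
  have hcard : #ℂ = #s' := IsAlgClosed.cardinal_eq_cardinal_transcendence_basis_of_aleph0_lt' _ hs'
    (Cardinal.mk_le_aleph0_iff.2 inferInstance) (by
      rw [Cardinal.mk_complex]; exact Cardinal.aleph0_lt_continuum)
  have hle : #s ≤ #s' := by
    rw [← hcard, Cardinal.mk_complex]
    exact (Cardinal.mk_le_aleph0_iff.2 inferInstance : #s ≤ ℵ₀).trans Cardinal.aleph0_le_continuum
  obtain ⟨g⟩ := hle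
  have hind : AlgebraicIndependent L (fun x : s => ((g x : s') : ℂ)) := hs'.1.comp g g.injective
  let R := Algebra.adjoin L (Set.range ((↑) : s → K))
  let e : MvPolynomial s L ≃ₐ[L] R := hs.1.aevalEquiv
  let f : R →ₐ[L] ℂ := (MvPolynomial.aeval (fun x : s => ((g x : s') : ℂ))).comp e.symm.toAlgHom
  have hf : Function.Injective f := by
    have h1 : Function.Injective (MvPolynomial.aeval (R := L) (fun x : s => ((g x : s') : ℂ))) := hind
    intro x y hxy
    exact e.symm.injective (h1 hxy)
  let _ : Algebra R ℂ := f.toRingHom.toAlgebra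
  have : FaithfulSMul R ℂ := (faithfulSMul_iff_algebraMap_injective R ℂ).2 hf
  have : Algebra.IsAlgebraic R K := hs.isAlgebraic
  let φ : K →ₐ[R] ℂ := IsAlgClosed.lift
  refine ⟨φ.toRingHom, ?_⟩
  ext l
  have h1 : i l = algebraMap R K (algebraMap L R l) := rfl
  have h2 : algebraMap R ℂ (algebraMap L R l) = ι₀ l := f.commutes l
  change φ (i l) = ι₀ l
  rw [h1, φ.commutes, h2]

end Pool.Agent.Helper51.ET
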