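import Pool.Agent.Helper51.ET.T2
import Pool.Agent.Helper51.ET.Defs

/-!
# Étale-open sets
-/

namespace Pool.Agent.Helper51.ET

open Polynomial
open scoped TensorProduct

variable {K : Type} [Field K]

lemma IsESubset.univ (n : ℕ) : IsESubset K n Set.univ := by
  refine ⟨MvPolynomial (Fin n) K, inferInstance, inferInstance, inferInstance, ?_⟩
  ext a
  simp only [Set.mem_univ, true_iff]
  exact ⟨MvPolynomial.eval a, RingHom.ext fun x => rfl⟩

lemma IsESubset.inter {n : ℕ} {U V : Set (Fin n → K)} (hU : IsESubset K n U)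
    (hV : IsESubset K n V) : IsESubset K n (U ∩ V) := by
  obtain ⟨B, _, _, hB, rfl⟩ := hU
  obtain ⟨C, _, _, hC, rfl⟩ := hV
  refine ⟨B ⊗[MvPolynomial (Fin n) K] C, inferInstance, inferInstance,
    Algebra.Etale.comp (MvPolynomial (Fin n) K) B (B ⊗[MvPolynomial (Fin n) K] C), ?_⟩
  ext a
  constructor
  · rintro ⟨⟨f, hf⟩, ⟨g, hg⟩⟩
    let _ : Algebra (MvPolynomial (Fin n) K) K := (MvPolynomial.eval a).toAlgebra
    let f' : B →ₐ[MvPolynomial (Fin n) K] K := { f with commutes' := fun r => congr($hf r) }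
    let g' : C →ₐ[MvPolynomial (Fin n) K] K := { g with commutes' := fun r => congr($hg r) }
    let h := Algebra.TensorProduct.lift f' g' (fun _ _ => Commute.all _ _)
    exact ⟨h.toRingHom, RingHom.ext fun r => h.commutes r⟩
  · rintro ⟨h, hh⟩
    refine ⟨⟨h.comp (Algebra.TensorProduct.includeLeftRingHom), ?_⟩,
      ⟨h.comp (Algebra.TensorProduct.includeRight (R := MvPolynomial (Fin n) K)
        (A := B) (B := C)).toRingHom, ?_⟩⟩
    · rw [← hh]
      exact RingHom.ext fun r => congrArg h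
        ((Algebra.TensorProduct.includeLeft (R := MvPolynomial (Fin n) K)
          (S := MvPolynomial (Fin n) K) (A := B) (B := C)).commutes r)
    · rw [← hh]
      exact RingHom.ext fun r => congrArg h
        ((Algebra.TensorProduct.includeRight (R := MvPolynomial (Fin n) K)
          (A := B) (B := C)).commutes r)

lemma etaleOpen_basis (n : ℕ) :
    @TopologicalSpace.IsTopologicalBasis _ (etaleOpen K n) {U | IsESubset K n U} := by
  let _ := etaleOpen K n
  refine ⟨?_, ?_, rfl⟩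
  · rintro U hU V hV x hx
    exact ⟨U ∩ V, hU.inter hV, hx, subset_rfl⟩
  · rw [Set.sUnion_eq_univ_iff]
    intro x
    exact ⟨Set.univ, IsESubset.univ n, trivial⟩

/-- the E-subset `1 + xy` is a nonzero square -/
noncomputable def sePair [CharZero K] : StandardEtalePair (MvPolynomial (Fin 2) K) where
  f := X ^ 2 - C (1 + MvPolynomial.X 0 * MvPolynomial.X 1)
  monic_f := monic_X_pow_sub_C _ two_ne_zero
  g := X
  cond := by
    refine ⟨C (MvPolynomial.C 2⁻¹), 0, 1, ?_⟩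
    have h : (C (2 : MvPolynomial (Fin 2) K) * C (MvPolynomial.C 2⁻¹) : (MvPolynomial (Fin 2) K)[X]) = 1 := by
      rw [← C_mul]
      have : (2 : MvPolynomial (Fin 2) K) = MvPolynomial.C 2 := by rw [map_ofNat]
      rw [this, ← MvPolynomial.C_mul, mul_inv_cancel₀ two_ne_zero, MvPolynomial.C_1, C_1]
    rw [derivative_sub, derivative_X_pow, derivative_C, sub_zero]
    simp only [Nat.cast_ofNat, Nat.add_one_sub_one, pow_one, mul_zero, add_zero]
    rw [map_ofNat] at h ⊢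
    linear_combination X * h

lemma exists_O [CharZero K] : ∃ O : Set (Fin 2 → K), IsESubset K 2 O ∧ (0 : Fin 2 → K) ∈ O ∧
    ∀ v ∈ O, ∃ s : K, s ^ 2 = 1 + v 0 * v 1 := by
  refine ⟨{a | ∃ ψ : (sePair (K := K)).Ring →+* K,
    ψ.comp (algebraMap (MvPolynomial (Fin 2) K) (sePair (K := K)).Ring) = MvPolynomial.eval a},
    ⟨(sePair (K := K)).Ring, inferInstance, inferInstance, inferInstance, rfl⟩, ?_, ?_⟩
  · let _ : Algebra (MvPolynomial (Fin 2) K) K := (MvPolynomial.eval (0 : Fin 2 → K)).toAlgebra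
    have hmap : (sePair (K := K)).HasMap (1 : K) := by
      refine ⟨?_, ?_⟩
      · change aeval (1 : K) (X ^ 2 - C (1 + MvPolynomial.X 0 * MvPolynomial.X 1)) = 0
        rw [map_sub, map_pow, aeval_X, aeval_C]
        change (1 : K) ^ 2 - MvPolynomial.eval (0 : Fin 2 → K) _ = 0
        simp
      · change IsUnit (aeval (1 : K) X)
        rw [aeval_X]
        exact isUnit_one
    exact ⟨((sePair (K := K)).lift 1 hmap).toRingHom,
      RingHom.ext fun r => ((sePair (K := K)).lift 1 hmap).commutes r⟩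
  · rintro v ⟨ψ, hψ⟩
    refine ⟨ψ (sePair (K := K)).X, ?_⟩
    have h := (StandardEtalePair.hasMap_X (P := sePair (K := K))).1
    have h2 : aeval (sePair (K := K)).X
      (X ^ 2 - C (1 + MvPolynomial.X 0 * MvPolynomial.X 1) : (MvPolynomial (Fin 2) K)[X]) = 0 := h
    rw [map_sub, map_pow, aeval_X, aeval_C] at h2
    have h3 := congrArg ψ h2
    rw [map_sub, map_pow, map_zero, ← RingHom.comp_apply, hψ] at h3
    simp only [map_add, map_one, map_mul, MvPolynomial.eval_X] at h3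
    linear_combination h3

/-- evaluation of a polynomial over `K[x]` at a point, in two forms -/
lemma eval_conv (a : Fin 1 → K) (t : K) (f : (MvPolynomial (Fin 1) K)[X]) :
    ev (RingHom.id K) (a 0) t
      (f.map (MvPolynomial.eval₂Hom C (fun _ : Fin 1 => (X : K[X])))) =
    eval₂ (MvPolynomial.eval a) t f := by
  have h : (ev (RingHom.id K) (a 0) t).comp
      (mapRingHom (MvPolynomial.eval₂Hom C (fun _ : Fin 1 => (X : K[X])))) =
      eval₂RingHom (MvPolynomial.eval a) t := by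
    refine Polynomial.ringHom_ext' (MvPolynomial.ringHom_ext ?_ ?_) ?_
    · intro x
      simp [ev]
    · intro i
      fin_cases i
      simp [ev]
    · simp [ev]
  exact congrArg (fun g : (MvPolynomial (Fin 1) K)[X] →+* K => g f) h

lemma exists_standard {W : Set (Fin 1 → K)} (hW : IsESubset K 1 W) (h0 : (0 : Fin 1 → K) ∈ W) :
    ∃ (P Q : K[X][X]) (t₀ : K), P.Monic ∧ ev (RingHom.id K) 0 t₀ P = 0 ∧
      ev (RingHom.id K) 0 t₀ (derivative P) ≠ 0 ∧ ev (RingHom.id K) 0 t₀ Q ≠ 0 ∧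
      ∀ a t : K, ev (RingHom.id K) a t P = 0 → ev (RingHom.id K) a t Q ≠ 0 →
        (fun _ => a : Fin 1 → K) ∈ W := by
  obtain ⟨B, _, _, hB, rfl⟩ := hW
  obtain ⟨ψ₀, hψ₀⟩ := h0
  let q : Ideal B := RingHom.ker ψ₀
  have hq : q.IsPrime := RingHom.ker_isPrime ψ₀
  have hfe : Algebra.FormallyEtale (MvPolynomial (Fin 1) K) (Localization.AtPrime q) :=
    inferInstance
  obtain ⟨f, hf, hse⟩ := Algebra.IsEtaleAt.exists_isStandardEtale (R := MvPolynomial (Fin 1) K) q
  obtain ⟨PR⟩ := hse.nonempty_standardEtalePresentation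
  have hf' : IsUnit (ψ₀ f) := isUnit_iff_ne_zero.2 hf
  let ψ₁ : Localization.Away f →+* K := IsLocalization.Away.lift f hf'
  have hψ₁ : ∀ b : B, ψ₁ (algebraMap B (Localization.Away f) b) = ψ₀ b := fun b =>
    IsLocalization.Away.lift_eq f hf' b
  have hψ₁' : ψ₁.comp (algebraMap (MvPolynomial (Fin 1) K) (Localization.Away f)) =
      MvPolynomial.eval 0 := by
    rw [← hψ₀]
    refine RingHom.ext fun r => ?_
    rw [RingHom.comp_apply, IsScalarTower.algebraMap_apply (MvPolynomial (Fin 1) K) B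
      (Localization.Away f), hψ₁]
    rfl
  have hev : ∀ p : (MvPolynomial (Fin 1) K)[X], ψ₁ (aeval PR.x p) =
      eval₂ (MvPolynomial.eval 0) (ψ₁ PR.x) p := by
    intro p
    rw [aeval_def, hom_eval₂, hψ₁']
  let ρ : MvPolynomial (Fin 1) K →+* K[X] := MvPolynomial.eval₂Hom C (fun _ : Fin 1 => (X : K[X]))
  have hz : ∀ p : (MvPolynomial (Fin 1) K)[X], ev (RingHom.id K) 0 (ψ₁ PR.x) (p.map ρ) =
      ψ₁ (aeval PR.x p) := fun p => (eval_conv (0 : Fin 1 → K) (ψ₁ PR.x) p).trans (hev p).symm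
  refine ⟨PR.f.map ρ, PR.g.map ρ, ψ₁ PR.x, PR.monic_f.map _, ?_, ?_, ?_, ?_⟩
  · rw [hz, PR.hasMap.1, map_zero]
  · rw [derivative_map, hz]
    exact (PR.hasMap.isUnit_derivative_f.map ψ₁).ne_zero
  · rw [hz]
    exact (PR.hasMap.2.map ψ₁).ne_zero
  · intro a t h1 h2
    have h1' := eval_conv (fun _ : Fin 1 => a) t PR.f
    have h2' := eval_conv (fun _ : Fin 1 => a) t PR.g
    have h1'' : eval₂ (MvPolynomial.eval fun _ : Fin 1 => a) t PR.f = 0 := h1'.symm.trans h1
    have h2'' : eval₂ (MvPolynomial.eval fun _ : Fin 1 => a) t PR.g ≠ 0 := fun h =>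
      h2 (h2'.trans h)
    let _ : Algebra (MvPolynomial (Fin 1) K) K := (MvPolynomial.eval (fun _ : Fin 1 => a)).toAlgebra
    have hmap : PR.HasMap t := ⟨h1'', isUnit_iff_ne_zero.2 h2''⟩
    let θ : Localization.Away f →ₐ[MvPolynomial (Fin 1) K] K :=
      (PR.lift t hmap).comp PR.equivRing.toAlgHom
    refine ⟨θ.toRingHom.comp (algebraMap B (Localization.Away f)), ?_⟩
    refine RingHom.ext fun r => ?_
    rw [RingHom.comp_apply, RingHom.comp_apply,
      ← IsScalarTower.algebraMap_apply (MvPolynomial (Fin 1) K) B (Localization.Away f)]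
    exact θ.commutes r

/-- the étale-open topology is not a field topology -/
theorem not_field [CharZero K]
    (hK : ∀ (P Q : K[X][X]) (t₀ : K), P.Monic → ev (RingHom.id K) 0 t₀ P = 0 →
      ev (RingHom.id K) 0 t₀ (derivative P) ≠ 0 → ev (RingHom.id K) 0 t₀ Q ≠ 0 →
      ∃ a t a' t' : K, ev (RingHom.id K) a t P = 0 ∧ ev (RingHom.id K) a t Q ≠ 0 ∧
        ev (RingHom.id K) a' t' P = 0 ∧ ev (RingHom.id K) a' t' Q ≠ 0 ∧
        ∀ s : K, s ^ 2 ≠ 1 + a * a') : ¬ EtaleOpenIsFieldTopology K := by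
  rintro ⟨τ, -, hτ⟩
  obtain ⟨O, hO, hO0, hOs⟩ := exists_O (K := K)
  have h1 : @IsOpen _ (etaleOpen K 2) O := TopologicalSpace.isOpen_generateFrom_of_mem hO
  rw [hτ 2] at h1
  have h2 : ∃ U : Set K, @IsOpen K τ U ∧ (0 : K) ∈ U ∧ ∀ x ∈ U, ∀ y ∈ U, ![x, y] ∈ O := by
    let _ := τ
    rw [isOpen_pi_iff'] at h1
    obtain ⟨u, hu, hu'⟩ := h1 0 hO0
    refine ⟨u 0 ∩ u 1, (hu 0).1.inter (hu 1).1, ⟨(hu 0).2, (hu 1).2⟩, ?_⟩
    intro x hx y hy
    apply hu'
    intro i _
    fin_cases i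
    · exact hx.1
    · exact hy.2
  obtain ⟨U, hU, hU0, hUO⟩ := h2
  have h3 : @IsOpen _ (etaleOpen K 1) {v : Fin 1 → K | v 0 ∈ U} := by
    rw [hτ 1]
    let _ := τ
    exact hU.preimage (continuous_apply 0)
  obtain ⟨W, hW, hW0, hWU⟩ := (@TopologicalSpace.IsTopologicalBasis.isOpen_iff _ (etaleOpen K 1) _ _
    (etaleOpen_basis 1)).1 h3 0 hU0
  obtain ⟨P, Q, t₀, g1, g2, g3, g4, g5⟩ := exists_standard hW hW0
  obtain ⟨a, t, a', t', e1, e2, e3, e4, e5⟩ := hK P Q t₀ g1 g2 g3 g4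
  have ha : a ∈ U := hWU (g5 a t e1 e2)
  have ha' : a' ∈ U := hWU (g5 a' t' e3 e4)
  obtain ⟨s, hs⟩ := hOs _ (hUO a ha a' ha')
  exact e5 s (by simpa using hs)

end Pool.Agent.Helper51.ET
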