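import Pool.Agent.Helper51.ET.Build

/-!
# The field and its properties
-/

namespace Pool.Agent.Helper51.ET

open Polynomial

lemma exists_lift_poly {K A : Type} [Field K] [Field A] (k : A →+* K) (P : K[X][X])
    (h : ∀ i j, ∃ y, k y = (P.coeff i).coeff j) : ∃ P' : A[X][X], P'.map (mapRingHom k) = P := by
  have h1 : P ∈ Polynomial.lifts (mapRingHom k) := by
    rw [Polynomial.lifts_iff_coeff_lifts]
    intro i
    have h2 : P.coeff i ∈ Polynomial.lifts k := by
      rw [Polynomial.lifts_iff_coeff_lifts]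
      intro j
      exact h i j
    obtain ⟨q, hq⟩ := (Polynomial.mem_lifts _).1 h2
    exact ⟨q, hq⟩
  exact (Polynomial.mem_lifts _).1 h1

/-- the coefficients of a bivariate polynomial -/
lemma coeffs_finite {K : Type} [Field K] (P : K[X][X]) :
    (Set.range fun ij : ℕ × ℕ => (P.coeff ij.1).coeff ij.2).Finite := by
  classical
  refine Set.Finite.subset (s := ((insert 0 (P.support.biUnion fun i => (P.coeff i).support.image
    fun j => (P.coeff i).coeff j) : Finset K) : Set K)) (Finset.finite_toSet _) ?_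
  rintro _ ⟨⟨i, j⟩, rfl⟩
  by_cases h : (P.coeff i).coeff j = 0
  · simp [h]
  · have hi : P.coeff i ≠ 0 := by
      intro h0
      rw [h0] at h
      exact h (coeff_zero _)
    simp only [Finset.coe_insert, Finset.coe_biUnion, Set.mem_insert_iff, Set.mem_iUnion]
    right
    refine ⟨i, by simpa using hi, ?_⟩
    simp only [Finset.coe_image, Set.mem_image]
    exact ⟨j, by simpa using h, rfl⟩

theorem exists_K : ∃ (K : Type) (_ : Field K) (_ : CharZero K) (_ : Countable K), Good K ∧
    (∀ x : K, (∀ r : ℚ, x ≠ r) → ∃ z w : K, w ^ 2 = -fz x z) ∧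
    (∀ (m : ℕ) (f : Fin m → K), ∃ t : K, t ≠ 0 ∧ ∀ i, t * f i ∈ VV K) ∧
    (∀ (P Q : K[X][X]) (t₀ : K), P.Monic → ev (RingHom.id K) 0 t₀ P = 0 →
      ev (RingHom.id K) 0 t₀ (derivative P) ≠ 0 → ev (RingHom.id K) 0 t₀ Q ≠ 0 →
      ∃ a t a' t' : K, ev (RingHom.id K) a t P = 0 ∧ ev (RingHom.id K) a t Q ≠ 0 ∧
        ev (RingHom.id K) a' t' P = 0 ∧ ev (RingHom.id K) a' t' Q ≠ 0 ∧
        ∀ s : K, s ^ 2 ≠ 1 + a * a') := by
  classical
  obtain ⟨A₀, -⟩ := exists_base
  choose next hle hrac hsol using CG.solveAll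
  let A : ℕ → CG := fun n => Nat.rec A₀ (fun _ B => next B) n
  have hAs : ∀ n, A (n + 1) = next (A n) := fun n => rfl
  have hA : ∀ n, (A n).le (A (n + 1)) := fun n => ⟨hle (A n), hrac (A n)⟩
  let k : ∀ n, (A n).K →+* chainU A := fun n => Subfield.inclusion (le_chainU A n)
  have hk : ∀ n, Rac (k n) := chain_rac A hA
  have hmono : ∀ {n m}, n ≤ m → ∀ y, ∃ y', k m y' = k n y := by
    intro n m h y
    exact ⟨Subfield.inclusion (chain_le A hA h).fst y, rfl⟩
  have hcover := chain_cover A hA
  have hcover' : ∀ S : Set (chainU A), S.Finite → ∃ n, ∀ x ∈ S, ∃ y, k n y = x := by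
    intro S hS
    obtain ⟨n, hn⟩ := hcover _ (fun i => (hS.toFinset.equivFin.symm i : chainU A))
    refine ⟨n, fun x hx => ?_⟩
    obtain ⟨y, hy⟩ := hn (hS.toFinset.equivFin ⟨x, by simpa using hx⟩)
    exact ⟨y, by simpa using hy⟩
  refine ⟨chainU A, inferInstance, inferInstance, chain_countable A hA, chain_good A hA,
    ?_, ?_, ?_⟩
  · intro x hx
    obtain ⟨n, hn⟩ := hcover 1 (fun _ => x)
    obtain ⟨y, hy⟩ := hn 0
    obtain ⟨z, w, hzw⟩ := hsol (A n) (some (Sum.inl y)) (fun r hr => hx r (by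
      rw [← hy, hr, map_ratCast]))
    refine ⟨k (n + 1) z, k (n + 1) w, ?_⟩
    have h1 := congrArg (k (n + 1)) hzw
    rw [map_pow, map_neg, map_fz] at h1
    rw [h1]
    congr 2
  · intro m f
    obtain ⟨n, hn⟩ := hcover m f
    obtain ⟨t, ht, hty⟩ := hsol (A n) none
    refine ⟨k (n + 1) t, (_root_.map_ne_zero _).2 ht, fun i => ?_⟩
    obtain ⟨y, hy⟩ := hn i
    have h1 := VV.map (k (n + 1)) (hty y)
    rw [map_mul] at h1
    have h2 : k (n + 1) (Subfield.inclusion (hle (A n)) y) = f i := by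
      rw [← hy]
      rfl
    rwa [h2] at h1
  · intro P Q t₀ hP h0 h1 hQ
    obtain ⟨n, hn⟩ := hcover' _ (((coeffs_finite P).union (coeffs_finite Q)).union
      (Set.finite_singleton t₀))
    have key : ∀ m, n ≤ m → ∃ a t : chainU A, (∃ y, k (m + 1) y = a) ∧ (∀ y, k m y ≠ a) ∧
        ev (RingHom.id _) a t P = 0 ∧ ev (RingHom.id _) a t Q ≠ 0 ∧
        ∀ S : Finset (chainU A), (∀ x ∈ S, ∃ y, k m y = x) → 0 ∉ S → P.natDegree < 2 ^ S.card →
          ∃ y ∈ S, ∀ s : chainU A, s ^ 2 ≠ 1 + y * a := by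
      intro m hm
      have hn' : ∀ x ∈ ((Set.range fun ij : ℕ × ℕ => (P.coeff ij.1).coeff ij.2) ∪
          (Set.range fun ij : ℕ × ℕ => (Q.coeff ij.1).coeff ij.2)) ∪ {t₀}, ∃ y, k m y = x := by
        intro x hx
        obtain ⟨y, hy⟩ := hn x hx
        obtain ⟨y', hy'⟩ := hmono hm y
        exact ⟨y', hy'.trans hy⟩
      obtain ⟨P', rfl⟩ := exists_lift_poly (k m) P (fun i j => hn' _ (Or.inl (Or.inl ⟨(i, j), rfl⟩)))
      obtain ⟨Q', rfl⟩ := exists_lift_poly (k m) Q (fun i j => hn' _ (Or.inl (Or.inr ⟨(i, j), rfl⟩)))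
      obtain ⟨t₁, rfl⟩ := hn' t₀ (Or.inr rfl)
      have hP' : P'.Monic := by
        refine Polynomial.monic_of_injective (f := mapRingHom (k m)) ?_ hP
        exact Polynomial.map_injective _ (k m).injective
      rw [ev_zero_map, map_eq_zero] at h0
      rw [derivative_map, ev_zero_map, _root_.map_ne_zero] at h1
      rw [ev_zero_map, _root_.map_ne_zero] at hQ
      obtain ⟨a, t, g1, g2, g3, g4⟩ := hsol (A m) (some (Sum.inr (P', t₁))) hP' h0 h1
      have hcomp : (k (m + 1)).comp (Subfield.inclusion (hle (A m))) = k m := rfl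
      have hev : ∀ R : (A m).K[X][X], ev (RingHom.id _) (k (m + 1) a) (k (m + 1) t)
          (R.map (mapRingHom (k m))) = k (m + 1) (ev (Subfield.inclusion (hle (A m))) a t R) := by
        intro R
        rw [ev_map, map_ev, hcomp]
        rfl
      refine ⟨k (m + 1) a, k (m + 1) t, ⟨a, rfl⟩, ?_, ?_, ?_, ?_⟩
      · intro y hy
        exact g1 y ((k (m + 1)).injective hy)
      · rw [hev, g2, map_zero]
      · rw [hev]
        exact (_root_.map_ne_zero _).2 (g3 Q' hQ)
      · intro S hS hS0 hcard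
        choose! g hg using hS
        obtain ⟨y, hy, hy'⟩ := g4 (S.image g) (by
          simp only [Finset.mem_image, not_exists, not_and]
          intro x hx h
          have := hg x hx
          rw [h, map_zero] at this
          exact hS0 (this ▸ hx)) (by
          rw [Finset.card_image_of_injOn, ← hP'.natDegree_map (mapRingHom (k m))]
          · exact hcard
          · intro x hx y hy hxy
            have h2 : g x = g y := hxy
            rw [← hg x hx, ← hg y hy, h2])
        rw [Finset.mem_image] at hy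
        obtain ⟨x, hx, rfl⟩ := hy
        refine ⟨x, hx, fun s hs => ?_⟩
        obtain ⟨s', hs'⟩ := (hk (m + 1)).sq
          (a := 1 + Subfield.inclusion (hle (A m)) (g x) * a) (s := s) (by
            rw [hs, map_add, map_one, map_mul]
            congr 2
            exact (hg x hx).symm)
        exact hy' s' hs'
    choose! a t q1 q2 q3 q4 q5 using key
    obtain ⟨r, hr⟩ : ∃ r : ℕ, P.natDegree < 2 ^ r := ⟨_, Nat.lt_two_pow_self⟩
    have hmem : ∀ l m, n ≤ l → l < m → ∃ y, k m y = a l := by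
      intro l m hl hlm
      obtain ⟨y, hy⟩ := q1 l hl
      obtain ⟨y', hy'⟩ := hmono (Nat.succ_le_of_lt hlm) y
      exact ⟨y', hy'.trans hy⟩
    have hne : ∀ l m, n ≤ l → l < m → a l ≠ a m := by
      intro l m hl hlm h
      obtain ⟨y, hy⟩ := hmem l m hl hlm
      exact q2 m (hl.trans hlm.le) y (hy.trans h)
    have hinj : Function.Injective (fun i : Fin r => a (n + i)) := by
      intro i j hij
      by_contra hne'
      have hij' : (i : ℕ) ≠ j := fun h => hne' (Fin.ext h)
      rcases lt_or_gt_of_ne hij' with h | h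
      · exact hne (n + i) (n + j) (by omega) (by omega) hij
      · exact hne (n + j) (n + i) (by omega) (by omega) hij.symm
    obtain ⟨y, hy, hy'⟩ := q5 (n + r) (by omega)
      (Finset.univ.image (fun i : Fin r => a (n + i))) (by
        intro x hx
        rw [Finset.mem_image] at hx
        obtain ⟨i, -, rfl⟩ := hx
        exact hmem _ _ (by omega) (by have := i.2; omega)) (by
        intro h
        rw [Finset.mem_image] at h
        obtain ⟨i, -, hi⟩ := h
        exact q2 (n + i) (by omega) 0 (by rw [map_zero]; exact hi.symm)) (by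
        rw [Finset.card_image_of_injective _ hinj]
        simpa using hr)
    rw [Finset.mem_image] at hy
    obtain ⟨i, -, rfl⟩ := hy
    exact ⟨a (n + i), t (n + i), a (n + r), t (n + r), q3 _ (by omega), q4 _ (by omega),
      q3 _ (by omega), q4 _ (by omega), hy'⟩

end Pool.Agent.Helper51.ET
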