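import Pool.Agent.Helper51.ET.Basic

/-!
# Laurent series fields over good fields
-/

namespace Pool.Agent.Helper51.ET

open Polynomial
open scoped LaurentSeries PowerSeries

section basic

variable {F : Type*} [Field F]

/-- constants -/
noncomputable def cc (F : Type*) [Field F] : F →+* F⸨X⸩ :=
  (algebraMap F⟦X⟧ F⸨X⸩).comp (PowerSeries.C)

lemma im_injective : Function.Injective (algebraMap F⟦X⟧ F⸨X⸩) :=
  IsFractionRing.injective F⟦X⟧ F⸨X⸩

lemma dich (x : F⸨X⸩) : (∃ p : F⟦X⟧, algebraMap F⟦X⟧ F⸨X⸩ p = x) ∨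
    (∃ p : F⟦X⟧, PowerSeries.constantCoeff p = 0 ∧ x * algebraMap F⟦X⟧ F⸨X⸩ p = 1) := by
  by_cases hx : x = 0
  · exact Or.inl ⟨0, by simp [hx]⟩
  rcases ValuationRing.isInteger_or_isInteger F⟦X⟧ x with ⟨p, hp⟩ | ⟨p, hp⟩
  · exact Or.inl ⟨p, hp⟩
  · have h1 : x * algebraMap F⟦X⟧ F⸨X⸩ p = 1 := by rw [hp]; exact mul_inv_cancel₀ hx
    by_cases h0 : PowerSeries.constantCoeff p = 0
    · exact Or.inr ⟨p, h0, h1⟩
    · have hu : IsUnit p := PowerSeries.isUnit_iff_constantCoeff.2 (isUnit_iff_ne_zero.2 h0)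
      obtain ⟨q, hq⟩ := hu.exists_right_inv
      refine Or.inl ⟨q, ?_⟩
      have h2 : algebraMap F⟦X⟧ F⸨X⸩ p * algebraMap F⟦X⟧ F⸨X⸩ q = 1 := by
        rw [← map_mul, hq, map_one]
      calc algebraMap F⟦X⟧ F⸨X⸩ q = (x * algebraMap F⟦X⟧ F⸨X⸩ p) * algebraMap F⟦X⟧ F⸨X⸩ q := by
            rw [h1, one_mul]
        _ = x * (algebraMap F⟦X⟧ F⸨X⸩ p * algebraMap F⟦X⟧ F⸨X⸩ q) := by ring
        _ = x := by rw [h2, mul_one]

lemma int_closed {x : F⸨X⸩} {P : (F⟦X⟧)[X]} (hP : P.Monic)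
    (h : P.eval₂ (algebraMap F⟦X⟧ F⸨X⸩) x = 0) : ∃ p : F⟦X⟧, algebraMap F⟦X⟧ F⸨X⸩ p = x :=
  IsIntegrallyClosed.isIntegral_iff.1 ⟨P, hP, h⟩

lemma sq_closed {x : F⸨X⸩} {p : F⟦X⟧} (h : x ^ 2 = algebraMap F⟦X⟧ F⸨X⸩ p) :
    ∃ q : F⟦X⟧, algebraMap F⟦X⟧ F⸨X⸩ q = x ∧ q ^ 2 = p := by
  obtain ⟨q, hq⟩ := int_closed (x := x) (P := X ^ 2 - C p) (monic_X_pow_sub_C p two_ne_zero)
    (by simp [h])
  refine ⟨q, hq, im_injective ?_⟩
  rw [map_pow, hq, h]

lemma rac_cc : Rac (cc F) := by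
  rintro x ⟨p, hp, hx⟩
  -- x is integral
  have hint : ∃ y : F⟦X⟧, algebraMap F⟦X⟧ F⸨X⸩ y = x := by
    have hlead : p.leadingCoeff ≠ 0 := leadingCoeff_ne_zero.2 hp
    refine int_closed (P := (p * C p.leadingCoeff⁻¹).map PowerSeries.C)
      ((monic_mul_leadingCoeff_inv hp).map _) ?_
    rw [eval₂_map]
    change (p * C p.leadingCoeff⁻¹).eval₂ (cc F) x = 0
    rw [eval₂_mul, hx, zero_mul]
  obtain ⟨y, rfl⟩ := hint
  have hy : p.eval₂ (PowerSeries.C) y = 0 := by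
    apply im_injective
    rw [hom_eval₂, map_zero]
    exact hx
  set a := PowerSeries.constantCoeff y with ha
  obtain ⟨q, hq, hdvd⟩ := exists_eq_pow_rootMultiplicity_mul_and_not_dvd p hp a
  have hqa : q.eval a ≠ 0 := by
    intro h0
    exact hdvd (dvd_iff_isRoot.2 h0)
  have hqy : q.eval₂ (PowerSeries.C) y ≠ 0 := by
    intro h0
    have := congrArg PowerSeries.constantCoeff h0
    rw [hom_eval₂, map_zero] at this
    have hid : (PowerSeries.constantCoeff (R := F)).comp PowerSeries.C = RingHom.id F := by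
      ext; simp
    rw [hid, eval₂_id] at this
    exact hqa this
  rw [hq, eval₂_mul, mul_eq_zero] at hy
  rcases hy with hy | hy
  · rw [eval₂_pow] at hy
    have h1 : eval₂ PowerSeries.C y (X - C a) = 0 := by
      by_contra hne
      exact (pow_ne_zero _ hne) hy
    rw [eval₂_sub, eval₂_X, eval₂_C, sub_eq_zero] at h1
    exact ⟨a, by rw [h1]; rfl⟩
  · exact absurd hy hqy

lemma hensel {P : (F⟦X⟧)[X]} (hP : P.Monic) {r₀ : F}
    (h0 : (P.map PowerSeries.constantCoeff).eval r₀ = 0)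
    (h1 : (derivative (P.map PowerSeries.constantCoeff)).eval r₀ ≠ 0) :
    ∃ r : F⟦X⟧, P.eval r = 0 ∧ PowerSeries.constantCoeff r = r₀ := by
  have hcc : ∀ Q : (F⟦X⟧)[X], PowerSeries.constantCoeff (Q.eval (PowerSeries.C r₀)) =
      (Q.map PowerSeries.constantCoeff).eval r₀ := by
    intro Q
    rw [eval_map, ← eval₂_id, hom_eval₂]
    simp
  have hmem : ∀ f : F⟦X⟧, f ∈ Ideal.span {(PowerSeries.X : F⟦X⟧)} ↔
      PowerSeries.constantCoeff f = 0 := by
    intro f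
    rw [Ideal.mem_span_singleton, PowerSeries.X_dvd_iff]
  obtain ⟨a, ha, ha'⟩ := HenselianRing.is_henselian
    (I := Ideal.span {(PowerSeries.X : F⟦X⟧)}) P hP (PowerSeries.C r₀)
    (by rw [hmem, hcc, h0]) (by
      refine IsUnit.map _ ?_
      rw [PowerSeries.isUnit_iff_constantCoeff, hcc, isUnit_iff_ne_zero, ← derivative_map]
      exact h1)
  refine ⟨a, ha, ?_⟩
  rw [hmem, map_sub, sub_eq_zero] at ha'
  simpa using ha'

end basic

section good

variable {F : Type*} [Field F] [CharZero F]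

omit [CharZero F] in
lemma im_C (a : F) : algebraMap F⟦X⟧ F⸨X⸩ (PowerSeries.C a) = cc F a := rfl

lemma im_ratCast (c : ℚ) : algebraMap F⟦X⟧ F⸨X⸩ (PowerSeries.C (c : F)) = (c : F⸨X⸩) := by
  have : CharZero F⸨X⸩ := charZero_of_injective_ringHom (cc F).injective
  rw [im_C, map_ratCast]

instance : CharZero F⸨X⸩ := charZero_of_injective_ringHom (cc F).injective

lemma NoPt.laurent (h : NoPt F) : NoPt F⸨X⸩ := by
  intro c z w hw
  rcases dich z with ⟨p, rfl⟩ | ⟨p, hp0, hp1⟩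
  · have hw' : w ^ 2 = algebraMap F⟦X⟧ F⸨X⸩
        (-((p ^ 2 + 1) * (p ^ 2 + 4) * (p ^ 2 + (PowerSeries.C (c : F) ^ 2 + 3) ^ 2))) := by
      rw [hw, fz]
      simp only [map_neg, map_mul, map_add, map_pow, map_one, map_ofNat, im_ratCast]
    obtain ⟨q, -, hq⟩ := sq_closed hw'
    have := congrArg PowerSeries.constantCoeff hq
    refine h c (PowerSeries.constantCoeff p) (PowerSeries.constantCoeff q) ?_
    simpa [fz, map_ofNat] using this
  · have hw' : (w * algebraMap F⟦X⟧ F⸨X⸩ p ^ 3) ^ 2 = algebraMap F⟦X⟧ F⸨X⸩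
        (-((1 + p ^ 2) * (1 + 4 * p ^ 2) * (1 + (PowerSeries.C (c : F) ^ 2 + 3) ^ 2 * p ^ 2))) := by
      rw [mul_pow, hw, fz]
      simp only [map_neg, map_mul, map_add, map_pow, map_one, map_ofNat, im_ratCast]
      set u := algebraMap F⟦X⟧ F⸨X⸩ p
      have e1 : (z ^ 2 + 1) * u ^ 2 = 1 + u ^ 2 := by linear_combination (z * u + 1) * hp1
      have e2 : (z ^ 2 + 4) * u ^ 2 = 1 + 4 * u ^ 2 := by linear_combination (z * u + 1) * hp1
      have e3 : (z ^ 2 + ((c : F⸨X⸩) ^ 2 + 3) ^ 2) * u ^ 2 = 1 + ((c : F⸨X⸩) ^ 2 + 3) ^ 2 * u ^ 2 := by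
        linear_combination (z * u + 1) * hp1
      rw [← e1, ← e2, ← e3]
      ring
    obtain ⟨q, -, hq⟩ := sq_closed hw'
    have := congrArg PowerSeries.constantCoeff hq
    refine h.neg_one (PowerSeries.constantCoeff q) ?_
    simpa [hp0] using this

lemma mem_VV_laurent (h : NoPt F) (x : F⸨X⸩) : x ∈ VV F⸨X⸩ ↔
    ∃ p : F⟦X⟧, algebraMap F⟦X⟧ F⸨X⸩ p = x ∧ PowerSeries.constantCoeff p ∈ VV F := by
  constructor
  · intro hx
    rcases dich x with ⟨p, rfl⟩ | ⟨p, hp0, hp1⟩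
    · refine ⟨p, rfl, fun c => ?_⟩
      obtain ⟨s, hs⟩ := hx c
      have hs' : s ^ 2 = algebraMap F⟦X⟧ F⸨X⸩ (1 + PowerSeries.C (c : F) * p) := by
        rw [hs, map_add, map_one, map_mul, im_ratCast]
      obtain ⟨q, -, hq⟩ := sq_closed hs'
      have := congrArg PowerSeries.constantCoeff hq
      exact ⟨PowerSeries.constantCoeff q, by simpa using this⟩
    · exfalso
      obtain ⟨s, hs⟩ := hx 1
      obtain ⟨t, ht⟩ := hx (-1)
      have hst : (s * t * algebraMap F⟦X⟧ F⸨X⸩ p) ^ 2 = algebraMap F⟦X⟧ F⸨X⸩ (p ^ 2 - 1) := by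
        rw [mul_pow, mul_pow, hs, ht, map_sub, map_pow, map_one]
        push_cast
        set u := algebraMap F⟦X⟧ F⸨X⸩ p
        linear_combination (-(x * u + 1)) * hp1
      obtain ⟨q, -, hq⟩ := sq_closed hst
      have := congrArg PowerSeries.constantCoeff hq
      refine h.neg_one (PowerSeries.constantCoeff q) ?_
      simpa [hp0] using this
  · rintro ⟨p, rfl, hp⟩ c
    obtain ⟨s₀, hs₀⟩ := hp c
    have hne : s₀ ≠ 0 := by
      rintro rfl
      obtain ⟨t, ht⟩ := hp (2 * c)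
      refine h.neg_one t ?_
      rw [ht]
      push_cast
      linear_combination (-2 : F) * hs₀
    obtain ⟨r, hr, -⟩ := hensel (F := F) (P := X ^ 2 - C (1 + PowerSeries.C (c : F) * p))
      (monic_X_pow_sub_C _ two_ne_zero) (r₀ := s₀) (by simp [hs₀]) (by simp [hne])
    refine ⟨algebraMap F⟦X⟧ F⸨X⸩ r, ?_⟩
    have hr' : r ^ 2 = 1 + PowerSeries.C (c : F) * p := by
      simpa [sub_eq_zero] using hr
    rw [← map_pow, hr', map_add, map_one, map_mul, im_ratCast]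

/-- Admissible extensions. -/
structure Adm {L F : Type*} [Field L] [Field F] (j : L →+* F) : Prop where
  rac : Rac j
  nopt : NoPt F
  vv : ∀ x ∈ VV F, ∃ a, j a = x

lemma Good.laurent {L : Type*} [Field L] [CharZero L] (hL : Good L) {j : L →+* F} (hj : Adm j) :
    Good F⸨X⸩ where
  rat := by
    have h1 := (hL.rat.comp hj.rac).comp (rac_cc (F := F))
    have : ((cc F).comp (j.comp (Rat.castHom L))) = Rat.castHom F⸨X⸩ := by
      ext
      simp
    rwa [this] at h1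
  nopt := hj.nopt.laurent
  add x hx y hy := by
    rw [mem_VV_laurent hj.nopt] at hx hy ⊢
    obtain ⟨p, rfl, hp⟩ := hx
    obtain ⟨q, rfl, hq⟩ := hy
    refine ⟨p + q, map_add _ _ _, ?_⟩
    obtain ⟨a, ha⟩ := hj.vv _ hp
    obtain ⟨b, hb⟩ := hj.vv _ hq
    rw [map_add, ← ha, ← hb, ← map_add, hj.rac.mem_VV]
    rw [← ha, hj.rac.mem_VV] at hp
    rw [← hb, hj.rac.mem_VV] at hq
    exact hL.add _ hp _ hq
  mul x hx y hy := by
    rw [mem_VV_laurent hj.nopt] at hx hy ⊢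
    obtain ⟨p, rfl, hp⟩ := hx
    obtain ⟨q, rfl, hq⟩ := hy
    refine ⟨p * q, map_mul _ _ _, ?_⟩
    obtain ⟨a, ha⟩ := hj.vv _ hp
    obtain ⟨b, hb⟩ := hj.vv _ hq
    rw [map_mul, ← ha, ← hb, ← map_mul, hj.rac.mem_VV]
    rw [← ha, hj.rac.mem_VV] at hp
    rw [← hb, hj.rac.mem_VV] at hq
    exact hL.mul _ hp _ hq
  inv x hx := by
    rw [mem_VV_laurent hj.nopt] at hx
    obtain ⟨p, rfl, hp⟩ := hx
    obtain ⟨a, ha⟩ := hj.vv _ hp
    rw [← ha, hj.rac.mem_VV] at hp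
    obtain ⟨b, hb, hab⟩ := hL.inv _ hp
    have hab' : (1 + PowerSeries.constantCoeff p) * (1 + j b) = 1 := by
      rw [← ha]
      have := congrArg j hab
      simpa using this
    have hu : IsUnit (1 + p) := by
      rw [PowerSeries.isUnit_iff_constantCoeff, map_add, map_one]
      exact IsUnit.of_mul_eq_one _ hab'
    obtain ⟨u, hu⟩ := hu.exists_right_inv
    have hu0 : PowerSeries.constantCoeff u = 1 + j b := by
      have h1 := congrArg PowerSeries.constantCoeff hu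
      rw [map_mul, map_add, map_one] at h1
      have hne : 1 + PowerSeries.constantCoeff p ≠ 0 := left_ne_zero_of_mul_eq_one hab'
      exact mul_left_cancel₀ hne (h1.trans hab'.symm)
    refine ⟨algebraMap F⟦X⟧ F⸨X⸩ (u - 1), ?_, ?_⟩
    · rw [mem_VV_laurent hj.nopt]
      refine ⟨u - 1, rfl, ?_⟩
      rw [map_sub, hu0, map_one, add_sub_cancel_left, hj.rac.mem_VV]
      exact hb
    · have : (1 + algebraMap F⟦X⟧ F⸨X⸩ p) * (1 + algebraMap F⟦X⟧ F⸨X⸩ (u - 1)) =
          algebraMap F⟦X⟧ F⸨X⸩ ((1 + p) * u) := by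
        simp only [map_mul, map_add, map_one, map_sub]
        ring
      rw [this, hu, map_one]
  hens d a ha := by
    have ha' : ∀ i, ∃ p : F⟦X⟧, algebraMap F⟦X⟧ F⸨X⸩ p = a i ∧
        ∃ b ∈ VV L, j b = PowerSeries.constantCoeff p := by
      intro i
      have := ha i
      rw [mem_VV_laurent hj.nopt] at this
      obtain ⟨p, hp, hp'⟩ := this
      obtain ⟨b, hb⟩ := hj.vv _ hp'
      refine ⟨p, hp, b, ?_, hb⟩
      rw [← hb, hj.rac.mem_VV] at hp'
      exact hp'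
    choose p hp b hb hbp using ha'
    obtain ⟨r₀, hr₀, h0, h1⟩ := hL.hens d b hb
    have hmap : (sp p).map (PowerSeries.constantCoeff (R := F)) = (sp b).map j := by
      rw [sp_map, sp_map]
      congr 1
      funext i
      exact (hbp i).symm
    obtain ⟨r, hr, hrr⟩ := hensel (P := sp p) (sp_monic p) (r₀ := j r₀)
      (by rw [hmap, eval_map, eval₂_hom, h0, map_zero])
      (by
        rw [hmap, derivative_map, eval_map, eval₂_hom]
        exact (map_ne_zero j).2 h1)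
    have hsp : (sp p).map (algebraMap F⟦X⟧ F⸨X⸩) = sp a := by
      rw [sp_map]
      congr 1
      funext i
      exact hp i
    refine ⟨algebraMap F⟦X⟧ F⸨X⸩ r, ?_, ?_, ?_⟩
    · rw [mem_VV_laurent hj.nopt]
      refine ⟨r + 1, by simp, ?_⟩
      rw [map_add, map_one, hrr]
      have : j r₀ + 1 = j (r₀ + 1) := by simp
      rw [this, hj.rac.mem_VV]
      exact hr₀
    · rw [← hsp, eval_map, eval₂_hom, hr, map_zero]
    · rw [← hsp, derivative_map, eval_map, eval₂_hom]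
      intro h
      have h' : eval r (derivative (sp p)) = 0 := im_injective (by rw [h, map_zero])
      have h2 := congrArg (PowerSeries.constantCoeff (R := F)) h'
      rw [map_zero, ← eval₂_hom, ← eval_map, ← derivative_map, hmap, hrr, derivative_map,
        eval_map, eval₂_hom] at h2
      exact h1 ((map_eq_zero j).1 h2)

/-- multiplication by the variable sends constants into `VV`. -/
lemma X_mul_mem_VV (h : NoPt F) (a : F) :
    algebraMap F⟦X⟧ F⸨X⸩ PowerSeries.X * cc F a ∈ VV F⸨X⸩ := by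
  rw [mem_VV_laurent h]
  refine ⟨PowerSeries.X * PowerSeries.C a, by rw [map_mul]; rfl, ?_⟩
  simpa using VV.zero_mem F

end good

end Pool.Agent.Helper51.ET
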