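import Pool.Agent.Helper51.ET.Flip
import Pool.Agent.Helper51.ET.Laurent

/-!
# Adjoining a generic point of one curve adds no point to the others
-/

namespace Pool.Agent.Helper51.ET

open Polynomial

section rev

variable {L : Type*} [Field L]

/-- the reversed sextic -/
noncomputable def hr (e : L) : L[X] := -((1 + X ^ 2) * (1 + 4 * X ^ 2) * (1 + C e ^ 2 * X ^ 2))

lemma hr_separable [CharZero L] (e : L) (he0 : e ≠ 0) (he1 : e ^ 2 ≠ 1) (he4 : e ^ 2 ≠ 4) :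
    (hr e).Separable := by
  have h14 : (1 : L) ≠ 4⁻¹ := by norm_num
  have h0 : (4 : L)⁻¹ ≠ 0 := by norm_num
  have h00 : (4 : L) ≠ 0 := by norm_num
  have hE0 : (e ^ 2)⁻¹ ≠ 0 := inv_ne_zero (pow_ne_zero _ he0)
  have h := (((sep_aux (1 : L) one_ne_zero).mul (sep_aux (4 : L)⁻¹ h0) (cop_aux 1 _ h14)).mul
    (sep_aux (e ^ 2)⁻¹ hE0)
    (IsCoprime.mul_left (cop_aux 1 _ (by
        intro h
        apply he1
        rw [← inv_inv (e ^ 2), ← h, inv_one]))
      (cop_aux (4⁻¹) _ (by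
        intro h
        apply he4
        rw [← inv_inv (e ^ 2), ← h, inv_inv]))))
  have hu : IsUnit (C (-(4 * e ^ 2)) : L[X]) :=
    isUnit_C.2 (isUnit_iff_ne_zero.2 (neg_ne_zero.2 (mul_ne_zero h00 (pow_ne_zero _ he0))))
  have he : hr e = C (-(4 * e ^ 2)) *
      ((X ^ 2 + C 1) * (X ^ 2 + C 4⁻¹) * (X ^ 2 + C (e ^ 2)⁻¹)) := by
    have e4 : (4 : L[X]) = C 4 := (C_ofNat 4).symm
    have hE : (C e ^ 2 : L[X]) = C (e ^ 2) := (C_pow).symm
    have a1 : (C 4 * C 4⁻¹ : L[X]) = 1 := by rw [← C_mul, mul_inv_cancel₀ h00, C_1]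
    have a2 : (C (e ^ 2) * C (e ^ 2)⁻¹ : L[X]) = 1 := by
      rw [← C_mul, mul_inv_cancel₀ (pow_ne_zero _ he0), C_1]
    rw [hr, e4, hE, C_neg, C_mul, C_1]
    have b1 : (1 + C 4 * X ^ 2 : L[X]) = C 4 * (X ^ 2 + C 4⁻¹) := by
      rw [mul_add, a1]; ring
    have b2 : (1 + C (e ^ 2) * X ^ 2 : L[X]) = C (e ^ 2) * (X ^ 2 + C (e ^ 2)⁻¹) := by
      rw [mul_add, a2]; ring
    rw [b1, b2]
    ring
  rw [he]
  rw [Polynomial.Separable, derivative_mul, derivative_C, zero_mul, zero_add]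
  exact (isCoprime_mul_unit_left hu _ _).2 h

lemma tau_hr (e : L) : tau L (pr (hr e)) = pr (hh e) * (RatFunc.X⁻¹) ^ 6 := by
  have hX : (RatFunc.X : RatFunc L) ≠ 0 := RatFunc.X_ne_zero
  rw [tau_pr, hr, hh, pr]
  simp only [map_neg, map_mul, map_add, map_one, map_pow, aeval_X, map_ofNat, aeval_C,
    RatFunc.algebraMap_X, RatFunc.algebraMap_C, RatFunc.algebraMap_eq_C]
  field_simp

end rev

section alg

lemma branch {κ : Type*} [Field κ] (N a M h R : κ[X]) (hsep : h.Separable) (ζ : κ)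
    (hζ : h.eval ζ = 0) (hM : M ≠ 0) (hNa : N * a ^ 3 ≠ 0)
    (eq : (N * a ^ 3) ^ 2 * h = M ^ 2 * R) : R.eval ζ = 0 := by
  by_contra hne
  have hR : R ≠ 0 := by rintro rfl; simp at hne
  have hh0 : h ≠ 0 := hsep.ne_zero
  have h1 : rootMultiplicity ζ h = 1 := by
    have := rootMultiplicity_le_one_of_separable hsep ζ
    have h2 : 0 < rootMultiplicity ζ h := (rootMultiplicity_pos hh0).2 hζ
    omega
  have key := congrArg (rootMultiplicity ζ) eq
  rw [pow_two (N * a ^ 3), pow_two M, rootMultiplicity_mul (mul_ne_zero (mul_ne_zero hNa hNa) hh0),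
    rootMultiplicity_mul (mul_ne_zero hNa hNa),
    rootMultiplicity_mul (mul_ne_zero (mul_ne_zero hM hM) hR),
    rootMultiplicity_mul (mul_ne_zero hM hM), h1,
    rootMultiplicity_eq_zero (p := R) (by simpa [IsRoot] using hne)] at key
  omega

lemma cross_aux {κ : Type*} [Field κ] {A0 A1 B0 B1 r s r' s' : κ}
    (h : B0 + B1 * s = r * (A0 + A1 * s)) (h' : B0 + B1 * s' = r' * (A0 + A1 * s')) :
    (A0 + A1 * s) * (A0 + A1 * s') * (r - r') = (B1 * A0 - B0 * A1) * (s - s') := by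
  linear_combination (-(A0 + A1 * s')) * h + (A0 + A1 * s) * h'

lemma cross_ne {κ : Type*} [Field κ] {A0 A1 B0 B1 r s : κ}
    (h : B0 + B1 * s = r * (A0 + A1 * s)) (hΔ : B1 * A0 - B0 * A1 ≠ 0) : A0 + A1 * s ≠ 0 := by
  intro h0
  apply hΔ
  rw [h0, mul_zero] at h
  linear_combination B1 * h0 - A1 * h

lemma cross {κ : Type*} [Field κ] {A0 A1 B0 B1 r1 r2 r3 r4 s1 s2 s3 s4 : κ}
    (h1 : B0 + B1 * s1 = r1 * (A0 + A1 * s1)) (h2 : B0 + B1 * s2 = r2 * (A0 + A1 * s2))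
    (h3 : B0 + B1 * s3 = r3 * (A0 + A1 * s3)) (h4 : B0 + B1 * s4 = r4 * (A0 + A1 * s4))
    (hΔ : B1 * A0 - B0 * A1 ≠ 0) :
    (r1 - r3) * (r2 - r4) * ((s1 - s4) * (s2 - s3)) =
      (r1 - r4) * (r2 - r3) * ((s1 - s3) * (s2 - s4)) := by
  have n1 := cross_ne h1 hΔ
  have n2 := cross_ne h2 hΔ
  have n3 := cross_ne h3 hΔ
  have n4 := cross_ne h4 hΔ
  have e13 := cross_aux h1 h3
  have e24 := cross_aux h2 h4
  have e14 := cross_aux h1 h4
  have e23 := cross_aux h2 h3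
  have hn : (A0 + A1 * s1) * (A0 + A1 * s2) * (A0 + A1 * s3) * (A0 + A1 * s4) ≠ 0 :=
    mul_ne_zero (mul_ne_zero (mul_ne_zero n1 n2) n3) n4
  apply mul_left_cancel₀ hn
  set a1 := A0 + A1 * s1
  set a2 := A0 + A1 * s2
  set a3 := A0 + A1 * s3
  set a4 := A0 + A1 * s4
  set Δ := B1 * A0 - B0 * A1
  have p1 : a1 * a2 * a3 * a4 * ((r1 - r3) * (r2 - r4)) = Δ ^ 2 * ((s1 - s3) * (s2 - s4)) := by
    calc a1 * a2 * a3 * a4 * ((r1 - r3) * (r2 - r4)) = (a1 * a3 * (r1 - r3)) * (a2 * a4 * (r2 - r4)) := by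
          ring
      _ = _ := by rw [e13, e24]; ring
  have p2 : a1 * a2 * a3 * a4 * ((r1 - r4) * (r2 - r3)) = Δ ^ 2 * ((s1 - s4) * (s2 - s3)) := by
    calc a1 * a2 * a3 * a4 * ((r1 - r4) * (r2 - r3)) = (a1 * a4 * (r1 - r4)) * (a2 * a3 * (r2 - r3)) := by
          ring
      _ = _ := by rw [e14, e23]; ring
  calc a1 * a2 * a3 * a4 * ((r1 - r3) * (r2 - r4) * ((s1 - s4) * (s2 - s3)))
      = (a1 * a2 * a3 * a4 * ((r1 - r3) * (r2 - r4))) * ((s1 - s4) * (s2 - s3)) := by ring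
    _ = Δ ^ 2 * ((s1 - s3) * (s2 - s4)) * ((s1 - s4) * (s2 - s3)) := by rw [p1]
    _ = (a1 * a2 * a3 * a4 * ((r1 - r4) * (r2 - r3))) * ((s1 - s3) * (s2 - s4)) := by rw [p2]; ring
    _ = _ := by ring

/-- with rational values at `1, -1, 2, e`, the number `e` is rational. -/
lemma cross_rat {κ : Type*} [Field κ] [CharZero κ] {A0 A1 B0 B1 e : κ} {r1 r2 r3 r4 : ℚ}
    (h1 : B0 + B1 * 1 = r1 * (A0 + A1 * 1)) (h2 : B0 + B1 * (-1) = r2 * (A0 + A1 * (-1)))
    (h3 : B0 + B1 * 2 = r3 * (A0 + A1 * 2)) (h4 : B0 + B1 * e = r4 * (A0 + A1 * e))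
    (hΔ : B1 * A0 - B0 * A1 ≠ 0) : ∃ r : ℚ, e = r := by
  by_contra hne
  push Not at hne
  have hc := cross h1 h2 h3 h4 hΔ
  have e13 := cross_aux h1 h3
  have e24 := cross_aux h2 h4
  set P : ℚ := (r1 - r3) * (r2 - r4) with hP
  set Q : ℚ := (r1 - r4) * (r2 - r3) with hQ
  have hP0 : P ≠ 0 := by
    intro h0
    rcases mul_eq_zero.1 h0 with h0 | h0
    · have : (r1 : κ) - r3 = 0 := by exact_mod_cast congrArg (fun x : ℚ => (x : κ)) h0
      rw [this, mul_zero] at e13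
      have := e13.symm
      rw [mul_eq_zero] at this
      rcases this with h | h
      · exact hΔ h
      · norm_num at h
    · have : (r2 : κ) - r4 = 0 := by exact_mod_cast congrArg (fun x : ℚ => (x : κ)) h0
      rw [this, mul_zero] at e24
      have := e24.symm
      rw [mul_eq_zero] at this
      rcases this with h | h
      · exact hΔ h
      · exact hne (-1) (by push_cast; linear_combination -h)
  have hc' : e * ((3 * P - Q : ℚ) : κ) = ((3 * P + Q : ℚ) : κ) := by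
    push_cast
    have hPk : (P : κ) = (r1 - r3) * (r2 - r4) := by rw [hP]; push_cast; ring
    have hQk : (Q : κ) = (r1 - r4) * (r2 - r3) := by rw [hQ]; push_cast; ring
    rw [hPk, hQk]
    linear_combination hc
  by_cases h0 : 3 * P - Q = 0
  · rw [h0] at hc'
    have : 3 * P + Q = 0 := by
      have : ((3 * P + Q : ℚ) : κ) = 0 := by rw [← hc']; simp
      exact_mod_cast this
    apply hP0
    linarith
  · apply hne ((3 * P + Q) / (3 * P - Q))
    have : ((3 * P - Q : ℚ) : κ) ≠ 0 := by exact_mod_cast h0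
    rw [Rat.cast_div, eq_div_iff this]
    exact hc'

end alg

end Pool.Agent.Helper51.ET
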