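import Pool.Agent.Helper51.ET.Final1

/-!
# Adjoining a generic point of one curve adds no point to the others: the proof
-/

namespace Pool.Agent.Helper51.ET

open Polynomial
open scoped LaurentSeries RatFunc

lemma NoPt.ratFunc {L : Type*} [Field L] [CharZero L] (h : NoPt L) : NoPt (RatFunc L) := by
  have : CharZero (RatFunc L) := charZero_of_injective_algebraMap (algebraMap L (RatFunc L)).injective
  exact NoPt.of_hom (algebraMap (RatFunc L) L⸨X⸩) h.laurent

section

variable {κ : Type*} [Field κ]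

lemma sq_factor {i b a : κ} (hi : i ^ 2 = -1) (r : κ) (h : b ^ 2 + r ^ 2 * a ^ 2 = 0) :
    b = (r * i) * a ∨ b = (-r * i) * a := by
  have : (b - (r * i) * a) * (b - (-r * i) * a) = 0 := by
    linear_combination h - r ^ 2 * a ^ 2 * hi
  rcases mul_eq_zero.1 this with h | h
  · exact Or.inl (sub_eq_zero.1 h)
  · exact Or.inr (sub_eq_zero.1 h)

/-- core algebra: the polynomial identity forces `e` rational, unless `b/a` is constant. -/
lemma core_alg {L : Type*} [Field L] [CharZero L] {e : L} (hsep : (hh e).Separable) (c : ℚ)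
    {a b N M : L[X]} (ha1 : a.natDegree ≤ 1) (hb1 : b.natDegree ≤ 1) (ha : a ≠ 0) (hN : N ≠ 0)
    (hM : M ≠ 0)
    (eq : (N * a ^ 3) ^ 2 * hh e = M ^ 2 *
      (-((b ^ 2 + a ^ 2) * (b ^ 2 + 4 * a ^ 2) * (b ^ 2 + C ((c : L) ^ 2 + 3) ^ 2 * a ^ 2)))) :
    (∃ r : ℚ, e = r) ∨ b.coeff 1 * a.coeff 0 - b.coeff 0 * a.coeff 1 = 0 := by
  by_contra hne
  push Not at hne
  obtain ⟨hne, hΔ⟩ := hne
  let κ := AlgebraicClosure L
  let f : L →+* κ := algebraMap L κ
  obtain ⟨i, hi⟩ := IsAlgClosed.exists_pow_nat_eq (-1 : κ) two_pos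
  have hi0 : i ≠ 0 := by rintro rfl; simp at hi
  have eqm := congrArg (Polynomial.map f) eq
  rw [Polynomial.map_mul, Polynomial.map_mul, Polynomial.map_pow, Polynomial.map_pow,
    Polynomial.map_mul, Polynomial.map_pow] at eqm
  have hsm : ((hh e).map f).Separable := hsep.map
  have hMm : M.map f ≠ 0 := Polynomial.map_ne_zero hM
  have hNam : N.map f * (a.map f) ^ 3 ≠ 0 :=
    mul_ne_zero (Polynomial.map_ne_zero hN) (pow_ne_zero _ (Polynomial.map_ne_zero ha))
  obtain ⟨a1, a0, rfl⟩ := exists_eq_X_add_C_of_natDegree_le_one ha1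
  obtain ⟨b1, b0, rfl⟩ := exists_eq_X_add_C_of_natDegree_le_one hb1
  -- value at `s i`
  have key : ∀ s : κ, (s ^ 2 = 1 ∨ s ^ 2 = 4 ∨ s ^ 2 = f e ^ 2) →
      ∃ r : ℚ, (f b0 * (-i)) + f b1 * s = r * (f a0 + (f a1 * i) * s) := by
    intro s hs
    have hz : ((hh e).map f).eval (s * i) = 0 := by
      rw [hh]
      simp only [Polynomial.map_neg, Polynomial.map_mul, Polynomial.map_add, Polynomial.map_pow,
        Polynomial.map_X, Polynomial.map_one, Polynomial.map_ofNat, Polynomial.map_C, eval_neg,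
        eval_mul, eval_add, eval_pow, eval_X, eval_one, eval_ofNat, eval_C, mul_pow, hi]
      rcases hs with hs | hs | hs
      · rw [hs]; ring
      · rw [hs]; ring
      · rw [hs]; ring
    have hR := branch _ _ _ _ _ hsm (s * i) hz hMm hNam eqm
    simp only [Polynomial.map_neg, Polynomial.map_mul, Polynomial.map_add, Polynomial.map_pow,
        Polynomial.map_X, Polynomial.map_ofNat, Polynomial.map_C, eval_neg,
        eval_mul, eval_add, eval_pow, eval_X, eval_ofNat, eval_C] at hR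
    set A := f a1 * (s * i) + f a0 with hA
    set B := f b1 * (s * i) + f b0 with hB
    have hfin : ∀ r : ℚ, B = ((r : κ) * i) * A →
        (f b0 * (-i)) + f b1 * s = r * (f a0 + (f a1 * i) * s) := by
      intro r hr
      rw [hA, hB] at hr
      linear_combination (-i) * hr + (f b1 * s - r * (f a1 * (s * i) + f a0)) * hi
    have hcases : B ^ 2 + (1 : κ) ^ 2 * A ^ 2 = 0 ∨ B ^ 2 + (2 : κ) ^ 2 * A ^ 2 = 0 ∨
        B ^ 2 + ((c : κ) ^ 2 + 3) ^ 2 * A ^ 2 = 0 := by
      have hf : f ((c : L) ^ 2 + 3) = (c : κ) ^ 2 + 3 := by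
        rw [map_add, map_pow, map_ratCast, map_ofNat]
      rw [hf, neg_eq_zero, mul_eq_zero, mul_eq_zero] at hR
      rcases hR with (h | h) | h
      · left; rw [← h]; ring
      · right; left; rw [← h]; ring
      · right; right; exact h
    rcases hcases with h | h | h
    · rcases sq_factor hi _ h with h | h
      · exact ⟨1, hfin 1 (by rw [h]; push_cast; ring)⟩
      · exact ⟨-1, hfin (-1) (by rw [h]; push_cast; ring)⟩
    · rcases sq_factor hi _ h with h | h
      · exact ⟨2, hfin 2 (by rw [h]; push_cast; ring)⟩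
      · exact ⟨-2, hfin (-2) (by rw [h]; push_cast; ring)⟩
    · rcases sq_factor hi _ h with h | h
      · exact ⟨c ^ 2 + 3, hfin (c ^ 2 + 3) (by rw [h]; push_cast; ring)⟩
      · exact ⟨-(c ^ 2 + 3), hfin (-(c ^ 2 + 3)) (by rw [h]; push_cast; ring)⟩
  obtain ⟨r1, h1⟩ := key 1 (by left; norm_num)
  obtain ⟨r2, h2⟩ := key (-1) (by left; norm_num)
  obtain ⟨r3, h3⟩ := key 2 (by right; left; norm_num)
  obtain ⟨r4, h4⟩ := key (f e) (by right; right; rfl)
  have hΔ' : f b1 * f a0 - (f b0 * (-i)) * (f a1 * i) ≠ 0 := by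
    have h5 : f b1 * f a0 - (f b0 * (-i)) * (f a1 * i) = f (b1 * a0 - b0 * a1) := by
      rw [map_sub, map_mul, map_mul]
      linear_combination (f b0 * f a1) * hi
    rw [h5]
    refine (_root_.map_ne_zero f).2 ?_
    simpa using hΔ
  obtain ⟨r, hr⟩ := cross_rat h1 h2 h3 h4 hΔ'
  refine hne r (f.injective ?_)
  rw [hr, map_ratCast]

end

lemma ec_ne {L : Type*} [Field L] [CharZero L] (c : ℚ) :
    ((c : L) ^ 2 + 3) ≠ 0 ∧ ((c : L) ^ 2 + 3) ^ 2 ≠ 1 ∧ ((c : L) ^ 2 + 3) ^ 2 ≠ 4 := by
  have h3 : (3 : ℚ) ≤ c ^ 2 + 3 := by nlinarith [sq_nonneg c]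
  refine ⟨?_, ?_, ?_⟩
  · have : (c ^ 2 + 3 : ℚ) ≠ 0 := by positivity
    exact_mod_cast (Rat.cast_ne_zero (α := L)).2 this
  · have : (c ^ 2 + 3 : ℚ) ^ 2 ≠ 1 := by nlinarith
    intro h
    apply this
    exact_mod_cast h
  · have : (c ^ 2 + 3 : ℚ) ^ 2 ≠ 4 := by nlinarith
    intro h
    apply this
    exact_mod_cast h

theorem nopt_of_HE {L F : Type*} [Field L] [Field F] [CharZero L] [CharZero F] [Algebra L F]
    (H : HE L F) (e : L) (hg : H.g = hh e) (hsepe : (hh e).Separable) (hrsf : Squarefree (hr e))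
    (he : ∀ r : ℚ, e ≠ r) (D : Derivation L F F)
    (hD : D (H.φ RatFunc.X) = 2 * H.y) (hker : ∀ u, D u = 0 → ∃ a, algebraMap L F a = u)
    (hrac : Rac (algebraMap L F)) (hL : NoPt L) : NoPt F := by
  intro c u w hw
  set ec : L := (c : L) ^ 2 + 3 with hec
  obtain ⟨hc0, hc1, hc4⟩ := ec_ne (L := L) c
  have hi : ∀ s : F, s ^ 2 ≠ -1 := by
    intro s hs
    obtain ⟨t, ht⟩ := hrac.sq (a := -1) (s := s) (by rw [hs, map_neg, map_one])
    exact hL.neg_one t ht
  have hecF : algebraMap L F ec = (c : F) ^ 2 + 3 := by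
    rw [hec, map_add, map_pow, map_ratCast, map_ofNat]
  have huw : w ^ 2 = aeval u (hh ec) := by
    rw [hw, aeval_hh, fz, hecF]
  have hw0 : w ≠ 0 := by
    rintro rfl
    have h0 : (u ^ 2 + 1) * (u ^ 2 + 4) * (u ^ 2 + ((c : F) ^ 2 + 3) ^ 2) = 0 := by
      rw [fz] at hw
      linear_combination hw
    have hcF : (c : F) ^ 2 + 3 ≠ 0 := (ec_ne (L := F) c).1
    rcases mul_eq_zero.1 h0 with h0 | h0
    · rcases mul_eq_zero.1 h0 with h0 | h0
      · exact hi u (by linear_combination h0)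
      · exact hi (u / 2) (by field_simp; linear_combination h0)
    · exact hi (u / ((c : F) ^ 2 + 3)) (by field_simp; linear_combination h0)
  have hsep_c : (hh ec).Separable := hh_separable ec hc0 hc1 hc4
  have hX : (RatFunc.X : RatFunc L) ≠ 0 := RatFunc.X_ne_zero
  have hX' : H.φ RatFunc.X ≠ 0 := (_root_.map_ne_zero _).2 hX
  have hgs : tau L (pr (hr e)) = pr H.g * (RatFunc.X⁻¹) ^ 6 := by rw [hg]; exact tau_hr e
  have hDs : ∀ t : F, (-(H.φ RatFunc.X)⁻¹ • D) t = -(H.φ RatFunc.X)⁻¹ * D t := fun t => rfl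
  obtain ⟨a, ha1, ha⟩ := H.bounded_part (hr e) hrsf hgs D hD (D u / w)
    (fun v h1 h2 => (local_lemma v h1 D h2 ec hsep_c hw0 huw).1)
    (fun v h1 h2 => by
      have := (local_lemma v h1 _ h2 ec hsep_c hw0 huw).1
      rwa [hDs, mul_div_assoc] at this)
  obtain ⟨b, hb1, hb⟩ := H.bounded_part (hr e) hrsf hgs D hD (u * (D u / w))
    (fun v h1 h2 => (local_lemma v h1 D h2 ec hsep_c hw0 huw).2)
    (fun v h1 h2 => by
      have := (local_lemma v h1 _ h2 ec hsep_c hw0 huw).2
      rwa [hDs, mul_div_assoc, mul_left_comm] at this)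
  -- the constant case
  have hconst : D u ≠ 0 := by
    intro h
    obtain ⟨a0, rfl⟩ := hker u h
    have h1 : w ^ 2 = algebraMap L F (-fz (c : L) a0) := by
      rw [hw, map_neg, map_fz, map_ratCast]
    obtain ⟨t, ht⟩ := hrac.sq h1
    exact hL c a0 t ht
  have ha0 : a ≠ 0 := by
    rintro rfl
    have : D u / w = 0 := by rw [ha, pr, map_zero, map_zero]
    rw [div_eq_zero_iff] at this
    exact this.elim hconst hw0
  have hpa : pr a ≠ 0 := RatFunc.algebraMap_ne_zero ha0
  have hu : u = H.φ (pr b / pr a) := by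
    rw [map_div₀, ← ha, ← hb]
    have : D u / w ≠ 0 := div_ne_zero hconst hw0
    field_simp
  obtain ⟨α, β, hαβ⟩ := H.span w
  have hw2 : H.φ (α ^ 2 + β ^ 2 * pr H.g) + H.φ (2 * α * β) * H.y =
      H.φ (-fz (c : RatFunc L) (pr b / pr a)) + H.φ 0 * H.y := by
    rw [map_zero, zero_mul, add_zero, map_neg]
    have h1 : H.φ (fz (c : RatFunc L) (pr b / pr a)) = fz (c : F) u := by
      have := map_fz (H.φ : RatFunc L →+* F) (c : RatFunc L) (pr b / pr a)
      rw [map_ratCast] at this
      rw [hu]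
      exact this
    rw [h1, ← hw, hαβ, map_add, map_mul, map_mul, map_mul, map_pow, map_pow, ← H.hy, map_ofNat]
    ring
  have : CharZero (RatFunc L) :=
    charZero_of_injective_algebraMap (algebraMap L (RatFunc L)).injective
  obtain ⟨e1, e2⟩ := H.indep' hw2
  have hαβ0 : α = 0 ∨ β = 0 := by
    have h2 : (2 : RatFunc L) ≠ 0 := two_ne_zero
    rcases mul_eq_zero.1 e2 with h | h
    · left; exact (mul_eq_zero.1 h).resolve_left h2
    · right; exact h
  rcases hαβ0 with hα | hβ
  swap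
  · rw [hβ] at e1
    exact hL.ratFunc c (pr b / pr a) α (by rw [← e1]; ring)
  · have hβ0 : β ≠ 0 := by
      rintro rfl
      apply hw0
      rw [hαβ, hα]
      simp
    rw [hα, hg] at e1
    have hden : algebraMap L[X] (RatFunc L) β.denom ≠ 0 :=
      RatFunc.algebraMap_ne_zero (RatFunc.denom_ne_zero β)
    have hbd : algebraMap L[X] (RatFunc L) β.num = β * algebraMap L[X] (RatFunc L) β.denom := by
      have hβ := RatFunc.num_div_denom β
      rw [div_eq_iff hden] at hβ
      exact hβ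
    have heq : (β.num * a ^ 3) ^ 2 * hh e = β.denom ^ 2 *
      (-((b ^ 2 + a ^ 2) * (b ^ 2 + 4 * a ^ 2) * (b ^ 2 + C ((c : L) ^ 2 + 3) ^ 2 * a ^ 2))) := by
      apply RatFunc.algebraMap_injective (K := L)
      have hC : algebraMap L[X] (RatFunc L) (C (c : L)) = (c : RatFunc L) := by
        rw [RatFunc.algebraMap_C, map_ratCast]
      simp only [map_mul, map_pow, map_neg, map_add, map_ofNat, hC]
      rw [hbd]
      have e3 : β ^ 2 * algebraMap L[X] (RatFunc L) (hh e) =
          -fz (c : RatFunc L) (algebraMap L[X] (RatFunc L) b / algebraMap L[X] (RatFunc L) a) := by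
        have : (0 : RatFunc L) ^ 2 + β ^ 2 * pr (hh e) = -fz (c : RatFunc L) (pr b / pr a) := e1
        rw [zero_pow two_ne_zero, zero_add] at this
        exact this
      have hpa' : algebraMap L[X] (RatFunc L) a ≠ 0 := hpa
      have e4 : (β * algebraMap L[X] (RatFunc L) β.denom * algebraMap L[X] (RatFunc L) a ^ 3) ^ 2 *
          algebraMap L[X] (RatFunc L) (hh e) =
          algebraMap L[X] (RatFunc L) β.denom ^ 2 * algebraMap L[X] (RatFunc L) a ^ 6 *
          (β ^ 2 * algebraMap L[X] (RatFunc L) (hh e)) := by ring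
      rw [e4, e3, fz]
      field_simp
    rcases core_alg hsepe c ha1 hb1 ha0 (RatFunc.num_ne_zero hβ0) (RatFunc.denom_ne_zero β) heq with
      ⟨r, hr⟩ | hΔ
    · exact he r hr
    · -- then `u` is constant
      apply hconst
      have hmul : u * H.φ (pr a) = H.φ (pr b) := by
        rw [hu, ← map_mul, div_mul_cancel₀ _ hpa]
      obtain ⟨a1, a0, rfl⟩ := exists_eq_X_add_C_of_natDegree_le_one ha1
      obtain ⟨b1, b0, rfl⟩ := exists_eq_X_add_C_of_natDegree_le_one hb1
      have hΔ' : b1 * a0 - b0 * a1 = 0 := by simpa using hΔ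
      have hφa : H.φ (pr (C a1 * X + C a0)) ≠ 0 := (_root_.map_ne_zero _).2 hpa
      have hlin : ∀ s t : L, C s * (C b1 * X + C b0) = C t * (C a1 * X + C a0) → s ≠ 0 →
          u = algebraMap L F (t / s) := by
        intro s t hst hs
        have h1 := congrArg H.ψ hst
        rw [map_mul, map_mul] at h1
        have hCs : ∀ s : L, H.ψ (C s) = algebraMap L F s := by
          intro s
          rw [HE.ψ_eq, aeval_C]
        rw [hCs, hCs, H.ψ_apply, H.ψ_apply, ← hmul] at h1
        have hs' : algebraMap L F s ≠ 0 := (_root_.map_ne_zero _).2 hs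
        rw [map_div₀, eq_div_iff hs']
        apply mul_right_cancel₀ hφa
        linear_combination h1
      by_cases ha00 : a0 = 0
      · have ha10 : a1 ≠ 0 := by
          rintro rfl
          apply ha0
          rw [ha00]
          simp
        have := hlin a1 b1 (by
          have : (C b1 * C a0 - C b0 * C a1 : L[X]) = 0 := by
            rw [← C_mul, ← C_mul, ← C_sub, hΔ', C_0]
          linear_combination -this) ha10
        rw [this, Derivation.map_algebraMap]
      · have := hlin a0 b0 (by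
          have : (C b1 * C a0 - C b0 * C a1 : L[X]) = 0 := by
            rw [← C_mul, ← C_mul, ← C_sub, hΔ', C_0]
          linear_combination X * this) ha00
        rw [this, Derivation.map_algebraMap]

end Pool.Agent.Helper51.ET
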