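import Pool.Agent.Helper51.ET.Rigid

/-!
# The infinite places of the genus two curve
-/

namespace Pool.Agent.Helper51.ET

open Polynomial

section tau

variable (L : Type*) [Field L]

lemma tau_inj : Function.Injective (aeval (R := L) ((RatFunc.X : RatFunc L)⁻¹)) := by
  rw [← transcendental_iff_injective, Transcendental, IsAlgebraic.inv_iff]
  exact RatFunc.transcendental_X

/-- the substitution `X ↦ X⁻¹` -/
noncomputable def tau : RatFunc L →ₐ[L] RatFunc L :=
  RatFunc.liftAlgHom (aeval ((RatFunc.X : RatFunc L)⁻¹))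
    (nonZeroDivisors_le_comap_nonZeroDivisors_of_injective _ (tau_inj L))

variable {L}

lemma tau_pr (p : L[X]) : tau L (pr p) = aeval ((RatFunc.X : RatFunc L)⁻¹) p := by
  have := RatFunc.liftAlgHom_apply_div (aeval ((RatFunc.X : RatFunc L)⁻¹))
    (nonZeroDivisors_le_comap_nonZeroDivisors_of_injective _ (tau_inj L)) p 1
  rwa [map_one, div_one, map_one, div_one] at this

lemma tau_X : tau L RatFunc.X = RatFunc.X⁻¹ := by
  have := tau_pr (X : L[X])
  rw [aeval_X] at this
  rw [← this, pr, RatFunc.algebraMap_X]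

lemma tau_tau (α : RatFunc L) : tau L (tau L α) = α := by
  have h : ∀ p : L[X], tau L (tau L (pr p)) = pr p := by
    intro p
    rw [tau_pr, ← aeval_algHom_apply, map_inv₀, tau_X, inv_inv, ← RatFunc.algebraMap_X,
      aeval_algebraMap_apply, aeval_X_left_apply]
  rw [← RatFunc.num_div_denom α, map_div₀, map_div₀]
  congr 1
  · exact h _
  · exact h _

lemma tau_bound (p : L[X]) (N : ℕ) (hN : p.natDegree ≤ N) :
    ∃ r : L[X], r.natDegree ≤ N ∧ tau L (pr p) * RatFunc.X ^ N = pr r := by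
  have hX : (RatFunc.X : RatFunc L) ≠ 0 := RatFunc.X_ne_zero
  refine Polynomial.induction_with_natDegree_le
    (fun p => ∃ r : L[X], r.natDegree ≤ N ∧ tau L (pr p) * RatFunc.X ^ N = pr r) N
    ⟨0, by simp, by simp⟩ ?_ ?_ p hN
  · intro n a ha hn
    refine ⟨C a * X ^ (N - n), (natDegree_C_mul_X_pow_le _ _).trans (Nat.sub_le _ _), ?_⟩
    rw [tau_pr, pr, map_mul, map_mul, map_pow, map_pow, aeval_C, aeval_X,
      RatFunc.algebraMap_X, inv_pow]
    have : (RatFunc.X : RatFunc L) ^ N = RatFunc.X ^ (N - n) * RatFunc.X ^ n := by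
      rw [← pow_add, Nat.sub_add_cancel hn]
    rw [this]
    have hXn : (RatFunc.X : RatFunc L) ^ n ≠ 0 := pow_ne_zero _ hX
    field_simp
    rw [RatFunc.algebraMap_C]
    rfl
  · intro f g hfg hg hf' hg'
    obtain ⟨r, hr, hr'⟩ := hf'
    obtain ⟨s, hs, hs'⟩ := hg'
    refine ⟨r + s, (natDegree_add_le _ _).trans (max_le hr hs), ?_⟩
    rw [pr, pr, map_add, map_add, map_add, add_mul]
    exact congrArg₂ _ hr' hs'

lemma deg_one_of_tau {a p : L[X]} (h : pr a = RatFunc.X * tau L (pr p)) : a.natDegree ≤ 1 := by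
  obtain ⟨r, hr, hr'⟩ := tau_bound p _ le_rfl
  have h1 : a * X ^ p.natDegree = X * r := by
    apply RatFunc.algebraMap_injective (K := L)
    rw [map_mul, map_pow, map_mul, RatFunc.algebraMap_X]
    have h' : algebraMap L[X] (RatFunc L) a = RatFunc.X * tau L (pr p) := h
    have hr2 : tau L (pr p) * RatFunc.X ^ p.natDegree = algebraMap L[X] (RatFunc L) r := hr'
    rw [h', mul_assoc, hr2]
  by_cases ha : a = 0
  · rw [ha]; simp
  have h2 := congrArg natDegree h1
  rw [natDegree_mul ha (pow_ne_zero _ X_ne_zero), natDegree_X_pow] at h2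
  have h3 : (X * r).natDegree ≤ 1 + r.natDegree := natDegree_mul_le.trans (by simp)
  omega

lemma zero_of_tau {b p : L[X]} (h : pr b * RatFunc.X ^ 2 = tau L (pr p)) : b = 0 := by
  obtain ⟨r, hr, hr'⟩ := tau_bound p _ le_rfl
  have h1 : b * X ^ (2 + p.natDegree) = r := by
    apply RatFunc.algebraMap_injective (K := L)
    rw [map_mul, map_pow, RatFunc.algebraMap_X]
    have h' : algebraMap L[X] (RatFunc L) b * RatFunc.X ^ 2 = tau L (pr p) := h
    have hr2 : tau L (pr p) * RatFunc.X ^ p.natDegree = algebraMap L[X] (RatFunc L) r := hr'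
    rw [← hr2, ← h', pow_add, mul_assoc]
  by_contra hb
  have h2 := congrArg natDegree h1
  rw [natDegree_mul hb (pow_ne_zero _ X_ne_zero), natDegree_X_pow] at h2
  omega

end tau

section flip

variable {L F : Type*} [Field L] [Field F] [Algebra L F]

namespace HE

variable (H : HE L F)

/-- The other chart. -/
noncomputable def flip (gs : L[X]) (hsf : Squarefree gs)
    (hgs : tau L (pr gs) = pr H.g * (RatFunc.X⁻¹) ^ 6) : HE L F where
  φ := H.φ.comp (tau L)
  g := gs
  y := H.y * H.φ (RatFunc.X⁻¹) ^ 3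
  sf := hsf
  hy := by
    rw [mul_pow, H.hy, AlgHom.comp_apply, hgs, map_mul, map_pow]
    ring
  span x := by
    obtain ⟨α, β, rfl⟩ := H.span x
    have hX : (RatFunc.X : RatFunc L) ≠ 0 := RatFunc.X_ne_zero
    refine ⟨tau L α, tau L (β * RatFunc.X ^ 3), ?_⟩
    rw [AlgHom.comp_apply, tau_tau, AlgHom.comp_apply, tau_tau, map_mul, map_pow, map_inv₀]
    have hX' : H.φ RatFunc.X ≠ 0 := (_root_.map_ne_zero _).2 hX
    field_simp
  σ := H.σ
  σφ α := H.σφ _
  σy := by rw [map_mul, map_pow, H.σφ, H.σy, neg_mul]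

/-- regular differentials -/
def Reg (D : Derivation L F F) (q : F) : Prop :=
  ∀ v : Valuation F (WithZero (Multiplicative ℤ)), (∀ a : L, v (algebraMap L F a) ≤ 1) →
      (∀ x, v x ≤ 1 → v (D x) ≤ 1) → v q ≤ 1

theorem bounded_part [CharZero L] [CharZero F] (gs : L[X]) (hsf : Squarefree gs)
    (hgs : tau L (pr gs) = pr H.g * (RatFunc.X⁻¹) ^ 6) (D : Derivation L F F)
    (hD : D (H.φ RatFunc.X) = 2 * H.y) (q : F) (hq : Reg D q)
    (hq' : Reg (-(H.φ RatFunc.X)⁻¹ • D) (-(H.φ RatFunc.X)⁻¹ * q)) :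
    ∃ a : L[X], a.natDegree ≤ 1 ∧ q = H.φ (pr a) := by
  have hX : (RatFunc.X : RatFunc L) ≠ 0 := RatFunc.X_ne_zero
  have hX' : H.φ RatFunc.X ≠ 0 := (_root_.map_ne_zero _).2 hX
  obtain ⟨a, b, hab⟩ := H.finite_part D hD q hq
  obtain ⟨a', b', hab'⟩ := (H.flip gs hsf hgs).finite_part (-(H.φ RatFunc.X)⁻¹ • D) (by
    change -(H.φ RatFunc.X)⁻¹ * D (H.φ (tau L RatFunc.X)) = 2 * (H.y * H.φ (RatFunc.X⁻¹) ^ 3)
    rw [tau_X, map_inv₀, Derivation.leibniz_inv, hD, smul_eq_mul]
    ring) _ hq'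
  have h1 : H.φ (-RatFunc.X⁻¹ * pr a) + H.φ (-RatFunc.X⁻¹ * pr b) * H.y =
      H.φ (tau L (pr a')) + H.φ (tau L (pr b') * (RatFunc.X⁻¹) ^ 3) * H.y := by
    rw [map_mul, map_mul, map_neg, map_inv₀, map_mul, map_pow, map_inv₀]
    have h2 : -(H.φ RatFunc.X)⁻¹ * q = H.φ (tau L (pr a')) +
      H.φ (tau L (pr b')) * (H.y * H.φ (RatFunc.X⁻¹) ^ 3) := hab'
    rw [map_inv₀] at h2
    rw [hab] at h2
    linear_combination h2
  obtain ⟨e1, e2⟩ := H.indep' h1
  refine ⟨a, ?_, ?_⟩
  · have : pr a = RatFunc.X * tau L (pr (-a')) := by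
      have e3 : tau L (pr (-a')) = - tau L (pr a') := by
        rw [pr, map_neg, map_neg]
      rw [e3, ← e1]
      field_simp
    exact deg_one_of_tau this
  · have : pr (-b) * RatFunc.X ^ 2 = tau L (pr b') := by
      have e3 : pr (-b) = - pr b := by
        rw [pr, map_neg]
      have e4 : tau L (pr b') = (-RatFunc.X⁻¹ * pr b) * RatFunc.X ^ 3 := by
        rw [e2]
        field_simp
      rw [e3, e4]
      field_simp
    have hb := zero_of_tau this
    have hb' : b = 0 := neg_eq_zero.1 hb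
    rw [hab, hb']
    simp

end HE

end flip

end Pool.Agent.Helper51.ET
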