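import Pool.Agent.Helper51.ET.FieldK
import Pool.Agent.Helper51.ET.Definab
import Pool.Agent.Helper51.ET.Etale

/-!
# The counterexample
-/

namespace Pool.Agent.Helper51.ET

/-- There is a countable field of characteristic zero carrying a gt-henselian topology with a
basis of definable sets whose étale-open topology is not a field topology. -/
theorem main : ∃ (K : Type) (_ : Field K) (_ : CharZero K) (_ : Countable K)
    (τ : TopologicalSpace K), IsGtHenselian K τ ∧
      (∃ B : Set (Set K), @TopologicalSpace.IsTopologicalBasis K τ B ∧
        ∀ U ∈ B, IsDefinable K U) ∧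
      ¬ EtaleOpenIsFieldTopology K := by
  obtain ⟨K, _, _, _, hK, hpt, hs, het⟩ := exists_K
  exact ⟨K, inferInstance, inferInstance, inferInstance, tauK hK hs, tau_gt hK hs,
    ⟨basisK K, tau_basis hK hs, fun U hU => basis_definable hK.nopt hpt U hU⟩, not_field het⟩

end Pool.Agent.Helper51.ET
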