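import Pool.Agent.Helper51.ET.Basic

/-!
# Multiquadratic extensions: a degree bound
-/

namespace Pool.Agent.Helper51.ET

open Polynomial IntermediateField

section mq

variable {N : Type*} [Field N] [CharZero N]

omit [CharZero N] in
lemma mem_adjoin_sqrt {M : Subfield N} {s : N} (hs : s ^ 2 ∈ M) {b : N}
    (hb : b ∈ (IntermediateField.adjoin M {s} : IntermediateField M N)) :
    ∃ x ∈ M, ∃ y ∈ M, b = x + y * s := by
  have hint : IsIntegral M s := by
    refine ⟨X ^ 2 - C ⟨s ^ 2, hs⟩, monic_X_pow_sub_C _ two_ne_zero, ?_⟩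
    rw [eval₂_sub, eval₂_pow, eval₂_X, eval₂_C]
    exact sub_self _
  have hb' : b ∈ Algebra.adjoin M {s} := by
    rw [← adjoin_simple_toSubalgebra_of_isAlgebraic hint.isAlgebraic]
    exact hb
  induction hb' using Algebra.adjoin_induction with
  | mem x hx =>
    rw [Set.mem_singleton_iff] at hx
    exact ⟨0, M.zero_mem, 1, M.one_mem, by rw [hx]; ring⟩
  | algebraMap r => exact ⟨r, r.2, 0, M.zero_mem, by simp; rfl⟩
  | add x y hx hy ihx ihy =>
    have memx : x ∈ (IntermediateField.adjoin M {s} : IntermediateField M N) := by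
      rw [← adjoin_simple_toSubalgebra_of_isAlgebraic hint.isAlgebraic] at hx
      exact hx
    have memy : y ∈ (IntermediateField.adjoin M {s} : IntermediateField M N) := by
      rw [← adjoin_simple_toSubalgebra_of_isAlgebraic hint.isAlgebraic] at hy
      exact hy
    obtain ⟨x1, hx1, y1, hy1, e1⟩ := ihx memx
    obtain ⟨x2, hx2, y2, hy2, e2⟩ := ihy memy
    exact ⟨x1 + x2, M.add_mem hx1 hx2, y1 + y2, M.add_mem hy1 hy2, by rw [e1, e2]; ring⟩
  | mul x y hx hy ihx ihy =>
    have memx : x ∈ (IntermediateField.adjoin M {s} : IntermediateField M N) := by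
      rw [← adjoin_simple_toSubalgebra_of_isAlgebraic hint.isAlgebraic] at hx
      exact hx
    have memy : y ∈ (IntermediateField.adjoin M {s} : IntermediateField M N) := by
      rw [← adjoin_simple_toSubalgebra_of_isAlgebraic hint.isAlgebraic] at hy
      exact hy
    obtain ⟨x1, hx1, y1, hy1, e1⟩ := ihx memx
    obtain ⟨x2, hx2, y2, hy2, e2⟩ := ihy memy
    refine ⟨x1 * x2 + y1 * y2 * s ^ 2, ?_, x1 * y2 + x2 * y1, ?_, by rw [e1, e2]; ring⟩
    · exact M.add_mem (M.mul_mem hx1 hx2) (M.mul_mem (M.mul_mem hy1 hy2) hs)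
    · exact M.add_mem (M.mul_mem hx1 hy2) (M.mul_mem hx2 hy1)

lemma mq {ι : Type*} [DecidableEq ι] (a : ι → N) (S : Finset ι) : ∀ (M : Subfield N)
    [FiniteDimensional M N],
    (∀ i ∈ S, a i ∈ M) → (∀ i ∈ S, ∃ s, s ^ 2 = a i) →
    (∀ T ⊆ S, T.Nonempty → ∀ b ∈ M, b ^ 2 ≠ ∏ i ∈ T, a i) →
    2 ^ S.card ≤ Module.finrank M N := by
  induction S using Finset.induction_on with
  | empty =>
    intro M _ _ _ _
    have : 0 < Module.finrank M N := Module.finrank_pos
    simpa using Nat.succ_le_of_lt this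
  | insert i₀ S hi₀ ih =>
    intro M _ ha hsq hns
    obtain ⟨s, hs⟩ := hsq i₀ (Finset.mem_insert_self _ _)
    have hsM : s ^ 2 ∈ M := by rw [hs]; exact ha _ (Finset.mem_insert_self _ _)
    have hsn : s ∉ M := by
      intro h
      refine hns {i₀} (by simp) (by simp) s h ?_
      simp [hs]
    set E : IntermediateField M N := IntermediateField.adjoin M {s} with hE
    have hfr : 2 ≤ Module.finrank M E := by
      have h1 : Module.finrank M E ≠ 1 := by
        intro h
        rw [IntermediateField.finrank_eq_one_iff] at h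
        have : s ∈ E := IntermediateField.mem_adjoin_simple_self M s
        rw [h, IntermediateField.mem_bot] at this
        obtain ⟨y, hy⟩ := this
        exact hsn (by rw [← hy]; exact y.2)
      have h2 : 0 < Module.finrank M E := Module.finrank_pos
      omega
    have : FiniteDimensional E.toSubfield N := (inferInstance : FiniteDimensional E N)
    have side1 : ∀ i ∈ S, a i ∈ E.toSubfield := by
      intro i hi
      have : a i ∈ M := ha i (Finset.mem_insert_of_mem hi)
      exact E.algebraMap_mem ⟨a i, this⟩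
    have side2 : ∀ T ⊆ S, T.Nonempty → ∀ b ∈ E.toSubfield, b ^ 2 ≠ ∏ i ∈ T, a i := by
      intro T hT hTn b hb
      obtain ⟨x, hx, y, hy, rfl⟩ := mem_adjoin_sqrt hsM hb
      intro hP
      have hPM : ∏ i ∈ T, a i ∈ M :=
        M.prod_mem fun i hi => ha i (Finset.mem_insert_of_mem (hT hi))
      have hxy : 2 * (x * y) = 0 := by
        by_contra hne
        apply hsn
        have : s = (∏ i ∈ T, a i - x ^ 2 - y ^ 2 * s ^ 2) / (2 * (x * y)) := by
          rw [eq_div_iff hne, ← hP]
          ring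
        rw [this]
        refine M.div_mem (M.sub_mem (M.sub_mem hPM (M.pow_mem hx 2))
          (M.mul_mem (M.pow_mem hy 2) hsM)) (M.mul_mem ?_ (M.mul_mem hx hy))
        exact_mod_cast natCast_mem M 2
      have hxy' : x = 0 ∨ y = 0 := by
        simpa using hxy
      rcases hxy' with rfl | rfl
      · refine hns (insert i₀ T) (Finset.insert_subset_insert _ hT) (by simp) (y * s ^ 2)
          (M.mul_mem hy hsM) ?_
        rw [Finset.prod_insert (fun h => hi₀ (hT h)), ← hP, ← hs]
        ring
      · refine hns T (hT.trans (Finset.subset_insert _ _)) hTn x hx ?_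
        rw [← hP]
        ring
    have hih : 2 ^ S.card ≤ Module.finrank E N :=
      ih E.toSubfield side1 (fun i hi => hsq i (Finset.mem_insert_of_mem hi)) side2
    have htower := Module.finrank_mul_finrank M E N
    rw [Finset.card_insert_of_notMem hi₀, pow_succ, ← htower]
    nlinarith

end mq

section poly

variable {L : Type*} [Field L]

/-- a product of distinct nonconstant linear factors `1 + yX` is not `r²/s²`. -/
lemma linear_prod_not_sq (T : Finset L) (hT : T.Nonempty) (h0 : (0 : L) ∉ T) (r s : L[X])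
    (hs : s ≠ 0) : r ^ 2 ≠ s ^ 2 * ∏ y ∈ T, (1 + C y * X) := by
  classical
  obtain ⟨y₀, hy₀⟩ := hT
  intro h
  have hy0 : y₀ ≠ 0 := fun h => h0 (h ▸ hy₀)
  have hfac : (1 + C y₀ * X : L[X]) = C y₀ * (X - C (-y₀⁻¹)) := by
    rw [mul_sub, ← C_mul, mul_neg, mul_inv_cancel₀ hy0]
    simp
    ring
  rw [← Finset.mul_prod_erase T _ hy₀, hfac] at h
  set Q := ∏ y ∈ T.erase y₀, (1 + C y * X : L[X]) with hQ
  have hQe : Q.eval (-y₀⁻¹) ≠ 0 := by
    rw [hQ, eval_prod, Finset.prod_ne_zero_iff]
    intro y hy hz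
    rw [Finset.mem_erase] at hy
    apply hy.1
    simp at hz
    have : 1 + y * -y₀⁻¹ = 0 := by simpa using hz
    field_simp at this
    linear_combination -this
  have hQ0 : Q ≠ 0 := by
    intro h; rw [h] at hQe; simp at hQe
  have hCy : (C y₀ : L[X]) ≠ 0 := C_ne_zero.2 hy0
  have hX : (X - C (-y₀⁻¹) : L[X]) ≠ 0 := X_sub_C_ne_zero _
  have hr : r ≠ 0 := by
    rintro rfl
    have : s ^ 2 * (C y₀ * (X - C (-y₀⁻¹)) * Q) ≠ 0 :=
      mul_ne_zero (pow_ne_zero _ hs) (mul_ne_zero (mul_ne_zero hCy hX) hQ0)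
    exact this (by rw [← h]; ring)
  have key := congrArg (rootMultiplicity (-y₀⁻¹)) h
  rw [pow_two, pow_two, rootMultiplicity_mul (mul_ne_zero hr hr),
    rootMultiplicity_mul (mul_ne_zero (mul_ne_zero hs hs) (mul_ne_zero (mul_ne_zero hCy hX) hQ0)),
    rootMultiplicity_mul (mul_ne_zero hs hs),
    rootMultiplicity_mul (mul_ne_zero (mul_ne_zero hCy hX) hQ0),
    rootMultiplicity_mul (mul_ne_zero hCy hX),
    rootMultiplicity_X_sub_C_self,
    rootMultiplicity_eq_zero (p := Q) (by simpa [IsRoot] using hQe), rootMultiplicity_C] at key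
  omega

end poly

section mqx

variable {L F : Type*} [Field L] [Field F] [CharZero F] [Algebra L F]

lemma mqx {x : F} (hx : Transcendental L x) [FiniteDimensional L⟮x⟯ F] (S : Finset L)
    (h0 : (0 : L) ∉ S) (hs : ∀ y ∈ S, ∃ s : F, s ^ 2 = 1 + algebraMap L F y * x) :
    2 ^ S.card ≤ Module.finrank L⟮x⟯ F := by
  classical
  have : FiniteDimensional (L⟮x⟯).toSubfield F := (inferInstance : FiniteDimensional L⟮x⟯ F)
  have hinj : Function.Injective (aeval (R := L) x) := transcendental_iff_injective.1 hx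
  refine mq (fun y => 1 + algebraMap L F y * x) S (L⟮x⟯).toSubfield ?_ hs ?_
  · intro y _
    exact (L⟮x⟯).add_mem (L⟮x⟯).one_mem ((L⟮x⟯).mul_mem ((L⟮x⟯).algebraMap_mem y)
      (IntermediateField.mem_adjoin_simple_self L x))
  · intro T hT hTn b hb hb2
    obtain ⟨r, s, rfl⟩ := IntermediateField.mem_adjoin_simple_iff L b |>.1 hb
    have hP : ∏ y ∈ T, (1 + algebraMap L F y * x) = aeval x (∏ y ∈ T, (1 + C y * X : L[X])) := by
      rw [map_prod]
      refine Finset.prod_congr rfl fun y _ => ?_
      simp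
    have h0T : (0 : L) ∉ T := fun h => h0 (hT h)
    rw [hP] at hb2
    by_cases hs0 : s = 0
    · have : ∏ y ∈ T, (1 + C y * X : L[X]) = 0 := by
        apply hinj
        rw [← hb2, hs0]
        simp
      refine linear_prod_not_sq T hTn h0T 0 1 one_ne_zero ?_
      rw [this]; simp
    · have hs1 : aeval x s ≠ 0 := by
        intro h; exact hs0 (hinj (by rw [h, map_zero]))
      refine linear_prod_not_sq T hTn h0T r s hs0 (hinj ?_)
      rw [map_mul, map_pow, map_pow, ← hb2]
      field_simp

/-- In a function field of one variable, `VV` consists of constants. -/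
lemma vv_const [CharZero L] [Algebra (RatFunc L) F] [FunctionField L F]
    [IsScalarTower L (RatFunc L) F]
    (hrac : Rac (algebraMap L F)) {x : F} (hx : x ∈ VV F) : ∃ a, algebraMap L F a = x := by
  classical
  by_contra hne
  have htr : Transcendental L x := by
    intro h
    obtain ⟨p, hp, hpx⟩ := h
    exact hne (hrac x ⟨p, hp, by rwa [aeval_def] at hpx⟩)
  have hfin : FiniteDimensional L⟮x⟯ F := FunctionField.finiteDimensional_of_adjoin_transcendental htr
  obtain ⟨n, hn⟩ : ∃ n : ℕ, Module.finrank L⟮x⟯ F < 2 ^ n := ⟨_, Nat.lt_two_pow_self⟩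
  let S : Finset L := (Finset.range n).image (fun k : ℕ => ((k + 1 : ℕ) : L))
  have hcard : S.card = n := by
    rw [Finset.card_image_of_injective, Finset.card_range]
    intro a b hab
    have : ((a + 1 : ℕ) : L) = ((b + 1 : ℕ) : L) := hab
    have := Nat.cast_injective this
    omega
  have := mqx htr S (by
    simp only [S, Finset.mem_image, not_exists, not_and]
    intro k _ hk
    exact Nat.cast_ne_zero.2 (Nat.succ_ne_zero k) hk) (by
    intro y hy
    simp only [S, Finset.mem_image] at hy
    obtain ⟨k, _, rfl⟩ := hy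
    obtain ⟨s, hs⟩ := hx ((k + 1 : ℕ) : ℚ)
    refine ⟨s, ?_⟩
    rw [hs]
    simp)
  rw [hcard] at this
  omega

end mqx

end Pool.Agent.Helper51.ET
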