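import Pool.Agent.Helper51.ET.Basic

/-!
# Rigidity of the genus two curves: local analysis
-/

namespace Pool.Agent.Helper51.ET

open Polynomial

section loc

variable {L F Γ₀ : Type*} [Field L] [Field F] [Algebra L F]
  [LinearOrderedCommGroupWithZero Γ₀]

lemma val_aeval_le_one (v : Valuation F Γ₀) (hv : ∀ a : L, v (algebraMap L F a) ≤ 1) {u : F}
    (hu : v u ≤ 1) (p : L[X]) : v (aeval u p) ≤ 1 := by
  induction p using Polynomial.induction_on' with
  | add p q hp hq =>
    rw [map_add]
    exact (v.map_add _ _).trans (max_le hp hq)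
  | monomial n a =>
    rw [aeval_monomial, map_mul, map_pow]
    exact mul_le_one' (hv a) (pow_le_one' hu n)

/-- the sextic, as a polynomial -/
noncomputable def hh (e : L) : L[X] := -((X ^ 2 + 1) * (X ^ 2 + 4) * (X ^ 2 + C e ^ 2))

lemma aeval_hh (e : L) (u : F) : aeval u (hh e) =
    -((u ^ 2 + 1) * (u ^ 2 + 4) * (u ^ 2 + algebraMap L F e ^ 2)) := by
  simp [hh, map_ofNat]

lemma sep_aux [CharZero L] (a : L) (ha : a ≠ 0) : (X ^ 2 + C a : L[X]).Separable := by
  have := separable_X_pow_sub_C (n := 2) (-a) (by norm_num) (neg_ne_zero.2 ha)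
  rwa [C_neg, sub_neg_eq_add] at this

lemma cop_aux (a b : L) (h : a ≠ b) : IsCoprime (X ^ 2 + C a : L[X]) (X ^ 2 + C b) := by
  refine ⟨C (a - b)⁻¹, - C (a - b)⁻¹, ?_⟩
  have h' : a - b ≠ 0 := sub_ne_zero.2 h
  have : (C (a - b)⁻¹ * (C a - C b) : L[X]) = 1 := by
    rw [← C_sub, ← C_mul, inv_mul_cancel₀ h', C_1]
  linear_combination this

lemma hh_separable [CharZero L] (e : L) (he0 : e ≠ 0) (he1 : e ^ 2 ≠ 1) (he4 : e ^ 2 ≠ 4) :
    (hh e).Separable := by
  have e1 : (1 : L[X]) = C 1 := C_1.symm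
  have e4 : (4 : L[X]) = C 4 := (C_ofNat 4).symm
  have hE : (C e ^ 2 : L[X]) = C (e ^ 2) := (C_pow).symm
  have h14 : (1 : L) ≠ 4 := by norm_num
  have h0 : (4 : L) ≠ 0 := by norm_num
  have h := (((sep_aux (1 : L) one_ne_zero).mul (sep_aux (4 : L) h0) (cop_aux 1 4 h14)).mul
    (sep_aux (e ^ 2) (pow_ne_zero _ he0))
    (IsCoprime.mul_left (cop_aux 1 _ he1.symm) (cop_aux 4 _ he4.symm)))
  rw [hh, e1, e4, hE, Polynomial.Separable, derivative_neg]
  exact IsCoprime.neg_neg h

lemma local_lemma [CharZero L] (v : Valuation F Γ₀) (hv : ∀ a : L, v (algebraMap L F a) ≤ 1)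
    (D : Derivation L F F) (hD : ∀ x, v x ≤ 1 → v (D x) ≤ 1) (e : L) (h : (hh e).Separable)
    {u w : F} (hw : w ≠ 0) (huw : w ^ 2 = aeval u (hh e)) :
    v (D u / w) ≤ 1 ∧ v (u * (D u / w)) ≤ 1 := by
  by_cases hu : v u ≤ 1
  · have hw1 : v w ≤ 1 := by
      have : v w ^ 2 ≤ 1 := by
        rw [← map_pow, huw]
        exact val_aeval_le_one v hv hu _
      exact (pow_le_one_iff two_ne_zero).1 this
    obtain ⟨A, B, hAB⟩ := h
    have h1 : aeval u A * w ^ 2 + aeval u B * aeval u (derivative (hh e)) = 1 := by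
      have := congrArg (aeval u) hAB
      simpa [huw] using this
    have h2 : 2 * w * D w = aeval u (derivative (hh e)) * D u := by
      have := congrArg D huw
      rw [Derivation.leibniz_pow, Derivation.map_aeval] at this
      simpa [mul_comm, mul_left_comm, mul_assoc] using this
    have h3 : D u / w = aeval u A * w * D u + 2 * aeval u B * D w := by
      rw [div_eq_iff hw]
      linear_combination (-D u) * h1 + (-aeval u B) * h2
    have h4 : v (D u / w) ≤ 1 := by
      rw [h3]
      refine (v.map_add _ _).trans (max_le ?_ ?_)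
      · rw [map_mul, map_mul]
        exact mul_le_one' (mul_le_one' (val_aeval_le_one v hv hu _) hw1) (hD _ hu)
      · rw [map_mul, map_mul]
        refine mul_le_one' (mul_le_one' ?_ (val_aeval_le_one v hv hu _)) (hD _ hw1)
        have := hv 2
        rwa [map_ofNat] at this
    exact ⟨h4, by rw [map_mul]; exact mul_le_one' hu h4⟩
  · push Not at hu
    have hu0 : u ≠ 0 := by
      rintro rfl
      simp at hu
    set T := u⁻¹ with hT
    have hT0 : T ≠ 0 := inv_ne_zero hu0
    have hvT : v T < 1 := by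
      rw [hT, map_inv₀]
      exact inv_lt_one_of_one_lt₀ hu
    have huT : u = T⁻¹ := by rw [hT, inv_inv]
    have hone : ∀ c : F, v c ≤ 1 → v (1 + c * T ^ 2) = 1 := by
      intro c hc
      refine v.map_one_add_of_lt ?_
      rw [map_mul, map_pow]
      calc v c * v T ^ 2 ≤ 1 * v T ^ 2 := by gcongr
        _ = v T ^ 2 := one_mul _
        _ < 1 := pow_lt_one₀ (zero_le) hvT two_ne_zero
    set W := w * T ^ 3 with hW
    have hW2 : W ^ 2 = -((1 + 1 * T ^ 2) * (1 + 4 * T ^ 2) * (1 + algebraMap L F e ^ 2 * T ^ 2)) := by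
      rw [hW, mul_pow, huw, aeval_hh, huT]
      field_simp
    have hvW : v W = 1 := by
      have : v W ^ 2 = 1 := by
        rw [← map_pow, hW2, Valuation.map_neg, map_mul, map_mul, hone 1 (by simp),
          hone 4 (by have := hv 4; rwa [map_ofNat] at this), hone _ (by
            rw [map_pow]; exact pow_le_one' (hv e) 2)]
        simp
      refine le_antisymm ((pow_le_one_iff two_ne_zero).1 this.le) ?_
      by_contra hlt
      push Not at hlt
      exact (pow_lt_one₀ (zero_le) hlt two_ne_zero).ne this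
    have hW0 : W ≠ 0 := mul_ne_zero hw (pow_ne_zero _ hT0)
    have hDT : v (D T) ≤ 1 := hD _ hvT.le
    have hDu : D u = -T⁻¹ ^ 2 * D T := by
      have h1 : D (u * T) = 0 := by
        rw [huT, inv_mul_cancel₀ hT0, Derivation.map_one_eq_zero]
      rw [Derivation.leibniz, smul_eq_mul, smul_eq_mul] at h1
      have h2 : u * T = 1 := by rw [huT, inv_mul_cancel₀ hT0]
      have h3 : T⁻¹ = u := huT.symm
      rw [h3]
      linear_combination u * h1 - (D u) * h2
    have e1 : D u / w = - (T * D T) / W := by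
      rw [hDu, hW]
      field_simp
    have e2 : u * (D u / w) = - (D T) / W := by
      rw [e1, huT]
      field_simp
    constructor
    · rw [e1, map_div₀, hvW, div_one, Valuation.map_neg, map_mul]
      exact mul_le_one' hvT.le hDT
    · rw [e2, map_div₀, hvW, div_one, Valuation.map_neg]
      exact hDT

end loc

section HE

variable {L F : Type*} [Field L] [Field F] [Algebra L F]

/-- the polynomial as a rational function -/
noncomputable abbrev pr (a : L[X]) : RatFunc L := algebraMap L[X] (RatFunc L) a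

/-- hyperelliptic function field data: `F = φ(L(z)) + φ(L(z)) y` with `y² = g(z)`. -/
structure HE (L F : Type*) [Field L] [Field F] [Algebra L F] where
  φ : RatFunc L →ₐ[L] F
  g : L[X]
  y : F
  sf : Squarefree g
  hy : y ^ 2 = φ (pr g)
  span : ∀ x : F, ∃ α β : RatFunc L, x = φ α + φ β * y
  σ : F →+* F
  σφ : ∀ α, σ (φ α) = φ α
  σy : σ y = -y

namespace HE

variable (H : HE L F)

lemma y_ne_zero : H.y ≠ 0 := by
  intro h
  have h1 := H.hy
  rw [h, zero_pow two_ne_zero] at h1
  have h2 : pr H.g = 0 := (map_eq_zero H.φ).1 h1.symm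
  exact H.sf.ne_zero (RatFunc.algebraMap_injective (K := L) (by rw [map_zero]; exact h2))

lemma indep [CharZero F] {α β : RatFunc L} (h : H.φ α + H.φ β * H.y = 0) : α = 0 ∧ β = 0 := by
  have h1 := congrArg H.σ h
  rw [map_add, map_mul, H.σφ, H.σφ, H.σy, map_zero] at h1
  have h2 : H.φ α = 0 := by
    have : (2 : F) * H.φ α = 0 := by linear_combination h + h1
    simpa using this
  have h3 : H.φ β = 0 := by
    rw [h2, zero_add] at h
    exact (mul_eq_zero.1 h).resolve_right H.y_ne_zero
  exact ⟨(map_eq_zero _).1 h2, (map_eq_zero _).1 h3⟩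

lemma indep' [CharZero F] {α β α' β' : RatFunc L}
    (h : H.φ α + H.φ β * H.y = H.φ α' + H.φ β' * H.y) : α = α' ∧ β = β' := by
  have := H.indep (α := α - α') (β := β - β') (by
    rw [map_sub, map_sub]
    linear_combination h)
  exact ⟨sub_eq_zero.1 this.1, sub_eq_zero.1 this.2⟩

/-- the polynomial ring inside -/
noncomputable def ψ : L[X] →+* F := H.φ.toRingHom.comp (algebraMap L[X] (RatFunc L))

lemma ψ_apply (a : L[X]) : H.ψ a = H.φ (pr a) := rfl

lemma ψ_eq (a : L[X]) : H.ψ a = aeval (H.φ RatFunc.X) a := by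
  rw [ψ_apply, pr, ← RatFunc.algebraMap_X, aeval_algHom_apply]
  congr 1
  rw [aeval_algebraMap_apply, aeval_X_left_apply]

lemma int_ratFunc {α : RatFunc L} (h : H.ψ.IsIntegralElem (H.φ α)) : ∃ a, pr a = α := by
  have h1 : (algebraMap L[X] (RatFunc L)).IsIntegralElem α := by
    obtain ⟨p, hp, hp0⟩ := h
    refine ⟨p, hp, H.φ.injective ?_⟩
    rw [map_zero, ← hp0]
    exact hom_eval₂ p (algebraMap L[X] (RatFunc L)) H.φ.toRingHom α
  exact IsIntegrallyClosed.isIntegral_iff.1 h1

lemma int_iff [CharZero L] {x : F} (h : H.ψ.IsIntegralElem x) :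
    ∃ a b : L[X], x = H.φ (pr a) + H.φ (pr b) * H.y := by
  obtain ⟨α, β, rfl⟩ := H.span x
  have hσψ : H.σ.comp H.ψ = H.ψ := by
    ext a
    · exact H.σφ _
    · exact H.σφ _
  have hσ : ∀ t : F, H.ψ.IsIntegralElem t → H.ψ.IsIntegralElem (H.σ t) := by
    rintro t ⟨p, hp, hp0⟩
    refine ⟨p, hp, ?_⟩
    have := congrArg H.σ hp0
    rwa [hom_eval₂, hσψ, map_zero] at this
  have h2 := hσ _ h
  rw [map_add, map_mul, H.σφ, H.σφ, H.σy] at h2
  have hs := h.add H.ψ h2
  have hd := (h.sub H.ψ h2)
  have hd2 := hd.mul H.ψ hd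
  obtain ⟨a, ha⟩ := H.int_ratFunc (α := 2 * α) (by
    have e : H.φ (2 * α) = (H.φ α + H.φ β * H.y) + (H.φ α + H.φ β * -H.y) := by
      rw [map_mul, map_ofNat]
      ring
    rw [e]
    exact hs)
  obtain ⟨k, hk⟩ := H.int_ratFunc (α := 4 * β ^ 2 * pr H.g) (by
    have e : H.φ (4 * β ^ 2 * pr H.g) = (H.φ α + H.φ β * H.y - (H.φ α + H.φ β * -H.y)) *
        (H.φ α + H.φ β * H.y - (H.φ α + H.φ β * -H.y)) := by
      rw [map_mul, map_mul, map_pow, ← H.hy, map_ofNat]
      ring
    rw [e]
    exact hd2)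
  have h20 : (2 : L) ≠ 0 := two_ne_zero
  have h40 : (4 : L) ≠ 0 := by norm_num
  -- denominators
  have hNM : β.num ^ 2 * (4 * H.g) = β.denom ^ 2 * k := by
    apply RatFunc.algebraMap_injective
    rw [map_mul, map_mul, map_mul, map_pow, map_pow, map_ofNat]
    have hβ := RatFunc.num_div_denom β
    have hden : algebraMap L[X] (RatFunc L) β.denom ≠ 0 :=
      RatFunc.algebraMap_ne_zero (RatFunc.denom_ne_zero β)
    have hk' : algebraMap L[X] (RatFunc L) k = 4 * β ^ 2 * algebraMap L[X] (RatFunc L) H.g := hk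
    have hβ' : algebraMap L[X] (RatFunc L) β.num = β * algebraMap L[X] (RatFunc L) β.denom := by
      rw [div_eq_iff hden] at hβ
      exact hβ
    rw [hk', hβ']
    ring
  have hdvd : β.denom ^ 2 ∣ H.g := by
    have hcop : IsCoprime (β.denom ^ 2) (β.num ^ 2) :=
      (RatFunc.isCoprime_num_denom β).symm.pow
    have : β.denom ^ 2 ∣ β.num ^ 2 * (4 * H.g) := ⟨k, hNM⟩
    have h3 := hcop.dvd_of_dvd_mul_left this
    have hu : IsUnit (4 : L[X]) := by
      have : (4 : L[X]) = C 4 := (C_ofNat 4).symm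
      rw [this]
      exact isUnit_C.2 (isUnit_iff_ne_zero.2 h40)
    exact (hu.dvd_mul_left).1 h3
  have hunit : IsUnit β.denom := H.sf _ (by rwa [← pow_two])
  obtain ⟨m, hm, hm'⟩ := Polynomial.isUnit_iff.1 hunit
  refine ⟨C 2⁻¹ * a, C m⁻¹ * β.num, ?_⟩
  have e1 : α = pr (C 2⁻¹ * a) := by
    rw [pr, map_mul]
    have : algebraMap L[X] (RatFunc L) a = 2 * α := ha
    rw [this, ← mul_assoc]
    have : algebraMap L[X] (RatFunc L) (C 2⁻¹) * 2 = 1 := by
      rw [← map_ofNat (algebraMap L[X] (RatFunc L)) 2, ← map_mul]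
      have : (C 2⁻¹ * OfNat.ofNat 2 : L[X]) = 1 := by
        have : (OfNat.ofNat 2 : L[X]) = C 2 := (C_ofNat 2).symm
        rw [this, ← C_mul, inv_mul_cancel₀ h20, C_1]
      rw [this, map_one]
    rw [this, one_mul]
  have e2 : β = pr (C m⁻¹ * β.num) := by
    rw [pr, map_mul]
    have hβ := RatFunc.num_div_denom β
    have hmm : algebraMap L[X] (RatFunc L) (C m⁻¹) * algebraMap L[X] (RatFunc L) β.denom = 1 := by
      rw [← hm', ← map_mul, ← C_mul, inv_mul_cancel₀ hm.ne_zero, C_1, map_one]
    have hden : algebraMap L[X] (RatFunc L) β.denom ≠ 0 :=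
      RatFunc.algebraMap_ne_zero (RatFunc.denom_ne_zero β)
    conv_lhs => rw [← hβ]
    rw [div_eq_iff hden]
    linear_combination (-algebraMap L[X] (RatFunc L) β.num) * hmm
  rw [← e1, ← e2]

lemma D_ψ (D : Derivation L F F) (hD : D (H.φ RatFunc.X) = 2 * H.y) (a : L[X]) :
    D (H.ψ a) = H.ψ (derivative a) * (2 * H.y) := by
  rw [ψ_eq, Derivation.map_aeval, hD, smul_eq_mul, ψ_eq]

lemma D_y [CharZero F] (D : Derivation L F F) (hD : D (H.φ RatFunc.X) = 2 * H.y) :
    D H.y = H.ψ (derivative H.g) := by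
  have h1 := congrArg D H.hy
  rw [← ψ_apply, H.D_ψ D hD, Derivation.leibniz_pow] at h1
  have h2 : (2 * H.y) * D H.y = (2 * H.y) * H.ψ (derivative H.g) := by
    simp only [Nat.add_one_sub_one, pow_one, smul_eq_mul, nsmul_eq_mul, Nat.cast_ofNat] at h1
    linear_combination h1
  exact mul_left_cancel₀ (mul_ne_zero two_ne_zero H.y_ne_zero) h2

theorem finite_part [CharZero L] [CharZero F] (D : Derivation L F F)
    (hD : D (H.φ RatFunc.X) = 2 * H.y) (q : F)
    (hq : ∀ v : Valuation F (WithZero (Multiplicative ℤ)), (∀ a : L, v (algebraMap L F a) ≤ 1) →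
      (∀ x, v x ≤ 1 → v (D x) ≤ 1) → v q ≤ 1) :
    ∃ a b : L[X], q = H.φ (pr a) + H.φ (pr b) * H.y := by
  classical
  let _ : Algebra (RatFunc L) F := H.φ.toRingHom.toAlgebra
  let _ : Algebra L[X] F := H.ψ.toAlgebra
  have : IsScalarTower L[X] (RatFunc L) F := IsScalarTower.of_algebraMap_eq (fun x => rfl)
  have : FiniteDimensional (RatFunc L) F := by
    refine ⟨⟨{1, H.y}, ?_⟩⟩
    rw [eq_top_iff]
    rintro x -
    obtain ⟨α, β, rfl⟩ := H.span x
    have h1 : H.φ α + H.φ β * H.y = α • (1 : F) + β • H.y := by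
      rw [Algebra.smul_def, Algebra.smul_def, mul_one]
      rfl
    rw [h1]
    refine Submodule.add_mem _ (Submodule.smul_mem _ _ (Submodule.subset_span ?_))
      (Submodule.smul_mem _ _ (Submodule.subset_span ?_)) <;> simp
  have : IsDedekindDomain (integralClosure L[X] F) :=
    integralClosure.isDedekindDomain L[X] (RatFunc L) F
  have : IsFractionRing (integralClosure L[X] F) F :=
    integralClosure.isFractionRing_of_finite_extension (RatFunc L) F
  have hint : ∀ a : L[X], IsIntegral L[X] (H.ψ a) := fun a => isIntegral_algebraMap (A := F)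
  have hy : IsIntegral L[X] H.y := by
    have : IsIntegral L[X] (H.y ^ 2) := by rw [H.hy]; exact hint _
    exact IsIntegral.of_pow two_pos this
  have h2 : IsIntegral L[X] (2 : F) := by
    have := hint 2
    rwa [map_ofNat] at this
  have hDR : ∀ x : F, IsIntegral L[X] x → IsIntegral L[X] (D x) := by
    intro x hx
    obtain ⟨a, b, rfl⟩ := H.int_iff hx
    rw [← ψ_apply, ← ψ_apply, map_add, Derivation.leibniz, H.D_ψ D hD, H.D_ψ D hD, H.D_y D hD,
      smul_eq_mul, smul_eq_mul]
    exact ((hint _).mul (h2.mul hy)).add (((hint _).mul (hint _)).add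
      (hy.mul ((hint _).mul (h2.mul hy))))
  have key : q ∈ (algebraMap (integralClosure L[X] F) F).range := by
    refine IsDedekindDomain.HeightOneSpectrum.mem_integers_of_valuation_le_one (K := F) q ?_
    intro v
    have hR : ∀ x : F, IsIntegral L[X] x → v.valuation F x ≤ 1 := by
      intro x hx
      exact v.valuation_le_one (K := F) (⟨x, hx⟩ : integralClosure L[X] F)
    refine hq (v.valuation F) ?_ ?_
    · intro a
      refine hR _ ?_
      have := hint (C a)
      rw [ψ_eq, aeval_C] at this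
      exact this
    · intro x hx
      obtain ⟨n, d, hnd⟩ := v.exists_primeCompl_mul_eq_of_integer x hx
      have hd1 : v.valuation F (d : F) = 1 := by
        have h := (v.intValuation_eq_one_iff_mem_primeCompl (d : integralClosure L[X] F)).2 d.2
        rw [← v.valuation_of_algebraMap (K := F)] at h
        exact h
      have hd0 : ((d : integralClosure L[X] F) : F) ≠ 0 := by
        intro h
        rw [h, map_zero] at hd1
        exact zero_ne_one hd1
      have e1 : x * ((d : integralClosure L[X] F) : F) = ((n : integralClosure L[X] F) : F) := hnd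
      have e2 := congrArg D e1
      rw [Derivation.leibniz, smul_eq_mul, smul_eq_mul] at e2
      have e3 : D x = (D ((n : integralClosure L[X] F) : F) -
          x * D ((d : integralClosure L[X] F) : F)) / ((d : integralClosure L[X] F) : F) := by
        rw [eq_div_iff hd0]
        linear_combination e2
      rw [e3, map_div₀, hd1, div_one]
      refine (Valuation.map_sub _ _ _).trans (max_le ?_ ?_)
      · exact hR _ (hDR _ n.2)
      · rw [map_mul]
        exact mul_le_one' hx (hR _ (hDR _ d.1.2))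
  obtain ⟨r, rfl⟩ := key
  exact H.int_iff r.2

end HE

end HE

end Pool.Agent.Helper51.ET
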