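import Pool.Agent.Helper51.ET.Laurent
import Pool.Agent.Helper51.ET.Quad
import Pool.Agent.Helper51.ET.Flip

/-!
# Second task: adding a generic small solution of an étale equation
-/

namespace Pool.Agent.Helper51.ET

open Polynomial IntermediateField
open scoped LaurentSeries RatFunc PowerSeries

universe u

section mqr

variable {L F : Type*} [Field L] [Field F] [CharZero F] [Algebra (RatFunc L) F]
  [FiniteDimensional (RatFunc L) F]

lemma mqr (S : Finset L) (h0 : (0 : L) ∉ S)
    (hs : ∀ y ∈ S, ∃ s : F, s ^ 2 = algebraMap (RatFunc L) F (pr (1 + C y * X))) :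
    2 ^ S.card ≤ Module.finrank (RatFunc L) F := by
  classical
  let M : Subfield F := (algebraMap (RatFunc L) F).fieldRange
  let e : RatFunc L ≃+* M :=
    RingEquiv.ofBijective (algebraMap (RatFunc L) F).rangeRestrictField
      ⟨(algebraMap (RatFunc L) F).rangeRestrictField.injective,
        (algebraMap (RatFunc L) F).rangeRestrict_surjective⟩
  have he : (algebraMap M F).comp (e : RatFunc L →+* M) =
      ((RingEquiv.refl F : F ≃+* F) : F →+* F).comp (algebraMap (RatFunc L) F) := by
    ext x; rfl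
  have hfr : Module.finrank (RatFunc L) F = Module.finrank M F :=
    Algebra.finrank_eq_of_equiv_equiv e (RingEquiv.refl F) he
  have : Module.Finite M F := Module.Finite.of_equiv_equiv e (RingEquiv.refl F) he
  rw [hfr]
  refine mq (fun y => algebraMap (RatFunc L) F (pr (1 + C y * X))) S M ?_ hs ?_
  · intro y _
    exact ⟨_, rfl⟩
  · rintro T hT hTn b ⟨r, rfl⟩ hb2
    have h0T : (0 : L) ∉ T := fun h => h0 (hT h)
    have hr : r ^ 2 = pr (∏ y ∈ T, (1 + C y * X)) := by
      apply (algebraMap (RatFunc L) F).injective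
      rw [map_pow, hb2, pr, map_prod, map_prod]
    have hden : algebraMap L[X] (RatFunc L) r.denom ≠ 0 :=
      RatFunc.algebraMap_ne_zero (RatFunc.denom_ne_zero r)
    refine linear_prod_not_sq T hTn h0T r.num r.denom (RatFunc.denom_ne_zero r) ?_
    apply RatFunc.algebraMap_injective (K := L)
    have h3 : algebraMap L[X] (RatFunc L) r.num = r * algebraMap L[X] (RatFunc L) r.denom := by
      have h4 := RatFunc.num_div_denom r
      rw [div_eq_iff hden] at h4
      exact h4
    have h' : r ^ 2 = algebraMap L[X] (RatFunc L) (∏ y ∈ T, (1 + C y * X)) := hr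
    rw [map_pow, map_mul, map_pow, h3, mul_pow, h', mul_comm]

end mqr

/-- bivariate evaluation -/
noncomputable def ev {L K : Type*} [Field L] [Field K] (j : L →+* K) (a t : K) : L[X][X] →+* K :=
  eval₂RingHom (eval₂RingHom j a) t

/-- solution of the second task -/
def Sol2 {L K : Type*} [Field L] [Field K] (j : L →+* K) (P : L[X][X]) (t₀ : L) : Prop :=
  ∃ a t : K, (∀ y : L, j y ≠ a) ∧ ev j a t P = 0 ∧
    (∀ Q : L[X][X], ev (RingHom.id L) 0 t₀ Q ≠ 0 → ev j a t Q ≠ 0) ∧
    ∀ S : Finset L, (0 : L) ∉ S → P.natDegree < 2 ^ S.card →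
      ∃ y ∈ S, ∀ s : K, s ^ 2 ≠ 1 + j y * a

lemma map_ev {L K N : Type*} [Field L] [Field K] [Field N] (f : K →+* N) (j : L →+* K) (a t : K)
    (P : L[X][X]) : f (ev j a t P) = ev (f.comp j) (f a) (f t) P := by
  have : f.comp (ev j a t) = ev (f.comp j) (f a) (f t) := by
    ext x
    · simp [ev]
    · simp [ev]
    · simp [ev]
  exact congrArg (fun g : L[X][X] →+* N => g P) this

section

variable {L : Type*} [Field L]

/-- evaluation with values in power series -/
lemma im_eval (θ : L⟦X⟧) (P : L[X][X]) :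
    algebraMap L⟦X⟧ L⸨X⸩ ((P.map (Polynomial.coeToPowerSeries.ringHom (R := L))).eval θ) =
      ev (cc L) (algebraMap L⟦X⟧ L⸨X⸩ PowerSeries.X) (algebraMap L⟦X⟧ L⸨X⸩ θ) P := by
  have : (algebraMap L⟦X⟧ L⸨X⸩).comp ((evalRingHom θ).comp
      (mapRingHom (Polynomial.coeToPowerSeries.ringHom (R := L)))) =
      ev (cc L) (algebraMap L⟦X⟧ L⸨X⸩ PowerSeries.X) (algebraMap L⟦X⟧ L⸨X⸩ θ) := by
    ext x
    · simp [ev, cc]
    · simp [ev]
    · simp [ev]
  exact congrArg (fun g : L[X][X] →+* L⸨X⸩ => g P) this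

lemma const_eval (θ : L⟦X⟧) (P : L[X][X]) :
    PowerSeries.constantCoeff ((P.map (Polynomial.coeToPowerSeries.ringHom (R := L))).eval θ) =
      ev (RingHom.id L) 0 (PowerSeries.constantCoeff θ) P := by
  have : (PowerSeries.constantCoeff (R := L)).comp ((evalRingHom θ).comp
      (mapRingHom (Polynomial.coeToPowerSeries.ringHom (R := L)))) =
      ev (RingHom.id L) 0 (PowerSeries.constantCoeff θ) := by
    ext x
    · simp [ev]
    · simp [ev]
    · simp [ev]
  exact congrArg (fun g : L[X][X] →+* L => g P) this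

lemma ev_zero_eq (t₀ : L) (P : L[X][X]) :
    ((P.map (Polynomial.coeToPowerSeries.ringHom (R := L))).map PowerSeries.constantCoeff).eval t₀ =
      ev (RingHom.id L) 0 t₀ P := by
  have : ((evalRingHom t₀).comp (mapRingHom (PowerSeries.constantCoeff (R := L)))).comp
      (mapRingHom (Polynomial.coeToPowerSeries.ringHom (R := L))) =
      ev (RingHom.id L) 0 t₀ := by
    ext x
    · simp [ev]
    · simp [ev]
    · simp [ev]
  exact congrArg (fun g : L[X][X] →+* L => g P) this

end

theorem T2core {L F : Type*} [Field L] [CharZero L] [Field F] [CharZero F] [Algebra (RatFunc L) F]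
    [FiniteDimensional (RatFunc L) F] (hL : Good L) (k : F →+* L⸨X⸩)
    (hk : ∀ p : L[X], k (algebraMap (RatFunc L) F (pr p)) =
      algebraMap L⟦X⟧ L⸨X⸩ (Polynomial.coeToPowerSeries.ringHom p))
    (P : L[X][X]) (θ : L⟦X⟧) (θF : F) (hθF : k θF = algebraMap L⟦X⟧ L⸨X⸩ θ)
    (hθP : (P.map (Polynomial.coeToPowerSeries.ringHom (R := L))).eval θ = 0)
    (hfr : Module.finrank (RatFunc L) F ≤ P.natDegree) :
    Adm ((algebraMap (RatFunc L) F).comp (algebraMap L (RatFunc L))) ∧
      Sol2 ((algebraMap (RatFunc L) F).comp (algebraMap L (RatFunc L))) P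
        (PowerSeries.constantCoeff θ) := by
  set j : L →+* F := (algebraMap (RatFunc L) F).comp (algebraMap L (RatFunc L)) with hj
  have hC : ∀ x : L, algebraMap L (RatFunc L) x = pr (C x) := by
    intro x
    rw [pr, RatFunc.algebraMap_C]
    rfl
  have hkj : k.comp j = cc L := by
    ext1 x
    rw [RingHom.comp_apply, hj, RingHom.comp_apply, hC, hk, cc, RingHom.comp_apply]
    congr 1
    simp
  set a : F := algebraMap (RatFunc L) F RatFunc.X with ha
  have hka : k a = algebraMap L⟦X⟧ L⸨X⸩ PowerSeries.X := by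
    have h := hk X
    have hX : pr (X : L[X]) = RatFunc.X := by rw [pr, RatFunc.algebraMap_X]
    rw [hX] at h
    rw [ha, h]
    congr 1
    simp
  have hrac : Rac j := by
    refine Rac.of_comp (k := k) ?_
    rw [hkj]
    exact rac_cc
  have hkev : ∀ Q : L[X][X], k (ev j a θF Q) = algebraMap L⟦X⟧ L⸨X⸩
      ((Q.map (Polynomial.coeToPowerSeries.ringHom (R := L))).eval θ) := by
    intro Q
    rw [map_ev, hkj, hka, hθF, im_eval]
  refine ⟨⟨hrac, hL.nopt.laurent.of_hom k, ?_⟩, a, θF, ?_, ?_, ?_, ?_⟩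
  · intro x hx
    let _ : Algebra L F := j.toAlgebra
    have : IsScalarTower L (RatFunc L) F := IsScalarTower.of_algebraMap_eq (fun x => rfl)
    have : FunctionField L F := ‹FiniteDimensional (RatFunc L) F›
    exact vv_const (L := L) (F := F) hrac hx
  · intro y hy
    have h1 := congrArg k hy
    rw [hka, ← RingHom.comp_apply, hkj, cc, RingHom.comp_apply] at h1
    have h2 := im_injective h1
    have h3 := congrArg (PowerSeries.coeff 1) h2
    simp at h3
  · apply k.injective
    rw [hkev, hθP, map_zero, map_zero]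
  · intro Q hQ h
    have h1 := congrArg k h
    rw [hkev, map_zero] at h1
    have h2 : (Q.map (Polynomial.coeToPowerSeries.ringHom (R := L))).eval θ = 0 :=
      im_injective (by rw [h1, map_zero])
    apply hQ
    rw [← const_eval, h2, map_zero]
  · intro S h0 hS
    by_contra hne
    push Not at hne
    have := mqr (F := F) S h0 (by
      intro y hy
      obtain ⟨s, hs⟩ := hne y hy
      refine ⟨s, ?_⟩
      rw [hs, hj, ha, RingHom.comp_apply, hC, ← map_mul, ← map_one (algebraMap (RatFunc L) F),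
        ← map_add]
      congr 1
      rw [pr, pr, map_add, map_one, map_mul, RatFunc.algebraMap_X])
    omega

theorem T2 {L : Type u} [Field L] [CharZero L] (hL : Good L) (P : L[X][X]) (hP : P.Monic) (t₀ : L)
    (h0 : ev (RingHom.id L) 0 t₀ P = 0) (h1 : ev (RingHom.id L) 0 t₀ (derivative P) ≠ 0) :
    ∃ (F : Type u) (_ : Field F) (_ : CharZero F) (j : L →+* F), Adm j ∧ Sol2 j P t₀ := by
  set P' := P.map (Polynomial.coeToPowerSeries.ringHom (R := L)) with hP'
  have hP'm : P'.Monic := hP.map _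
  obtain ⟨θ, hθ, hθ0⟩ := hensel hP'm (r₀ := t₀) (by rw [hP', ev_zero_eq, h0]) (by
    rw [hP', derivative_map, derivative_map, ev_zero_eq]
    exact h1)
  have hpoly : ∀ p : L[X], algebraMap (RatFunc L) L⸨X⸩ (pr p) =
      algebraMap L⟦X⟧ L⸨X⸩ (Polynomial.coeToPowerSeries.ringHom p) := by
    intro p
    rw [pr, ← IsScalarTower.algebraMap_apply L[X] (RatFunc L) L⸨X⸩]
    rfl
  let θ' : L⸨X⸩ := algebraMap L⟦X⟧ L⸨X⸩ θ
  let F := IntermediateField.adjoin (RatFunc L) ({θ'} : Set L⸨X⸩)
  let P₁ : (RatFunc L)[X] := P.map (algebraMap L[X] (RatFunc L))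
  have hP₁ : P₁.Monic := hP.map _
  have hroot : aeval θ' P₁ = 0 := by
    have h : (aeval (R := RatFunc L) θ').toRingHom.comp (mapRingHom (algebraMap L[X] (RatFunc L))) =
        (algebraMap L⟦X⟧ L⸨X⸩).comp ((evalRingHom θ).comp
          (mapRingHom (Polynomial.coeToPowerSeries.ringHom (R := L)))) := by
      refine Polynomial.ringHom_ext' (RingHom.ext fun p => ?_) ?_
      · have := hpoly p
        simpa using this
      · simp [θ']
    have h2 := congrArg (fun g : L[X][X] →+* L⸨X⸩ => g P) h
    have h3 : aeval θ' P₁ = algebraMap L⟦X⟧ L⸨X⸩ (P'.eval θ) := h2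
    rw [h3, hθ, map_zero]
  have hint : IsIntegral (RatFunc L) θ' := ⟨P₁, hP₁, by rw [← aeval_def]; exact hroot⟩
  have hfd : FiniteDimensional (RatFunc L) F := IntermediateField.adjoin.finiteDimensional hint
  have hfr : Module.finrank (RatFunc L) F ≤ P.natDegree := by
    rw [IntermediateField.adjoin.finrank hint, ← hP.natDegree_map (algebraMap L[X] (RatFunc L))]
    exact natDegree_le_of_dvd (minpoly.dvd _ _ hroot) hP₁.ne_zero
  have hcz : CharZero F := charZero_of_injective_ringHom
    ((algebraMap (RatFunc L) F).comp (algebraMap L (RatFunc L))).injective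
  have hmem : θ' ∈ F := IntermediateField.mem_adjoin_simple_self _ _
  obtain ⟨hA, hS⟩ := T2core hL (algebraMap F L⸨X⸩) (fun p => hpoly p) P θ ⟨θ', hmem⟩ rfl hθ hfr
  exact ⟨F, inferInstance, hcz, _, hA, by rwa [hθ0] at hS⟩

end Pool.Agent.Helper51.ET
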