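import Pool.Agent.Helper51.ET.T1
import Pool.Agent.Helper51.ET.T2

/-!
# Tasks and their solution in countable good extensions
-/

namespace Pool.Agent.Helper51.ET

open Polynomial
open scoped LaurentSeries PowerSeries

universe u

/-- tasks over `L` -/
abbrev Task (L : Type u) [Field L] : Type u := Option (L ⊕ (L[X][X] × L))

lemma countable_polynomial (L : Type u) [Semiring L] [Countable L] : Countable L[X] := by
  rw [← Cardinal.mk_le_aleph0_iff]
  exact Polynomial.cardinalMk_le_max.trans (max_le (Cardinal.mk_le_aleph0_iff.2 ‹_›) le_rfl)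

lemma countable_task (L : Type u) [Field L] [Countable L] : Countable (Task L) := by
  have h1 := countable_polynomial L
  have h2 := countable_polynomial L[X]
  infer_instance

/-- solution of a task in an extension -/
def Solved {L K : Type*} [Field L] [Field K] (j : L →+* K) : Task L → Prop
  | none => ∃ t : K, t ≠ 0 ∧ ∀ y : L, t * j y ∈ VV K
  | some (Sum.inl x) => (∀ r : ℚ, x ≠ r) → ∃ z w : K, w ^ 2 = -fz (j x) z
  | some (Sum.inr (P, t₀)) => P.Monic → ev (RingHom.id L) 0 t₀ P = 0 →
      ev (RingHom.id L) 0 t₀ (derivative P) ≠ 0 → Sol2 j P t₀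

lemma Sol2.comp {L K M : Type*} [Field L] [Field K] [Field M] {j : L →+* K} {m : K →+* M}
    (hm : Rac m) {P : L[X][X]} {t₀ : L} (h : Sol2 j P t₀) : Sol2 (m.comp j) P t₀ := by
  obtain ⟨a, t, h1, h2, h3, h4⟩ := h
  refine ⟨m a, m t, ?_, ?_, ?_, ?_⟩
  · intro y hy
    exact h1 y (m.injective hy)
  · rw [← map_ev, h2, map_zero]
  · intro Q hQ h
    rw [← map_ev] at h
    exact h3 Q hQ ((map_eq_zero m).1 h)
  · intro S h0 hS
    obtain ⟨y, hy, hy'⟩ := h4 S h0 hS
    refine ⟨y, hy, fun s hs => ?_⟩
    obtain ⟨t', ht'⟩ := hm.sq (a := 1 + j y * a) (s := s) (by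
      rw [hs, map_add, map_one, map_mul]
      rfl)
    exact hy' t' ht'

/-- Solutions persist in relatively algebraically closed extensions. -/
lemma Solved.comp {L K M : Type*} [Field L] [Field K] [Field M] [CharZero K] [CharZero M]
    {j : L →+* K} {m : K →+* M}
    (hm : Rac m) {τ : Task L} (h : Solved j τ) : Solved (m.comp j) τ := by
  rcases τ with _ | x | ⟨P, t₀⟩
  · obtain ⟨t, ht, h⟩ := h
    refine ⟨m t, (_root_.map_ne_zero m).2 ht, fun y => ?_⟩
    have := VV.map m (h y)
    rwa [map_mul] at this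
  · intro hx
    obtain ⟨z, w, hw⟩ := h hx
    refine ⟨m z, m w, ?_⟩
    have := congrArg m hw
    rwa [map_pow, map_neg, map_fz] at this
  · intro h1 h2 h3
    exact Sol2.comp hm (h h1 h2 h3)

/-- Transport of tasks. -/
noncomputable def Task.map {L M : Type u} [Field L] [Field M] (i : L →+* M) : Task L → Task M
  | none => none
  | some (Sum.inl x) => some (Sum.inl (i x))
  | some (Sum.inr (P, t₀)) => some (Sum.inr (P.map (mapRingHom i), i t₀))

lemma ev_map {L M K : Type*} [Field L] [Field M] [Field K] (i : L →+* M) (m : M →+* K) (a t : K)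
    (P : L[X][X]) : ev m a t (P.map (mapRingHom i)) = ev (m.comp i) a t P := by
  have : (ev m a t).comp (mapRingHom (mapRingHom i)) = ev (m.comp i) a t := by
    ext x
    · simp [ev]
    · simp [ev]
    · simp [ev]
  exact congrArg (fun g : L[X][X] →+* K => g P) this

lemma ev_zero_map {L M : Type*} [Field L] [Field M] (i : L →+* M) (t₀ : L) (P : L[X][X]) :
    ev (RingHom.id M) 0 (i t₀) (P.map (mapRingHom i)) = i (ev (RingHom.id L) 0 t₀ P) := by
  rw [ev_map, map_ev, map_zero]
  rfl

lemma Solved.of_map {L M K : Type u} [Field L] [Field M] [Field K] [CharZero L] [CharZero M]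
    {i : L →+* M}
    {m : M →+* K} {τ : Task L} (h : Solved m (Task.map i τ)) : Solved (m.comp i) τ := by
  classical
  rcases τ with _ | x | ⟨P, t₀⟩
  · obtain ⟨t, ht, h⟩ := h
    exact ⟨t, ht, fun y => h (i y)⟩
  · intro hx
    refine h fun r hr => hx r (i.injective ?_)
    rw [hr, map_ratCast]
  · intro h1 h2 h3
    have h' : Sol2 m (P.map (mapRingHom i)) (i t₀) := by
      refine h (h1.map _) ?_ ?_
      · rw [ev_zero_map, h2, map_zero]
      · rw [derivative_map, ev_zero_map]
        exact (_root_.map_ne_zero i).2 h3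
    obtain ⟨a, t, g1, g2, g3, g4⟩ := h'
    refine ⟨a, t, fun y => g1 (i y), ?_, ?_, ?_⟩
    · rw [← ev_map, g2]
    · intro Q hQ
      rw [← ev_map]
      refine g3 _ ?_
      rw [ev_zero_map]
      exact (_root_.map_ne_zero i).2 hQ
    · intro S h0 hS
      obtain ⟨y, hy, hy'⟩ := g4 (S.image i) (by
        simp only [Finset.mem_image, not_exists, not_and]
        intro y hy h
        rw [map_eq_zero] at h
        exact h0 (h ▸ hy)) (by
        rw [Finset.card_image_of_injective _ i.injective, h1.natDegree_map]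
        exact hS)
      rw [Finset.mem_image] at hy
      obtain ⟨y', hy'S, rfl⟩ := hy
      exact ⟨y', hy'S, hy'⟩

/-- countable relatively algebraically closed subfields of Laurent series fields -/
theorem countable_rac {N : Type u} [Field N] (T : Set N) (hT : T.Countable) :
    ∃ (K : Type u) (_ : Field K) (_ : Countable K) (k : K →+* N), Rac k ∧ ∀ x ∈ T, ∃ y, k y = x := by
  let K₀ : Subfield N := Subfield.closure T
  have h0 : Countable K₀ := by
    have h1 := Subfield.cardinalMk_closure_le_max T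
    rw [← Cardinal.mk_le_aleph0_iff]
    refine h1.trans (max_le ?_ le_rfl)
    exact Cardinal.mk_le_aleph0_iff.2 hT
  let K := algebraicClosure K₀ N
  have h1 : Countable K := by
    rw [← Cardinal.mk_le_aleph0_iff]
    refine (Algebra.IsAlgebraic.cardinalMk_le_max K₀ K).trans (max_le ?_ le_rfl)
    exact Cardinal.mk_le_aleph0_iff.2 h0
  refine ⟨K, inferInstance, h1, algebraMap K N, ?_, ?_⟩
  · intro x hx
    have hx' : IsAlgebraic K x := by
      obtain ⟨p, hp, hpx⟩ := hx
      exact ⟨p, hp, by rwa [aeval_def]⟩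
    have h2 : x ∈ algebraicClosure K N := mem_algebraicClosure_iff.2 hx'
    rw [algebraicClosure.algebraicClosure_eq_bot, IntermediateField.mem_bot] at h2
    exact h2
  · intro x hx
    have hx0 : x ∈ K₀ := Subfield.subset_closure hx
    exact ⟨algebraMap K₀ K ⟨x, hx0⟩, rfl⟩

/-- factoring a ring hom through a field containing its image -/
lemma exists_factor {L K N : Type*} [Field L] [Field K] [Field N] (k : K →+* N) (f : L →+* N)
    (h : ∀ y, ∃ x, k x = f y) : ∃ i : L →+* K, k.comp i = f := by
  choose g hg using h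
  exact ⟨{ toFun := g
           map_one' := k.injective (by rw [hg, map_one, map_one])
           map_zero' := k.injective (by rw [hg, map_zero, map_zero])
           map_mul' := fun x y => k.injective (by rw [hg, map_mul, map_mul, hg, hg])
           map_add' := fun x y => k.injective (by rw [hg, map_add, map_add, hg, hg]) },
    RingHom.ext hg⟩

theorem step_of_adm {L F : Type u} [Field L] [Field F] [CharZero L] [CharZero F] [Countable L]
    (hL : Good L) (j : L →+* F) (hj : Adm j) (T : Set F) (hT : T.Countable) :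
    ∃ (K : Type u) (_ : Field K) (_ : CharZero K) (_ : Countable K) (i : L →+* K)
      (k : K →+* F⸨X⸩), Good K ∧ Rac i ∧ Rac k ∧ k.comp i = (cc F).comp j ∧
      (∀ x ∈ T, ∃ y, k y = cc F x) ∧ ∃ t, k t = algebraMap F⟦X⟧ F⸨X⸩ PowerSeries.X := by
  obtain ⟨K, _, hK, k, hk, hkT⟩ := countable_rac
    (Set.range ((cc F).comp j) ∪ (cc F) '' T ∪ {algebraMap F⟦X⟧ F⸨X⸩ PowerSeries.X})
    (((Set.countable_range _).union (hT.image _)).union (Set.countable_singleton _))
  have hKL : ∀ y, ∃ x, k x = ((cc F).comp j) y := fun y => hkT _ (Or.inl (Or.inl ⟨y, rfl⟩))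
  obtain ⟨i, hi⟩ := exists_factor k _ hKL
  have hcz : CharZero K := charZero_of_injective_ringHom i.injective
  refine ⟨K, inferInstance, hcz, hK, i, k, ?_, ?_, hk, hi, ?_, ?_⟩
  · exact Good.of_rac hk (hL.laurent hj)
  · refine Rac.of_comp (k := k) ?_
    rw [hi]
    exact hj.rac.comp rac_cc
  · intro x hx
    exact hkT _ (Or.inl (Or.inr ⟨x, hx, rfl⟩))
  · exact hkT _ (Or.inr rfl)

theorem step {L : Type u} [Field L] [CharZero L] [Countable L] (hL : Good L) (τ : Task L) :
    ∃ (K : Type u) (_ : Field K) (_ : CharZero K) (_ : Countable K) (i : L →+* K),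
      Good K ∧ Rac i ∧ Solved i τ := by
  rcases τ with _ | x | ⟨P, t₀⟩
  · have hj : Adm (RingHom.id L) := ⟨fun x _ => ⟨x, rfl⟩, hL.nopt, fun x _ => ⟨x, rfl⟩⟩
    obtain ⟨K, _, _, hKc, i, k, hK, hi, hk, hki, -, t, ht⟩ :=
      step_of_adm hL _ hj ∅ Set.countable_empty
    refine ⟨K, _, _, hKc, i, hK, hi, t, ?_, fun y => ?_⟩
    · rintro rfl
      rw [map_zero] at ht
      have := im_injective (ht.symm.trans (map_zero _).symm)
      exact PowerSeries.X_ne_zero this
    · rw [← hk.mem_VV, map_mul, ht]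
      have : k (i y) = cc L y := by
        rw [← RingHom.comp_apply, hki]
        rfl
      rw [this]
      exact X_mul_mem_VV hL.nopt y
  · by_cases hx : ∀ r : ℚ, x ≠ r
    · obtain ⟨F, _, _, j, hj, z, w, hzw⟩ := T1 hL x hx
      obtain ⟨K, _, _, hKc, i, k, hK, hi, hk, hki, hkT, -⟩ :=
        step_of_adm hL j hj {z, w} (by simp)
      obtain ⟨z', hz'⟩ := hkT z (by simp)
      obtain ⟨w', hw'⟩ := hkT w (by simp)
      refine ⟨K, _, _, hKc, i, hK, hi, fun _ => ⟨z', w', k.injective ?_⟩⟩
      have : k (i x) = cc F (j x) := by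
        rw [← RingHom.comp_apply, hki]
        rfl
      rw [map_pow, hw', map_neg, map_fz, this, hz', ← map_fz, ← map_neg, ← hzw, map_pow]
    · exact ⟨L, inferInstance, inferInstance, inferInstance, RingHom.id L, hL,
        fun x _ => ⟨x, rfl⟩, fun h => absurd h hx⟩
  · by_cases hP : P.Monic ∧ ev (RingHom.id L) 0 t₀ P = 0 ∧
      ev (RingHom.id L) 0 t₀ (derivative P) ≠ 0
    · obtain ⟨F, _, _, j, hj, a, t, h1, h2, h3, h4⟩ := T2 hL P hP.1 t₀ hP.2.1 hP.2.2
      obtain ⟨K, _, _, hKc, i, k, hK, hi, hk, hki, hkT, -⟩ :=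
        step_of_adm hL j hj {a, t} (by simp)
      obtain ⟨a', ha'⟩ := hkT a (by simp)
      obtain ⟨t', ht'⟩ := hkT t (by simp)
      have hkev : ∀ Q, k (ev i a' t' Q) = cc F (ev j a t Q) := by
        intro Q
        rw [map_ev, map_ev, hki, ha', ht']
      refine ⟨K, _, _, hKc, i, hK, hi, fun _ _ _ => ⟨a', t', ?_, ?_, ?_, ?_⟩⟩
      · intro y hy
        apply h1 y
        apply (cc F).injective
        rw [← ha', ← hy, ← RingHom.comp_apply, ← hki]
        rfl
      · apply k.injective
        rw [hkev, h2, map_zero, map_zero]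
      · intro Q hQ h
        apply h3 Q hQ
        apply (cc F).injective
        rw [← hkev, h, map_zero, map_zero]
      · intro S h0 hS
        obtain ⟨y, hy, hy'⟩ := h4 S h0 hS
        refine ⟨y, hy, fun s hs => ?_⟩
        obtain ⟨s', hs'⟩ := (rac_cc (F := F)).sq (a := 1 + j y * a) (s := k s) (by
          rw [← map_pow, hs, map_add, map_one, map_mul, ha', map_add, map_one, map_mul]
          congr 2
          rw [← RingHom.comp_apply, hki]
          rfl)
        exact hy' s' hs'
    · exact ⟨L, inferInstance, inferInstance, inferInstance, RingHom.id L, hL,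
        fun x _ => ⟨x, rfl⟩, fun a b c => absurd ⟨a, b, c⟩ hP⟩

end Pool.Agent.Helper51.ET
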