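import Pool.Agent.Helper51.ET.Final2
import Pool.Agent.Helper51.ET.Der
import Pool.Agent.Helper51.ET.Quad

/-!
# First task: adding a point to the curve with an irrational parameter
-/

namespace Pool.Agent.Helper51.ET

open Polynomial

universe u

lemma hh_expand {L : Type*} [Field L] (e : L) : hh e =
    -(X ^ 6 + C (5 + e ^ 2) * X ^ 4 + C (4 + 5 * e ^ 2) * X ^ 2 + C (4 * e ^ 2)) := by
  rw [hh]
  simp only [C_add, C_mul, C_pow, map_ofNat]
  ring

lemma hh_natDegree {L : Type*} [Field L] (e : L) : (hh e).natDegree = 6 := by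
  rw [hh_expand, natDegree_neg]
  compute_degree!

lemma hh_leadingCoeff {L : Type*} [Field L] (e : L) : (hh e).leadingCoeff = -1 := by
  rw [leadingCoeff, hh_natDegree, hh_expand, coeff_neg, coeff_add, coeff_add, coeff_add,
    coeff_X_pow, coeff_C_mul_X_pow, coeff_C_mul_X_pow, coeff_C]
  norm_num

lemma hh_not_sq {L : Type*} [Field L] (h1 : ∀ s : L, s ^ 2 ≠ -1) (e : L) (r : RatFunc L) :
    r ^ 2 ≠ pr (hh e) := by
  intro h
  have hden : algebraMap L[X] (RatFunc L) r.denom ≠ 0 :=
    RatFunc.algebraMap_ne_zero (RatFunc.denom_ne_zero r)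
  have h2 : r.num ^ 2 = hh e * r.denom ^ 2 := by
    apply RatFunc.algebraMap_injective (K := L)
    have h3 : algebraMap L[X] (RatFunc L) r.num = r * algebraMap L[X] (RatFunc L) r.denom := by
      have h4 := RatFunc.num_div_denom r
      rw [div_eq_iff hden] at h4
      exact h4
    have h' : r ^ 2 = algebraMap L[X] (RatFunc L) (hh e) := h
    rw [map_pow, map_mul, map_pow, h3, mul_pow, h']
  have h3 := congrArg leadingCoeff h2
  rw [leadingCoeff_pow, leadingCoeff_mul, leadingCoeff_pow, hh_leadingCoeff] at h3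
  have h4 : r.denom.leadingCoeff ≠ 0 := leadingCoeff_ne_zero.2 (RatFunc.denom_ne_zero r)
  apply h1 (r.num.leadingCoeff / r.denom.leadingCoeff)
  rw [div_pow, h3]
  field_simp

theorem T1 {L : Type u} [Field L] [CharZero L] (hL : Good L) (x : L) (hx : ∀ r : ℚ, x ≠ r) :
    ∃ (F : Type u) (_ : Field F) (_ : CharZero F) (j : L →+* F), Adm j ∧
      ∃ z w : F, w ^ 2 = -fz (j x) z := by
  set e : L := x ^ 2 + 3 with he
  have herat : ∀ r : ℚ, e ≠ r := by
    intro r hr
    obtain ⟨q, hq⟩ := hL.rat x ⟨X ^ 2 - C (r - 3), X_pow_sub_C_ne_zero (by norm_num) _, by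
      rw [eval₂_sub, eval₂_pow, eval₂_X, eval₂_C]
      rw [he] at hr
      simp only [Rat.coe_castHom]
      push_cast
      rw [← hr]
      ring⟩
    exact hx q hq.symm
  have he0 : e ≠ 0 := by simpa using herat 0
  have he1 : e ^ 2 ≠ 1 := by
    intro h
    have : (e - 1) * (e + 1) = 0 := by linear_combination h
    rcases mul_eq_zero.1 this with h | h
    · exact herat 1 (by push_cast; linear_combination h)
    · exact herat (-1) (by push_cast; linear_combination h)
  have he4 : e ^ 2 ≠ 4 := by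
    intro h
    have : (e - 2) * (e + 2) = 0 := by linear_combination h
    rcases mul_eq_zero.1 this with h | h
    · exact herat 2 (by push_cast; linear_combination h)
    · exact herat (-2) (by push_cast; linear_combination h)
  have hsep := hh_separable e he0 he1 he4
  have hrsep := hr_separable e he0 he1 he4
  let A : Type u := QuadraticAlgebra (RatFunc L) (pr (hh e)) 0
  have hfact : Fact (∀ r : RatFunc L, r ^ 2 ≠ pr (hh e) + 0 * r) := ⟨fun r => by
    rw [zero_mul, add_zero]
    exact hh_not_sq hL.nopt.neg_one e r⟩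
  let _ : Field A := inferInstanceAs (Field (QuadraticAlgebra (RatFunc L) (pr (hh e)) 0))
  let _ : Algebra (RatFunc L) A := inferInstanceAs (Algebra (RatFunc L) (QuadraticAlgebra (RatFunc L) (pr (hh e)) 0))
  let _ : Algebra L A := inferInstanceAs (Algebra L (QuadraticAlgebra (RatFunc L) (pr (hh e)) 0))
  have : IsScalarTower L (RatFunc L) A := inferInstanceAs (IsScalarTower L (RatFunc L) (QuadraticAlgebra (RatFunc L) (pr (hh e)) 0))
  have : FiniteDimensional (RatFunc L) A := inferInstanceAs (Module.Finite (RatFunc L) (QuadraticAlgebra (RatFunc L) (pr (hh e)) 0))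
  have : CharZero A := charZero_of_injective_algebraMap (algebraMap L A).injective
  let H : HE L A :=
    { φ := IsScalarTower.toAlgHom L (RatFunc L) A
      g := hh e
      y := (⟨0, 1⟩ : QuadraticAlgebra (RatFunc L) (pr (hh e)) 0)
      sf := hsep.squarefree
      hy := by
        change (⟨0, 1⟩ : QuadraticAlgebra (RatFunc L) (pr (hh e)) 0) ^ 2 =
          (⟨pr (hh e), 0⟩ : QuadraticAlgebra (RatFunc L) (pr (hh e)) 0)
        rw [pow_two, QuadraticAlgebra.mk_mul_mk]
        ext <;> simp
      span := by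
        rintro ⟨α, β⟩
        refine ⟨α, β, ?_⟩
        change (⟨α, β⟩ : QuadraticAlgebra (RatFunc L) (pr (hh e)) 0) =
          (⟨α, 0⟩ : QuadraticAlgebra (RatFunc L) (pr (hh e)) 0) + ⟨β, 0⟩ * ⟨0, 1⟩
        rw [QuadraticAlgebra.mk_mul_mk]
        ext <;> simp
      σ := starRingEnd (QuadraticAlgebra (RatFunc L) (pr (hh e)) 0)
      σφ := by
        intro α
        change star (⟨α, 0⟩ : QuadraticAlgebra (RatFunc L) (pr (hh e)) 0) = ⟨α, 0⟩
        rw [QuadraticAlgebra.star_mk]
        ext <;> simp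
      σy := by
        change star (⟨0, 1⟩ : QuadraticAlgebra (RatFunc L) (pr (hh e)) 0) = -⟨0, 1⟩
        rw [QuadraticAlgebra.star_mk]
        ext <;> simp }
  have hrac : Rac (algebraMap L A) := H.rac (by
    change 0 < (hh e).natDegree
    rw [hh_natDegree]
    norm_num)
  obtain ⟨D, hD⟩ := exists_der (L := L) (F := A) (2 * H.y)
  have hD0 : (2 * H.y) ≠ 0 := mul_ne_zero two_ne_zero H.y_ne_zero
  have hker : ∀ u, D u = 0 → ∃ a, algebraMap L A a = u := fun u hu =>
    der_ker hrac D (by rw [hD]; exact hD0) u hu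
  have hnopt : NoPt A := nopt_of_HE H e rfl hsep hrsep.squarefree herat D hD hker hrac hL.nopt
  have : FunctionField L A := ‹FiniteDimensional (RatFunc L) A›
  refine ⟨A, inferInstance, inferInstance, algebraMap L A, ⟨hrac, hnopt, fun x hx => vv_const hrac hx⟩,
    H.φ RatFunc.X, H.y, ?_⟩
  rw [H.hy, ← H.ψ_apply, H.ψ_eq]
  change aeval (H.φ RatFunc.X) (hh e) = _
  rw [aeval_hh, fz, he, map_add, map_pow, map_ofNat]

end Pool.Agent.Helper51.ET
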