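import Pool.Agent.Helper51.ET.Basic
import Pool.Agent.Helper51.ET.Defs

/-!
# The topology attached to a good field
-/

namespace Pool.Agent.Helper51.ET

open Polynomial Topology

section topo

variable {K : Type} [Field K] [CharZero K] (hK : Good K)
  (hs : ∀ (m : ℕ) (f : Fin m → K), ∃ t : K, t ≠ 0 ∧ ∀ i, t * f i ∈ VV K)

/-- `t V` -/
def Bt (t : K) : AddSubgroup K where
  carrier := {x | t⁻¹ * x ∈ VV K}
  add_mem' {x y} hx hy := by
    change t⁻¹ * (x + y) ∈ VV K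
    rw [mul_add]
    exact hK.add _ hx _ hy
  zero_mem' := by
    change t⁻¹ * 0 ∈ VV K
    rw [mul_zero]
    exact VV.zero_mem K
  neg_mem' {x} hx := by
    change t⁻¹ * -x ∈ VV K
    rw [mul_neg]
    exact VV.neg_mem hx

lemma mem_Bt {t x : K} : x ∈ Bt hK t ↔ t⁻¹ * x ∈ VV K := Iff.rfl

omit [CharZero K] in
include hs in
lemma small2 (x y : K) : ∃ t : K, t ≠ 0 ∧ t * x ∈ VV K ∧ t * y ∈ VV K := by
  obtain ⟨t, ht, h⟩ := hs 2 ![x, y]
  exact ⟨t, ht, by simpa using h 0, by simpa using h 1⟩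

include hs in
lemma subgroupsBasis : RingSubgroupsBasis (fun t : {t : K // t ≠ 0} => Bt hK t.1) := by
  refine RingSubgroupsBasis.of_comm _ ?_ ?_ ?_
  · rintro ⟨t₁, h₁⟩ ⟨t₂, h₂⟩
    obtain ⟨s, hs0, e1, e2⟩ := small2 hs t₁⁻¹ t₂⁻¹
    refine ⟨⟨s, hs0⟩, fun x hx => ⟨?_, ?_⟩⟩
    · have := hK.mul _ e1 _ hx
      change t₁⁻¹ * x ∈ VV K
      have h : s * t₁⁻¹ * (s⁻¹ * x) = t₁⁻¹ * x := by field_simp
      rwa [h] at this
    · have := hK.mul _ e2 _ hx
      change t₂⁻¹ * x ∈ VV K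
      have h : s * t₂⁻¹ * (s⁻¹ * x) = t₂⁻¹ * x := by field_simp
      rwa [h] at this
  · rintro ⟨t, ht⟩
    obtain ⟨s, hs0, e1, e2⟩ := small2 hs 1 t⁻¹
    refine ⟨⟨s, hs0⟩, ?_⟩
    rintro _ ⟨x, hx, y, hy, rfl⟩
    have := hK.mul _ (hK.mul _ e1 _ e2) _ (hK.mul _ hx _ hy)
    change t⁻¹ * (x * y) ∈ VV K
    have h : s * 1 * (s * t⁻¹) * (s⁻¹ * x * (s⁻¹ * y)) = t⁻¹ * (x * y) := by field_simp
    rwa [h] at this
  · rintro x ⟨t, ht⟩
    obtain ⟨s, hs0, e1, -⟩ := small2 hs (t⁻¹ * x) 0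
    refine ⟨⟨s, hs0⟩, fun y hy => ?_⟩
    have := hK.mul _ e1 _ hy
    change t⁻¹ * (x * y) ∈ VV K
    have h : s * (t⁻¹ * x) * (s⁻¹ * y) = t⁻¹ * (x * y) := by field_simp
    rwa [h] at this

instance : Nonempty {t : K // t ≠ 0} := ⟨⟨1, one_ne_zero⟩⟩

/-- the topology -/
abbrev tauK : TopologicalSpace K := (subgroupsBasis hK hs).topology

omit [CharZero K] in
lemma neg_one_not_mem (h : NoPt K) : (-1 : K) ∉ VV K := by
  intro h1
  obtain ⟨s, hs⟩ := h1 2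
  refine h.neg_one s ?_
  rw [hs]
  push_cast
  norm_num

theorem tau_field : IsFieldTopology K (tauK hK hs) := by
  let _ : TopologicalSpace K := tauK hK hs
  have hring : IsTopologicalRing K :=
    (subgroupsBasis hK hs).toRingFilterBasis.isTopologicalRing
  have hbasis := (subgroupsBasis hK hs).hasBasis_nhds
  have hbasis0 := (subgroupsBasis hK hs).hasBasis_nhds_zero
  refine ⟨?_, inferInstance, inferInstance, ?_⟩
  · apply IsTopologicalAddGroup.t2Space_of_zero_sep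
    intro x hx
    refine ⟨Bt hK (-x), ?_, ?_⟩
    · rw [hbasis0.mem_iff]
      exact ⟨⟨-x, neg_ne_zero.2 hx⟩, trivial, subset_rfl⟩
    · intro h
      rw [SetLike.mem_coe, mem_Bt] at h
      apply neg_one_not_mem hK.nopt
      have : (-x)⁻¹ * x = -1 := by field_simp
      rwa [this] at h
  · constructor
    intro x hx
    rw [ContinuousAt, (hbasis x).tendsto_iff (hbasis x⁻¹)]
    rintro ⟨t, ht⟩ -
    obtain ⟨s, hs0, e1, e2⟩ := small2 hs x⁻¹ ((x ^ 2)⁻¹ * t⁻¹)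
    refine ⟨⟨s, hs0⟩, trivial, fun y hy => ?_⟩
    have hy' : s⁻¹ * (y - x) ∈ VV K := hy
    have h1 : x⁻¹ * (y - x) ∈ VV K := by
      have := hK.mul _ e1 _ hy'
      have h : s * x⁻¹ * (s⁻¹ * (y - x)) = x⁻¹ * (y - x) := by field_simp
      rwa [h] at this
    obtain ⟨v, hv, hv'⟩ := hK.inv _ h1
    have h2 := hK.mul _ e2 _ hy'
    have h3 := hK.add _ h2 _ (hK.mul _ h2 _ hv)
    have hy0 : y ≠ 0 := by
      intro h0
      rw [h0] at hv'
      have : (1 + x⁻¹ * (0 - x)) = 0 := by field_simp; ring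
      rw [this, zero_mul] at hv'
      exact zero_ne_one hv'
    have hv'' : 1 + v = x * y⁻¹ := by
      have h4 : 1 + x⁻¹ * (y - x) = x⁻¹ * y := by field_simp; ring
      rw [h4] at hv'
      have h5 : x⁻¹ * y ≠ 0 := mul_ne_zero (inv_ne_zero hx) hy0
      apply mul_left_cancel₀ h5
      rw [hv']
      field_simp
    change t⁻¹ * (y⁻¹ - x⁻¹) ∈ VV K
    have h6 : t⁻¹ * (y⁻¹ - x⁻¹) = -(s * ((x ^ 2)⁻¹ * t⁻¹) * (s⁻¹ * (y - x)) +
        s * ((x ^ 2)⁻¹ * t⁻¹) * (s⁻¹ * (y - x)) * v) := by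
      have h7 : s * ((x ^ 2)⁻¹ * t⁻¹) * (s⁻¹ * (y - x)) +
        s * ((x ^ 2)⁻¹ * t⁻¹) * (s⁻¹ * (y - x)) * v =
        s * ((x ^ 2)⁻¹ * t⁻¹) * (s⁻¹ * (y - x)) * (1 + v) := by ring
      rw [h7, hv'']
      field_simp
      ring
    rw [h6]
    exact VV.neg_mem h3

theorem tau_nondiscrete : ¬ @DiscreteTopology K (tauK hK hs) := by
  intro hd
  let _ : TopologicalSpace K := tauK hK hs
  have hbasis0 := (subgroupsBasis hK hs).hasBasis_nhds_zero
  have h0 : ({0} : Set K) ∈ 𝓝 (0 : K) := by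
    rw [nhds_discrete]
    exact rfl
  rw [hbasis0.mem_iff] at h0
  obtain ⟨⟨t, ht⟩, -, h⟩ := h0
  obtain ⟨s, hs0, e1, -⟩ := small2 hs t⁻¹ 0
  have : s ∈ Bt hK t := by
    rw [mem_Bt, mul_comm]
    exact e1
  exact hs0 (h this)

theorem tau_hens (U : Set K) (hU : U ∈ @nhds K (tauK hK hs) (-1)) (d : ℕ) :
    ∃ V ∈ @nhds K (tauK hK hs) 0, ∀ a : Fin (d + 1) → K, (∀ i, a i ∈ V) → ∃ r ∈ U,
      eval r (X ^ (d + 2) + X ^ (d + 1) + ∑ i : Fin (d + 1), C (a i) * X ^ (i : ℕ)) = 0 ∧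
      eval r (derivative
        (X ^ (d + 2) + X ^ (d + 1) + ∑ i : Fin (d + 1), C (a i) * X ^ (i : ℕ))) ≠ 0 := by
  let _ : TopologicalSpace K := tauK hK hs
  have hbasis := (subgroupsBasis hK hs).hasBasis_nhds
  have hbasis0 := (subgroupsBasis hK hs).hasBasis_nhds_zero
  rw [(hbasis (-1)).mem_iff] at hU
  obtain ⟨⟨t, ht⟩, -, hU⟩ := hU
  obtain ⟨s, hs0, e1, e2⟩ := small2 hs t⁻¹ 1
  refine ⟨Bt hK s, ?_, fun a ha => ?_⟩
  · rw [hbasis0.mem_iff]
    exact ⟨⟨s, hs0⟩, trivial, subset_rfl⟩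
  · have ha' : ∀ i, s⁻¹ * a i ∈ VV K := ha
    have haV : ∀ i, a i ∈ VV K := fun i => by
      have := hK.mul _ e2 _ (ha' i)
      have h : s * 1 * (s⁻¹ * a i) = a i := by field_simp
      rwa [h] at this
    have haT : ∀ i, t⁻¹ * a i ∈ VV K := fun i => by
      have := hK.mul _ e1 _ (ha' i)
      have h : s * t⁻¹ * (s⁻¹ * a i) = t⁻¹ * a i := by field_simp
      rwa [h] at this
    obtain ⟨r, hr, h0, h1⟩ := hK.hens d a haV
    refine ⟨r, hU ?_, h0, h1⟩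
    -- units
    obtain ⟨v', hv', hvv⟩ := hK.inv _ (VV.neg_mem hr)
    have hr0 : r ≠ 0 := by
      rintro rfl
      rw [zero_add] at hvv
      norm_num at hvv
    have hrinv : r⁻¹ = -(1 + v') := by
      rw [inv_eq_iff_eq_inv]
      apply eq_inv_of_mul_eq_one_left
      linear_combination hvv
    have hmulr : ∀ x ∈ VV K, x * r ∈ VV K := by
      intro x hx
      have := hK.add _ (VV.neg_mem hx) _ (hK.mul _ hx _ hr)
      have h : -x + x * (r + 1) = x * r := by ring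
      rwa [h] at this
    have hmulri : ∀ x ∈ VV K, x * r⁻¹ ∈ VV K := by
      intro x hx
      have := hK.add _ (VV.neg_mem hx) _ (VV.neg_mem (hK.mul _ hx _ hv'))
      have h : -x + -(x * v') = x * r⁻¹ := by rw [hrinv]; ring
      rwa [h] at this
    have hpow : ∀ n : ℕ, ∀ x ∈ VV K, x * r ^ n ∈ VV K := by
      intro n
      induction n with
      | zero => intro x hx; simpa using hx
      | succ n ih => intro x hx; rw [pow_succ, ← mul_assoc]; exact hmulr _ (ih x hx)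
    have hpowi : ∀ n : ℕ, ∀ x ∈ VV K, x * r⁻¹ ^ n ∈ VV K := by
      intro n
      induction n with
      | zero => intro x hx; simpa using hx
      | succ n ih => intro x hx; rw [pow_succ, ← mul_assoc]; exact hmulri _ (ih x hx)
    have hsum : (∑ i : Fin (d + 1), t⁻¹ * a i * r ^ (i : ℕ)) * r⁻¹ ^ (d + 1) ∈ VV K := by
      refine hpowi _ _ ?_
      have : (∑ i : Fin (d + 1), t⁻¹ * a i * r ^ (i : ℕ)) ∈ Bt hK 1 := by
        refine AddSubgroup.sum_mem _ fun i _ => ?_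
        rw [mem_Bt, inv_one, one_mul]
        exact hpow _ _ (haT i)
      rwa [mem_Bt, inv_one, one_mul] at this
    change t⁻¹ * (r - -1) ∈ VV K
    have hroot : r ^ (d + 2) + r ^ (d + 1) + ∑ i : Fin (d + 1), a i * r ^ (i : ℕ) = 0 := by
      have := h0
      simp only [sp, eval_add, eval_pow, eval_X, eval_finsetSum, eval_mul, eval_C] at this
      exact this
    have hfin : t⁻¹ * (r - -1) =
        -((∑ i : Fin (d + 1), t⁻¹ * a i * r ^ (i : ℕ)) * r⁻¹ ^ (d + 1)) := by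
      have h2 : ∑ i : Fin (d + 1), t⁻¹ * a i * r ^ (i : ℕ) =
          t⁻¹ * ∑ i : Fin (d + 1), a i * r ^ (i : ℕ) := by
        rw [Finset.mul_sum]
        refine Finset.sum_congr rfl fun i _ => by ring
      have h3 : ∑ i : Fin (d + 1), a i * r ^ (i : ℕ) = -(r ^ (d + 1) * (r + 1)) := by
        linear_combination hroot
      rw [h2, h3, inv_pow]
      field_simp
      ring
    rw [hfin]
    exact VV.neg_mem hsum

theorem tau_gt : IsGtHenselian K (tauK hK hs) :=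
  ⟨tau_field hK hs, tau_nondiscrete hK hs, tau_hens hK hs⟩

/-- the basis -/
def basisK (K : Type) [Field K] : Set (Set K) :=
  {S | ∃ t x : K, t ≠ 0 ∧ S = {y | t⁻¹ * (y - x) ∈ VV K}}

theorem tau_basis : @TopologicalSpace.IsTopologicalBasis K (tauK hK hs) (basisK K) := by
  let _ : TopologicalSpace K := tauK hK hs
  have hbasis := (subgroupsBasis hK hs).hasBasis_nhds
  refine TopologicalSpace.isTopologicalBasis_of_isOpen_of_nhds ?_ ?_
  · rintro _ ⟨t, x, ht, rfl⟩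
    rw [isOpen_iff_mem_nhds]
    intro y hy
    rw [(hbasis y).mem_iff]
    refine ⟨⟨t, ht⟩, trivial, fun z hz => ?_⟩
    have hz' : t⁻¹ * (z - y) ∈ VV K := hz
    have := hK.add _ hz' _ hy
    have h : t⁻¹ * (z - y) + t⁻¹ * (y - x) = t⁻¹ * (z - x) := by ring
    rwa [h] at this
  · intro x U hx hU
    have h := hU.mem_nhds hx
    rw [(hbasis x).mem_iff] at h
    obtain ⟨⟨t, ht⟩, -, h⟩ := h
    refine ⟨_, ⟨t, x, ht, rfl⟩, ?_, h⟩
    change t⁻¹ * (x - x) ∈ VV K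
    rw [sub_self, mul_zero]
    exact VV.zero_mem K

end topo

end Pool.Agent.Helper51.ET
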